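import Mathlib

set_option linter.unnecessarySeqFocus false

namespace Pool.Helper653.Cub

/-- Gaussian integers. -/
abbrev G := GaussianInt

/-- The imaginary unit. -/
def i : G := ⟨0, 1⟩
/-- The prime `1 + i`. -/
def p : G := ⟨1, 1⟩

@[simp] lemma i_re : i.re = 0 := rfl
@[simp] lemma i_im : i.im = 1 := rfl
@[simp] lemma p_re : p.re = 1 := rfl
@[simp] lemma p_im : p.im = 1 := rfl

lemma i_sq : i ^ 2 = -1 := by ext <;> simp [pow_two]
lemma p_eq : p = 1 + i := by ext <;> simp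
lemma p_sq : p ^ 2 = 2 * i := by ext <;> simp [pow_two]
lemma p_four : p ^ 4 = -4 := by
  have : p ^ 4 = (p ^ 2) ^ 2 := by ring
  rw [this, p_sq, mul_pow, i_sq]; ring

lemma p_dvd_iff (z : G) : p ∣ z ↔ (2 : ℤ) ∣ z.re + z.im := by
  constructor
  · rintro ⟨w, rfl⟩
    simp
    exact ⟨w.re, by ring⟩
  · rintro ⟨k, hk⟩
    refine ⟨⟨k, k - z.re⟩, ?_⟩
    ext <;> simp <;> linarith

lemma p_ne_zero : p ≠ 0 := by
  intro h
  have := congrArg Zsqrtd.re h
  simp at this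

lemma not_p_dvd_one : ¬ p ∣ (1 : G) := by
  rw [p_dvd_iff]; simp

lemma prime_p : Prime p := by
  refine ⟨p_ne_zero, ?_, ?_⟩
  · intro h
    exact not_p_dvd_one h.dvd
  · intro a b hab
    rw [p_dvd_iff] at hab
    rw [p_dvd_iff, p_dvd_iff]
    simp at hab
    have h1 : (2 : ℤ) ∣ (a.re + a.im) * (b.re + b.im) := by
      obtain ⟨k, hk⟩ := hab
      exact ⟨k + a.im * b.im, by linarith⟩
    exact Int.prime_two.dvd_or_dvd h1

lemma two_eq : (2 : G) = p * (1 - i) := by ext <;> simp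

lemma p_dvd_two : p ∣ (2 : G) := ⟨1 - i, two_eq⟩

lemma two_ne : (2 : G) ≠ 0 := by
  intro h
  have := congrArg Zsqrtd.re h
  simp at this

/-- prime from prime norm -/
lemma prime_of_norm {z : G} {n : ℕ} (hn : n.Prime) (h : z.norm.natAbs = n) : Prime z := by
  have hz0 : z ≠ 0 := by
    rintro rfl
    simp at h
    exact hn.ne_zero h.symm
  have hzu : ¬ IsUnit z := by
    intro hu
    rw [← Zsqrtd.norm_eq_one_iff] at hu
    rw [hu] at h
    exact hn.one_lt.ne h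
  have : Irreducible z := by
    refine ⟨hzu, ?_⟩
    intro a b hab
    have h1 : a.norm.natAbs * b.norm.natAbs = n := by
      rw [← Int.natAbs_mul, ← Zsqrtd.norm_mul, ← hab, h]
    rcases (Nat.prime_mul_iff.1 (h1 ▸ hn)) with ⟨_, h2⟩ | ⟨_, h2⟩
    · right; exact Zsqrtd.norm_eq_one_iff.1 h2
    · left; exact Zsqrtd.norm_eq_one_iff.1 h2
  exact this.prime

lemma prime5 : Prime (1 + 2 * i : G) := by
  apply prime_of_norm (n := 5) (by norm_num)
  simp [Zsqrtd.norm_def]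

lemma prime17 : Prime (1 + 4 * i : G) := by
  apply prime_of_norm (n := 17) (by norm_num)
  simp [Zsqrtd.norm_def]

/-- units -/
lemma unit_cases {u : G} (hu : IsUnit u) : u = 1 ∨ u = -1 ∨ u = i ∨ u = -i := by
  rw [← Zsqrtd.norm_eq_one_iff] at hu
  rw [Zsqrtd.norm_def] at hu
  have h1 : u.re ^ 2 + u.im ^ 2 = 1 := by
    have h0 : 0 ≤ u.re * u.re - -1 * u.im * u.im := by nlinarith [sq_nonneg u.re, sq_nonneg u.im]
    have := Int.natAbs_of_nonneg h0
    rw [hu] at this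
    push_cast at this
    linarith
  have hre : u.re ≤ 1 ∧ -1 ≤ u.re := ⟨by nlinarith [sq_nonneg u.im], by nlinarith [sq_nonneg u.im]⟩
  have him : u.im ≤ 1 ∧ -1 ≤ u.im := ⟨by nlinarith [sq_nonneg u.re], by nlinarith [sq_nonneg u.re]⟩
  obtain ⟨x, y⟩ := u
  simp only at h1 hre him
  have hx : x = -1 ∨ x = 0 ∨ x = 1 := by omega
  have hy : y = -1 ∨ y = 0 ∨ y = 1 := by omega
  rcases hx with rfl | rfl | rfl <;> rcases hy with rfl | rfl | rfl <;> simp at h1
  · right; left; ext <;> simp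
  · right; right; right; ext <;> simp
  · right; right; left; ext <;> simp
  · left; ext <;> simp

/-- odd squares are `±1` modulo `4 (1 + i)` -/
lemma sq_odd {z : G} (h : ¬ p ∣ z) : ∃ t : G, z ^ 2 = 1 + 4 * p * t ∨ z ^ 2 = -1 + 4 * p * t := by
  rw [p_dvd_iff] at h
  obtain ⟨x, y⟩ := z
  simp only at h
  rcases Int.even_or_odd x with ⟨a, ha⟩ | ⟨a, ha⟩
  · rcases Int.even_or_odd y with ⟨b, hb⟩ | ⟨b, hb⟩
    · omega
    · -- x = 2a, y = 2b+1 : z^2 = 4a^2 - (2b+1)^2 + 4a(2b+1) i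
      have hb2 : Even (b * (b + 1)) := Int.even_mul_succ_self b
      obtain ⟨c, hc⟩ := hb2
      have ha2 : Even (a * (a + 1)) := Int.even_mul_succ_self a
      obtain ⟨d, hd⟩ := ha2
      -- z^2 + 1 = 4 (a^2 - b(b+1) + a (2b+1) i)
      -- w = p t, t = w (1 - i)/2
      refine ⟨⟨d - c + a * b, a * b - d + a + c⟩, Or.inr ?_⟩
      subst ha; subst hb
      ext
      · simp [pow_two]; linear_combination (-4 : ℤ) * hc + (4 : ℤ) * hd
      · simp [pow_two]; linear_combination (0 : ℤ) * hc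
  · rcases Int.even_or_odd y with ⟨b, hb⟩ | ⟨b, hb⟩
    · have hb2 : Even (b * (b + 1)) := Int.even_mul_succ_self b
      obtain ⟨c, hc⟩ := hb2
      have ha2 : Even (a * (a + 1)) := Int.even_mul_succ_self a
      obtain ⟨d, hd⟩ := ha2
      -- z^2 - 1 = 4 (a(a+1) - b^2 + (2a+1) b i)
      refine ⟨⟨d - c + a * b + b, a * b - d + c⟩, Or.inl ?_⟩
      subst ha; subst hb
      ext
      · simp [pow_two]; linear_combination (-4 : ℤ) * hc + (4 : ℤ) * hd
      · simp [pow_two]; linear_combination (0 : ℤ) * hd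
    · omega


lemma four_odd {z : G} (h : ¬ p ∣ z) : ∃ t : G, z ^ 4 = 1 + 8 * p * t := by
  obtain ⟨t, ht | ht⟩ := sq_odd h
  · refine ⟨t + 2 * p * t ^ 2, ?_⟩
    have : z ^ 4 = (z ^ 2) ^ 2 := by ring
    rw [this, ht]; ring
  · refine ⟨-t + 2 * p * t ^ 2, ?_⟩
    have : z ^ 4 = (z ^ 2) ^ 2 := by ring
    rw [this, ht]; ring

/-- odd elements are `1 + p w` -/
lemma odd_form {z : G} (h : ¬ p ∣ z) : ∃ w : G, z = 1 + p * w := by
  rw [p_dvd_iff] at h
  have : p ∣ z - 1 := by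
    rw [p_dvd_iff]; simp; omega
  obtain ⟨w, hw⟩ := this
  exact ⟨w, by rw [← hw]; ring⟩

lemma odd_mul {a b : G} (ha : ¬ p ∣ a) (hb : ¬ p ∣ b) : ¬ p ∣ a * b := by
  intro h
  rcases prime_p.dvd_or_dvd h with h | h
  · exact ha h
  · exact hb h

lemma odd_pow {a : G} (ha : ¬ p ∣ a) (n : ℕ) : ¬ p ∣ a ^ n := by
  intro h
  exact ha (prime_p.dvd_of_dvd_pow h)

/-- halving: `4 ∣ x * y`, `2 ∣ x - y` imply `2 ∣ x` and `2 ∣ y`. -/
lemma halve {x y : G} (h : (4 : G) ∣ x * y) (h2 : (2 : G) ∣ x - y) : (2 : G) ∣ x ∧ (2 : G) ∣ y := by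
  suffices hx : (2 : G) ∣ x by
    refine ⟨hx, ?_⟩
    have := dvd_sub hx h2
    simpa using this
  obtain ⟨k, hk⟩ := h2
  have hy : y = x - 2 * k := by rw [← hk]; ring
  rw [hy] at h
  -- p ∣ x
  have h1 : p ∣ x * (x - 2 * k) := (p_dvd_two.trans ⟨2, by norm_num⟩).trans h
  have hpx : p ∣ x := by
    rcases prime_p.dvd_or_dvd h1 with h3 | h3
    · exact h3
    · have := dvd_add h3 (p_dvd_two.mul_right k)
      simpa using this
  obtain ⟨x', rfl⟩ := hpx
  obtain ⟨m, hm⟩ := h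
  -- p x' (p x' - 2 k) = 4 m ; 2 = p (1-i); so x' (x' - (1-i) k) = (1-i)^2 m
  have h4 : p ^ 2 * (x' * (x' - (1 - i) * k)) = p ^ 2 * ((1 - i) ^ 2 * m) := by
    have h5 : p * (1 - i) = 2 := two_eq.symm
    linear_combination hm + (-p * x' * k - 2 * m - p * (1 - i) * m) * h5
  have h6 : x' * (x' - (1 - i) * k) = (1 - i) ^ 2 * m := mul_left_cancel₀ (pow_ne_zero 2 p_ne_zero) h4
  have h7 : (1 - i : G) = p * (-i) := by ext <;> simp
  have h8 : p ∣ x' * (x' - (1 - i) * k) := by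
    rw [h6, h7]; exact ⟨p * (-i) ^ 2 * m, by ring⟩
  have h9 : p ∣ x' := by
    rcases prime_p.dvd_or_dvd h8 with h3 | h3
    · exact h3
    · have h10 : p ∣ (1 - i) * k := by rw [h7]; exact ⟨-i * k, by ring⟩
      have := dvd_add h3 h10
      simpa using this
  obtain ⟨x'', rfl⟩ := h9
  refine ⟨i * x'', ?_⟩
  have := p_sq
  linear_combination x'' * this

end Pool.Helper653.Cub
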