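import Mathlib

/-- Case B of the descent, `m` even. -/
theorem cub_fermat_aux {n : ℕ} (IH : ∀ k < n, ∀ x y z : ℤ, x.natAbs = k →
    x ^ 4 - y ^ 4 = z ^ 2 → y = 0 ∨ z = 0) {x y m k : ℤ} (hx : x.natAbs = n) (hy0 : y ≠ 0)
    (h1 : y ^ 2 = 2 * m * k) (h2 : x ^ 2 = m ^ 2 + k ^ 2) (hc : Int.gcd m k = 1)
    (hm : m % 2 = 0) (hk : k % 2 = 1) : False := by
  obtain ⟨m', rfl⟩ : ∃ m', m = 2 * m' := ⟨m / 2, by omega⟩
  have hy2 : 2 ∣ y := by
    have : (2 : ℤ) ∣ y ^ 2 := ⟨2 * m' * k, by rw [h1]; ring⟩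
    exact Int.prime_two.dvd_of_dvd_pow this
  obtain ⟨y', rfl⟩ := hy2
  have hy' : y' ≠ 0 := by
    rintro rfl
    simp at hy0
  have h3 : m' * k = y' ^ 2 := by nlinarith
  have hc' : IsCoprime (2 * m') k := Int.isCoprime_iff_gcd_eq_one.2 hc
  have hc1 : IsCoprime m' k := hc'.of_mul_left_right
  have hg1 : Int.gcd m' k = 1 := Int.isCoprime_iff_gcd_eq_one.1 hc1
  have hpos : 0 < m' * k := by
    rw [h3]
    positivity
  obtain ⟨r, hr⟩ := Int.sq_of_gcd_eq_one hg1 h3
  obtain ⟨s, hs⟩ := Int.sq_of_gcd_eq_one (by rw [Int.gcd_comm]; exact hg1) ((mul_comm k m').trans h3)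
  have hm0 : m' ≠ 0 := left_ne_zero_of_mul hpos.ne'
  have hk0 : k ≠ 0 := right_ne_zero_of_mul hpos.ne'
  have hr0 : r ≠ 0 := by
    rintro rfl
    simp at hr
    exact hm0 hr
  have hs0 : s ≠ 0 := by
    rintro rfl
    simp at hs
    exact hk0 hs
  have hm2 : m' ^ 2 = r ^ 4 := by
    rcases hr with rfl | rfl <;> ring
  have hk2 : k ^ 2 = s ^ 4 := by
    rcases hs with rfl | rfl <;> ring
  have hx2 : x ^ 2 = 4 * r ^ 4 + s ^ 4 := by
    rw [h2, ← hm2, ← hk2]
    ring
  have hsodd : s ^ 2 % 2 = 1 := by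
    rcases hs with h | h <;> omega
  have hcop : IsCoprime (s ^ 2) (2 * r ^ 2) := by
    have e : IsCoprime k (2 * m') := hc'.symm
    have e1 : ∀ a b : ℤ, (a = r ^ 2 ∨ a = -r ^ 2) → (b = s ^ 2 ∨ b = -s ^ 2) →
        IsCoprime b (2 * a) → IsCoprime (s ^ 2) (2 * r ^ 2) := by
      rintro a b (rfl | rfl) (rfl | rfl) h
      · exact h
      · exact (IsCoprime.neg_left_iff _ _).1 h
      · rw [mul_neg] at h
        exact (IsCoprime.neg_right_iff _ _).1 h
      · rw [mul_neg] at h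
        exact (IsCoprime.neg_right_iff _ _).1 ((IsCoprime.neg_left_iff _ _).1 h)
    exact e1 m' k hr hs e
  have hx0 : x ≠ 0 := by
    rintro rfl
    have : 0 < s ^ 4 := by positivity
    have : 0 ≤ 4 * r ^ 4 := by positivity
    nlinarith
  have hpt : PythagoreanTriple (s ^ 2) (2 * r ^ 2) |x| := by
    unfold PythagoreanTriple
    have : |x| * |x| = x ^ 2 := by rw [abs_mul_abs_self]; ring
    rw [this, hx2]
    ring
  obtain ⟨u, w, e1, e2, e3, e4, -, e5⟩ := PythagoreanTriple.coprime_classification' hpt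
    (Int.isCoprime_iff_gcd_eq_one.1 hcop) hsodd (abs_pos.2 hx0)
  have e6 : u * w = r ^ 2 := by linarith
  have hr2 : 0 < r ^ 2 := by positivity
  have hu0 : 0 < u := by
    rcases e5.lt_or_eq with h | h
    · exact h
    · exfalso
      rw [← h, zero_mul] at e6
      exact hr0 (pow_eq_zero_iff (two_ne_zero) |>.1 e6.symm)
  have hw0 : 0 < w := by
    by_contra hw
    have : u * w ≤ 0 := mul_nonpos_of_nonneg_of_nonpos hu0.le (not_lt.1 hw)
    linarith
  obtain ⟨a, ha⟩ := Int.sq_of_gcd_eq_one e4 e6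
  obtain ⟨b, hb⟩ := Int.sq_of_gcd_eq_one (by rw [Int.gcd_comm]; exact e4)
    ((mul_comm w u).trans e6)
  have ha' : u = a ^ 2 := by
    rcases ha with h | h
    · exact h
    · nlinarith [sq_nonneg a]
  have hb' : w = b ^ 2 := by
    rcases hb with h | h
    · exact h
    · nlinarith [sq_nonneg b]
  have hb0 : b ≠ 0 := by
    rintro rfl
    simp at hb'
    omega
  have ha0 : a ≠ 0 := by
    rintro rfl
    simp at ha'
    omega
  have hlt : a.natAbs < n := by
    rw [← hx]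
    have : |a| < |x| := by
      rw [e3, ha', hb']
      have h1 : 1 ≤ |a| := Int.one_le_abs ha0
      have h2 : (a ^ 2) ^ 2 = |a| ^ 4 := by
        rw [← pow_mul]
        exact (Even.pow_abs (by decide) a).symm
      have h3 : 0 < (b ^ 2) ^ 2 := by positivity
      have h4 : |a| ≤ |a| ^ 4 := le_self_pow₀ h1 (by norm_num)
      rw [h2]
      linarith
    rwa [Int.abs_eq_natAbs, Int.abs_eq_natAbs, Nat.cast_lt] at this
  rcases IH a.natAbs hlt a b s rfl (by rw [e1, ha', hb']; ring) with h | h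
  · exact hb0 h
  · exact hs0 h

theorem cub_fermat_ind (n : ℕ) : ∀ x y z : ℤ, x.natAbs = n →
    x ^ 4 - y ^ 4 = z ^ 2 → y = 0 ∨ z = 0 := by
  induction n using Nat.strong_induction_on with
  | _ n IH =>
    intro x y z hx h
    by_contra hcon
    rw [not_or] at hcon
    obtain ⟨hy0, hz0⟩ := hcon
    have hx0 : x ≠ 0 := by
      rintro rfl
      have h1 : 0 < z ^ 2 := by positivity
      have h2 : 0 ≤ y ^ 4 := by positivity
      nlinarith
    -- coprime
    have hg : Int.gcd x y = 1 := by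
      by_contra hg
      set g := Int.gcd x y with hgdef
      have hg0 : g ≠ 0 := by
        intro h0
        exact hx0 (Int.gcd_eq_zero_iff.1 h0).1
      obtain ⟨x', hx'⟩ : (g : ℤ) ∣ x := Int.gcd_dvd_left ..
      obtain ⟨y', hy'⟩ : (g : ℤ) ∣ y := Int.gcd_dvd_right ..
      have hgz : (g : ℤ) ^ 2 ∣ z := by
        have : ((g : ℤ) ^ 2) ^ 2 ∣ z ^ 2 := ⟨x' ^ 4 - y' ^ 4, by rw [← h, hx', hy']; ring⟩
        exact (Int.pow_dvd_pow_iff (by norm_num)).1 this
      obtain ⟨z', hz'⟩ := hgz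
      have hgz0 : (g : ℤ) ≠ 0 := by exact_mod_cast hg0
      have h' : x' ^ 4 - y' ^ 4 = z' ^ 2 := by
        have : (g : ℤ) ^ 4 * (x' ^ 4 - y' ^ 4) = (g : ℤ) ^ 4 * z' ^ 2 := by
          rw [hx', hy', hz'] at h
          linear_combination h
        exact mul_left_cancel₀ (pow_ne_zero 4 hgz0) this
      have hlt : x'.natAbs < n := by
        rw [← hx, hx', Int.natAbs_mul, Int.natAbs_natCast]
        have h1 : x'.natAbs ≠ 0 := by
          rw [Int.natAbs_ne_zero]
          rintro rfl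
          exact hx0 (by rw [hx']; ring)
        have h2 : 2 ≤ g := by omega
        nlinarith [Nat.pos_of_ne_zero h1]
      rcases IH x'.natAbs hlt x' y' z' rfl h' with h0 | h0
      · exact hy0 (by rw [hy', h0]; ring)
      · exact hz0 (by rw [hz', h0]; ring)
    have hcop : IsCoprime x y := Int.isCoprime_iff_gcd_eq_one.2 hg
    have hc2 : IsCoprime (y ^ 2) z := by
      have h1 : IsCoprime (x ^ 4) (y ^ 2) := hcop.pow
      have h2 : x ^ 4 = z ^ 2 + y ^ 2 * y ^ 2 := by linarith [h, show y ^ 4 = y ^ 2 * y ^ 2 by ring]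
      rw [h2] at h1
      have h3 : IsCoprime (z ^ 2) (y ^ 2) := IsCoprime.of_add_mul_left_left h1
      exact ((IsCoprime.pow_left_iff (by norm_num)).1 h3).symm
    have hpt : PythagoreanTriple (y ^ 2) z (x ^ 2) := by
      unfold PythagoreanTriple
      linear_combination -h
    obtain ⟨m, k, e1, e2, e3, e4⟩ := PythagoreanTriple.coprime_classification.1
      ⟨hpt, Int.isCoprime_iff_gcd_eq_one.1 hc2⟩
    have hx2 : 0 < x ^ 2 := by positivity
    have e2' : x ^ 2 = m ^ 2 + k ^ 2 := by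
      rcases e2 with e2 | e2
      · exact e2
      · nlinarith [sq_nonneg m, sq_nonneg k]
    rcases e1 with ⟨e1, e1'⟩ | ⟨e1, e1'⟩
    · have hk0 : k ≠ 0 := by
        rintro rfl
        exact hz0 (by rw [e1']; ring)
      have hlt : m.natAbs < n := by
        rw [← hx]
        have : m ^ 2 < x ^ 2 := by
          rw [e2']
          have : 0 < k ^ 2 := by positivity
          linarith
        exact Int.natAbs_lt_iff_sq_lt.2 this
      rcases IH m.natAbs hlt m k (x * y) rfl (by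
        rw [mul_pow, e2', e1]; ring) with h0 | h0
      · exact hk0 h0
      · exact (mul_ne_zero hx0 hy0) h0
    · rcases e4 with ⟨hm, hk⟩ | ⟨hm, hk⟩
      · exact cub_fermat_aux IH hx hy0 e1 e2' e3 hm hk
      · exact cub_fermat_aux IH hx hy0 (by rw [e1]; ring) (by rw [e2']; ring)
          (by rw [Int.gcd_comm]; exact e3) hk hm

/-- Fermat: `x^4 - y^4 = z^2` has only trivial solutions. -/
theorem cub_fermat_sub (x y z : ℤ) (h : x ^ 4 - y ^ 4 = z ^ 2) : y = 0 ∨ z = 0 :=
  cub_fermat_ind x.natAbs x y z rfl h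

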