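import Pool.Prelude.Def_F_ee2aeab6
open Polynomial

namespace Pool.Helper653.Cub

/-- the quintic resolvent value -/
noncomputable def Rf (a b Y : ℝ) : ℝ :=
  Y ^ 5 + (2 * b ^ 2 + a ^ 2) * (3 * b ^ 2 - 2 * a ^ 2) * Y ^ 4
    + (b ^ 8 + 10 * a ^ 2 * b ^ 6 + 4 * a ^ 4 * b ^ 4 - 14 * a ^ 6 * b ^ 2 + a ^ 8) * Y ^ 3
    - a ^ 2 * b ^ 2 * (b ^ 8 - 14 * a ^ 2 * b ^ 6 + 4 * a ^ 4 * b ^ 4 + 10 * a ^ 6 * b ^ 2 + a ^ 8) * Y ^ 2
    - a ^ 6 * b ^ 6 * (b ^ 2 + 2 * a ^ 2) * (-2 * b ^ 2 + 3 * a ^ 2) * Y - b ^ 10 * a ^ 10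

lemma root_neg {a b : ℝ} (ha : 0 < a) (hb : 0 < b) (hab : a ≠ b) :
    ∃ Y : ℝ, Y < 0 ∧ Rf a b Y = 0 := by
  have hne : b ^ 2 - a ^ 2 ≠ 0 := by
    intro h
    have h1 : b ^ 2 = a ^ 2 := by linarith
    rcases sq_eq_sq_iff_eq_or_eq_neg.1 h1 with h | h
    · exact hab h.symm
    · linarith
  have h1 : Rf a b (-(a ^ 2 * b ^ 2)) < 0 := by
    have : Rf a b (-(a ^ 2 * b ^ 2)) = -(2 * a ^ 6 * b ^ 6 * (b ^ 2 - a ^ 2) ^ 4) := by
      rw [Rf]; ring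
    rw [this]
    have : 0 < 2 * a ^ 6 * b ^ 6 * (b ^ 2 - a ^ 2) ^ 4 := by positivity
    linarith
  have h2 : 0 < Rf a b (-b ^ 4) := by
    have : Rf a b (-b ^ 4) = 4 * b ^ 10 * (a ^ 2 + b ^ 2) * (b ^ 2 - a ^ 2) ^ 4 := by
      rw [Rf]; ring
    rw [this]
    positivity
  have hcont : Continuous (Rf a b) := by
    unfold Rf
    fun_prop
  have h3 := intermediate_value_uIcc (a := -(a ^ 2 * b ^ 2)) (b := -b ^ 4) hcont.continuousOn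
  have h4 : (0 : ℝ) ∈ Set.uIcc (Rf a b (-(a ^ 2 * b ^ 2))) (Rf a b (-b ^ 4)) := by
    rw [Set.mem_uIcc]; left; exact ⟨h1.le, h2.le⟩
  obtain ⟨Y, hY, hY0⟩ := h3 h4
  refine ⟨Y, ?_, hY0⟩
  rw [Set.mem_uIcc] at hY
  have h5 : 0 < a ^ 2 * b ^ 2 := by positivity
  have h6 : 0 < b ^ 4 := by positivity
  rcases hY with hY | hY <;> linarith [hY.1, hY.2]

/-- algebraic identity behind the change of variables -/
lemma tau_root {a b Y : ℝ} (ha : 0 < a) (hb : 0 < b) (hab : a ≠ b) (hY : Rf a b Y = 0) :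
    let u := (a ^ 2 * b ^ 2 - Y) / (a ^ 2 * b ^ 2 + Y)
    let v := (b ^ 2 - a ^ 2) / (a ^ 2 + b ^ 2)
    let n := u * v
    let τ := (2 * v ^ 2 - 1 - n ^ 2) / (1 - n ^ 2)
    τ ^ 5 - τ ^ 4 - 2 * τ ^ 3 + 2 * τ ^ 2 - 2 * (2 * a * b / (a ^ 2 + b ^ 2)) ^ 2 = 0 := by
  intro u v n τ
  have hne : b ^ 2 - a ^ 2 ≠ 0 := by
    intro h
    have h1 : b ^ 2 = a ^ 2 := by linarith
    rcases sq_eq_sq_iff_eq_or_eq_neg.1 h1 with h | h
    · exact hab h.symm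
    · linarith
  have hs : a ^ 2 + b ^ 2 ≠ 0 := by positivity
  have hD : a ^ 2 * b ^ 2 + Y ≠ 0 := by
    intro h
    have hY1 : Y = -(a ^ 2 * b ^ 2) := by linarith
    have : Rf a b (-(a ^ 2 * b ^ 2)) = -(2 * a ^ 6 * b ^ 6 * (b ^ 2 - a ^ 2) ^ 4) := by
      rw [Rf]; ring
    rw [← hY1, hY] at this
    have h2 : 0 < 2 * a ^ 6 * b ^ 6 * (b ^ 2 - a ^ 2) ^ 4 := by positivity
    linarith
  have key : u * (1 - n ^ 2) ^ 2 - 4 * v * (1 - v ^ 2) * (1 - u ^ 2)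
      = -16 * a ^ 4 * b ^ 4 * Rf a b Y / ((a ^ 2 * b ^ 2 + Y) ^ 5 * (a ^ 2 + b ^ 2) ^ 4) := by
    simp only [n, u, v, Rf]
    field_simp
    ring
  rw [hY, mul_zero, zero_div] at key
  have hv0 : v ≠ 0 := div_ne_zero hne hs
  have hq : (2 * a * b / (a ^ 2 + b ^ 2)) ^ 2 = 1 - v ^ 2 := by
    simp only [v]; field_simp; ring
  have hq0 : 1 - v ^ 2 ≠ 0 := by
    rw [← hq]; positivity
  have hn1 : 1 - n ^ 2 ≠ 0 := by
    intro h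
    rw [h] at key
    have h1 : 1 - u ^ 2 = 0 := by
      have h2 : 4 * v * (1 - v ^ 2) * (1 - u ^ 2) = 0 := by linarith
      have h3 : 4 * v * (1 - v ^ 2) ≠ 0 := mul_ne_zero (mul_ne_zero (by norm_num) hv0) hq0
      exact (mul_eq_zero.1 h2).resolve_left h3
    apply hq0
    have h4 : n ^ 2 = u ^ 2 * v ^ 2 := by simp only [n]; ring
    rw [h4] at h
    have h5 : u ^ 2 = 1 := by linarith
    rw [h5] at h
    linarith
  have hτ : τ * (1 - n ^ 2) = 2 * v ^ 2 - 1 - n ^ 2 := by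
    simp only [τ]; field_simp
  have h4 : n = u * v := rfl
  clear_value τ n v u
  have hE : n * (1 - n ^ 2) ^ 2 = 4 * (1 - v ^ 2) * (v ^ 2 - n ^ 2) := by
    have h5 : n ^ 2 = u ^ 2 * v ^ 2 := by rw [h4]; ring
    have h6 : v * (u * (1 - n ^ 2) ^ 2 - 4 * v * (1 - v ^ 2) * (1 - u ^ 2)) = 0 := by rw [key, mul_zero]
    linear_combination h6 + (1 - n ^ 2) ^ 2 * h4 + (4 * (1 - v ^ 2)) * h5
  have hτ2 : τ ^ 2 = 1 - n := by
    have h8 : (1 - n ^ 2) ^ 2 * τ ^ 2 = (1 - n ^ 2) ^ 2 * (1 - n) := by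
      have : (1 - n ^ 2) ^ 2 * τ ^ 2 = (τ * (1 - n ^ 2)) ^ 2 := by ring
      rw [this, hτ]
      linear_combination hE
    exact mul_left_cancel₀ (pow_ne_zero 2 hn1) h8
  have hn : n = 1 - τ ^ 2 := by linarith
  rw [hq]
  rw [hn] at hτ
  linear_combination -hτ


/-- degree bookkeeping -/
lemma field_step {P T : ℚ[X]} (hP : P.Monic) (hPd : P.natDegree = 10) (hT : T.Monic)
    (hTd : T.natDegree = 5) (hTi : Irreducible T) {α : ℂ} {τ Y : ℝ} (hY : Y < 0)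
    (hα : α ^ 2 = (Y : ℂ)) (hPα : aeval α P = 0) (hTτ : aeval (τ : ℂ) T = 0)
    (hmem : (τ : ℂ) ∈ IntermediateField.adjoin ℚ {α}) : Irreducible P := by
  have hint : IsIntegral ℚ α := ⟨P, hP, by simpa [aeval_def] using hPα⟩
  have hintτ : IsIntegral ℚ (τ : ℂ) := ⟨T, hT, by simpa [aeval_def] using hTτ⟩
  have hmT : T = minpoly ℚ (τ : ℂ) := minpoly.eq_of_irreducible_of_monic hTi hTτ hT
  have hle : IntermediateField.adjoin ℚ {(τ : ℂ)} ≤ IntermediateField.adjoin ℚ {α} := by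
    rw [IntermediateField.adjoin_simple_le_iff]; exact hmem
  have h5 : Module.finrank ℚ (IntermediateField.adjoin ℚ {(τ : ℂ)}) = 5 := by
    rw [IntermediateField.adjoin.finrank hintτ, ← hmT, hTd]
  have hd : Module.finrank ℚ (IntermediateField.adjoin ℚ {α}) = (minpoly ℚ α).natDegree :=
    IntermediateField.adjoin.finrank hint
  have hdvd := IntermediateField.finrank_dvd_of_le_right hle
  rw [h5, hd] at hdvd
  have hmdvd : minpoly ℚ α ∣ P := minpoly.dvd ℚ α hPα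
  have hmonic := minpoly.monic hint
  have hle10 : (minpoly ℚ α).natDegree ≤ 10 := by
    rw [← hPd]; exact natDegree_le_of_dvd hmdvd hP.ne_zero
  have hpos : 0 < (minpoly ℚ α).natDegree := minpoly.natDegree_pos hint
  have hne5 : (minpoly ℚ α).natDegree ≠ 5 := by
    intro h
    have : FiniteDimensional ℚ (IntermediateField.adjoin ℚ {α}) :=
      IntermediateField.adjoin.finiteDimensional hint
    have heq : IntermediateField.adjoin ℚ {(τ : ℂ)} = IntermediateField.adjoin ℚ {α} :=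
      IntermediateField.eq_of_le_of_finrank_eq hle (by rw [h5, hd, h])
    have h1 : IntermediateField.adjoin ℚ {(τ : ℂ)} ≤ (IsScalarTower.toAlgHom ℚ ℝ ℂ).fieldRange := by
      rw [IntermediateField.adjoin_simple_le_iff]
      exact ⟨τ, rfl⟩
    have h2 : α ∈ (IsScalarTower.toAlgHom ℚ ℝ ℂ).fieldRange := by
      apply h1
      rw [heq]
      exact IntermediateField.mem_adjoin_simple_self ℚ α
    obtain ⟨r, hr⟩ := h2
    have h3 : (r : ℂ) = α := hr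
    rw [← h3] at hα
    have h4 : r ^ 2 = Y := by exact_mod_cast hα
    nlinarith [sq_nonneg r]
  have h10 : (minpoly ℚ α).natDegree = 10 := by
    obtain ⟨k, hk⟩ := hdvd
    omega
  have hPeq : minpoly ℚ α = P :=
    eq_of_monic_of_associated hmonic hP
      (associated_of_dvd_of_natDegree_le hmdvd hP.ne_zero (by rw [hPd, h10]))
  rw [← hPeq]
  exact minpoly.irreducible hint

theorem cub_field (a b : ℕ) (ha : 0 < a) (hb : 0 < b) (hab : a ≠ b)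
    (hT : Irreducible (X ^ 5 - X ^ 4 - 2 * X ^ 3 + 2 * X ^ 2
      - C (2 * (2 * (a : ℚ) * b / ((a : ℚ) ^ 2 + (b : ℚ) ^ 2)) ^ 2) : ℚ[X])) :
    N2f636d21.CuboidTwoFor (a : ℤ) (b : ℤ) := by
  unfold N2f636d21.CuboidTwoFor
  have haR : (0 : ℝ) < a := by exact_mod_cast ha
  have hbR : (0 : ℝ) < b := by exact_mod_cast hb
  have habR : (a : ℝ) ≠ b := by exact_mod_cast hab
  obtain ⟨Y, hY, hR⟩ := root_neg haR hbR habR
  have hτ := tau_root haR hbR habR hR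
  simp only at hτ
  set u : ℝ := ((a : ℝ) ^ 2 * (b : ℝ) ^ 2 - Y) / ((a : ℝ) ^ 2 * (b : ℝ) ^ 2 + Y) with hu
  set v : ℝ := ((b : ℝ) ^ 2 - (a : ℝ) ^ 2) / ((a : ℝ) ^ 2 + (b : ℝ) ^ 2) with hv
  set τ : ℝ := (2 * v ^ 2 - 1 - (u * v) ^ 2) / (1 - (u * v) ^ 2) with hτd
  -- the polynomial
  obtain ⟨c8, hc8⟩ : ∃ c8 : ℤ, c8 = (2 * (b : ℤ) ^ 2 + (a : ℤ) ^ 2) * (3 * (b : ℤ) ^ 2 - 2 * (a : ℤ) ^ 2) := ⟨_, rfl⟩
  obtain ⟨c6, hc6⟩ : ∃ c6 : ℤ, c6 = (b : ℤ) ^ 8 + 10 * (a : ℤ) ^ 2 * (b : ℤ) ^ 6 + 4 * (a : ℤ) ^ 4 * (b : ℤ) ^ 4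
    - 14 * (a : ℤ) ^ 6 * (b : ℤ) ^ 2 + (a : ℤ) ^ 8 := ⟨_, rfl⟩
  obtain ⟨c4, hc4⟩ : ∃ c4 : ℤ, c4 = (a : ℤ) ^ 2 * (b : ℤ) ^ 2 * ((b : ℤ) ^ 8 - 14 * (a : ℤ) ^ 2 * (b : ℤ) ^ 6
    + 4 * (a : ℤ) ^ 4 * (b : ℤ) ^ 4 + 10 * (a : ℤ) ^ 6 * (b : ℤ) ^ 2 + (a : ℤ) ^ 8) := ⟨_, rfl⟩
  obtain ⟨c2, hc2⟩ : ∃ c2 : ℤ, c2 = (a : ℤ) ^ 6 * (b : ℤ) ^ 6 * ((b : ℤ) ^ 2 + 2 * (a : ℤ) ^ 2)
    * (-2 * (b : ℤ) ^ 2 + 3 * (a : ℤ) ^ 2) := ⟨_, rfl⟩
  obtain ⟨c0, hc0⟩ : ∃ c0 : ℤ, c0 = (b : ℤ) ^ 10 * (a : ℤ) ^ 10 := ⟨_, rfl⟩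
  rw [← hc8, ← hc6, ← hc4, ← hc2, ← hc0]
  set Q : ℤ[X] := X ^ 10 + C c8 * X ^ 8 + C c6 * X ^ 6 - C c4 * X ^ 4 - C c2 * X ^ 2 - C c0 with hQ
  have hQm : Q.Monic := by
    rw [hQ]; monicity!
  have hQd : Q.natDegree = 10 := by
    rw [hQ]; compute_degree!
  rw [hQm.irreducible_iff_irreducible_map_fraction_map (K := ℚ)]
  obtain ⟨α, hα⟩ : ∃ α : ℂ, α ^ 2 = (Y : ℂ) := IsAlgClosed.exists_pow_nat_eq _ (by norm_num)
  obtain ⟨t, ht⟩ : ∃ t : ℚ, t = 2 * (2 * (a : ℚ) * b / ((a : ℚ) ^ 2 + (b : ℚ) ^ 2)) ^ 2 := ⟨_, rfl⟩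
  rw [← ht] at hT
  refine field_step (hQm.map _) (by rw [hQm.natDegree_map, hQd]) (T := X ^ 5 - X ^ 4 - 2 * X ^ 3 + 2 * X ^ 2 - C t)
    (by monicity!) (by compute_degree!) hT (α := α) (τ := τ) (Y := Y) hY hα ?_ ?_ ?_
  · have h1 : (Y : ℂ) ^ 5 + c8 * (Y : ℂ) ^ 4 + c6 * (Y : ℂ) ^ 3 - c4 * (Y : ℂ) ^ 2 - c2 * (Y : ℂ) - c0 = 0 := by
      rw [Rf] at hR
      rw [hc8, hc6, hc4, hc2, hc0]
      push_cast
      exact_mod_cast hR
    rw [hQ]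
    simp only [Polynomial.map_sub, Polynomial.map_add, Polynomial.map_mul, Polynomial.map_pow,
      Polynomial.map_X, Polynomial.map_C, map_sub, map_add, map_mul, map_pow, aeval_X, aeval_C]
    simp only [eq_intCast, map_intCast]
    have e10 : α ^ 10 = (Y : ℂ) ^ 5 := by rw [← hα]; ring
    have e8 : α ^ 8 = (Y : ℂ) ^ 4 := by rw [← hα]; ring
    have e6 : α ^ 6 = (Y : ℂ) ^ 3 := by rw [← hα]; ring
    have e4 : α ^ 4 = (Y : ℂ) ^ 2 := by rw [← hα]; ring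
    rw [e10, e8, e6, e4, hα]
    exact h1
  · simp only [map_sub, map_add, map_mul, map_pow, aeval_X, aeval_C, map_ofNat]
    have h2 : (algebraMap ℚ ℂ) t = ((2 * (2 * (a : ℝ) * b / ((a : ℝ) ^ 2 + (b : ℝ) ^ 2)) ^ 2 : ℝ) : ℂ) := by
      rw [ht]; push_cast; simp
    rw [h2]
    exact_mod_cast hτ
  · have hαm : α ∈ IntermediateField.adjoin ℚ {α} := IntermediateField.mem_adjoin_simple_self ℚ α
    have hYm : (Y : ℂ) ∈ IntermediateField.adjoin ℚ {α} := by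
      rw [← hα]; exact pow_mem hαm 2
    have ham : ((a : ℝ) : ℂ) ∈ IntermediateField.adjoin ℚ {α} := by
      rw [Complex.ofReal_natCast]; exact natCast_mem _ a
    have hbm : ((b : ℝ) : ℂ) ∈ IntermediateField.adjoin ℚ {α} := by
      rw [Complex.ofReal_natCast]; exact natCast_mem _ b
    have h2m : (2 : ℂ) ∈ IntermediateField.adjoin ℚ {α} := by
      exact_mod_cast natCast_mem (IntermediateField.adjoin ℚ {α}) 2
    have hum : (u : ℂ) ∈ IntermediateField.adjoin ℚ {α} := by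
      rw [hu]; push_cast
      push_cast at ham hbm
      exact div_mem (sub_mem (mul_mem (pow_mem ham 2) (pow_mem hbm 2)) hYm)
        (add_mem (mul_mem (pow_mem ham 2) (pow_mem hbm 2)) hYm)
    have hvm : (v : ℂ) ∈ IntermediateField.adjoin ℚ {α} := by
      rw [hv]; push_cast
      push_cast at ham hbm
      exact div_mem (sub_mem (pow_mem hbm 2) (pow_mem ham 2))
        (add_mem (pow_mem ham 2) (pow_mem hbm 2))
    rw [hτd]; push_cast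
    exact div_mem (sub_mem (sub_mem (mul_mem h2m (pow_mem hvm 2)) (one_mem _)) (pow_mem (mul_mem hum hvm) 2))
      (sub_mem (one_mem _) (pow_mem (mul_mem hum hvm) 2))

end Pool.Helper653.Cub
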