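import Pool.Agent.Helper653.CubGood

set_option linter.unnecessarySeqFocus false

namespace Pool.Helper653.Cub

lemma p_dvd_int (n : ℤ) : p ∣ (n : G) ↔ (2 : ℤ) ∣ n := by
  rw [p_dvd_iff]; simp

lemma int_form (s : ℤ) (hs : s ≠ 0) :
    ∃ (r : ℕ) (o : G), ¬ p ∣ o ∧ (s : G) = p ^ (2 * r) * o ∧ ((2 : ℤ) ∣ s → 1 ≤ r) := by
  have hi := i_sq
  have hp2 := p_sq
  obtain ⟨r, m, hm, hrm⟩ := Nat.exists_eq_two_pow_mul_odd (n := s.natAbs) (by simpa using hs)
  have h2 : (2 : G) = p ^ 2 * (-i) := by linear_combination i * hp2 + 2 * hi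
  have h2r : (2 : G) ^ r = p ^ (2 * r) * (-i) ^ r := by
    rw [h2, mul_pow, ← pow_mul]
  have hio : ¬ p ∣ (-i) ^ r := odd_pow (by rw [dvd_neg]; exact not_p_dvd_i) r
  have hmo : ¬ p ∣ ((m : ℤ) : G) := by
    rw [p_dvd_int]
    intro h
    obtain ⟨k, hk⟩ := hm
    omega
  have hr1 : (2 : ℤ) ∣ s → 1 ≤ r := by
    intro h2s
    by_contra hr
    have hr0 : r = 0 := by omega
    rw [hr0, pow_zero, one_mul] at hrm
    obtain ⟨k, hk⟩ := hm
    omega
  rcases Int.natAbs_eq s with h | h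
  · refine ⟨r, (-i) ^ r * ((m : ℤ) : G), odd_mul hio hmo, ?_, hr1⟩
    rw [h, hrm]
    push_cast
    rw [h2r]; ring
  · refine ⟨r, -((-i) ^ r * ((m : ℤ) : G)), ?_, ?_, hr1⟩
    · rw [dvd_neg]; exact odd_mul hio hmo
    · rw [h, hrm]
      push_cast
      rw [h2r]; ring

lemma isCoprime_cast {a c : ℤ} (h : IsCoprime a c) : IsCoprime (a : G) (c : G) := by
  obtain ⟨u, v, huv⟩ := h
  refine ⟨(u : G), (v : G), ?_⟩
  have := congrArg (Int.cast : ℤ → G) huv
  push_cast at this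
  exact this

/-- a odd -/
lemma gauss_odd {a c m n : ℤ} (ha : Odd a) (hc : Odd c) (hne : a ^ 2 ≠ c ^ 2)
    (hx : a ^ 4 - 2 * c ^ 4 = m ^ 2 - n ^ 2) (hy : 2 * a ^ 2 * (a ^ 2 - c ^ 2) = 2 * m * n) : False := by
  have hi := i_sq
  -- arithmetic of m, n
  obtain ⟨k, hk⟩ : ∃ k, a ^ 2 = 8 * k + 1 := by
    obtain ⟨b, rfl⟩ := ha
    obtain ⟨e, he⟩ := Int.even_mul_succ_self b
    exact ⟨e, by linear_combination 4 * he⟩
  obtain ⟨l, hl⟩ : ∃ l, c ^ 2 = 8 * l + 1 := by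
    obtain ⟨b, rfl⟩ := hc
    obtain ⟨e, he⟩ := Int.even_mul_succ_self b
    exact ⟨e, by linear_combination 4 * he⟩
  have hmn : m * n = 8 * (a ^ 2 * (k - l)) := by
    have : 2 * (m * n) = 2 * (8 * (a ^ 2 * (k - l))) := by
      rw [← mul_assoc, ← hy, hl]; rw [hk]; ring
    exact mul_left_cancel₀ (by norm_num) this
  have hx2 : m ^ 2 - n ^ 2 = 8 * (2 * k + 8 * k ^ 2 - 4 * l - 16 * l ^ 2) - 1 := by
    rw [← hx]
    have e1 : a ^ 4 = (a ^ 2) ^ 2 := by ring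
    have e2 : c ^ 4 = (c ^ 2) ^ 2 := by ring
    rw [e1, e2, hk, hl]; ring
  have hn : Odd n := by
    by_contra hn
    rw [Int.not_odd_iff_even] at hn
    obtain ⟨n', rfl⟩ := hn
    rcases Int.even_or_odd m with ⟨m', rfl⟩ | ⟨m', rfl⟩
    · have : (m' + m') ^ 2 - (n' + n') ^ 2 = 4 * (m' ^ 2 - n' ^ 2) := by ring
      omega
    · have : (2 * m' + 1) ^ 2 - (n' + n') ^ 2 = 4 * (m' ^ 2 + m' - n' ^ 2) + 1 := by ring
      omega
  have hm : (8 : ℤ) ∣ m := by
    have h8 : IsCoprime (8 : ℤ) n := by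
      obtain ⟨b, rfl⟩ := hn
      have : IsCoprime (2 : ℤ) (2 * b + 1) := ⟨-b, 1, by ring⟩
      have h2 := this.pow_left (m := 3)
      norm_num at h2
      exact h2
    exact h8.dvd_of_dvd_mul_right ⟨_, hmn⟩
  -- Gaussian part
  have hao : ¬ p ∣ (a : G) := by rw [p_dvd_int]; obtain ⟨b, rfl⟩ := ha; omega
  have hco : ¬ p ∣ (c : G) := by rw [p_dvd_int]; obtain ⟨b, rfl⟩ := hc; omega
  set Z : G := ⟨m, n⟩ with hZ
  have hZ2 : Z = (m : G) + i * (n : G) := by ext <;> simp [hZ]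
  have hxG : (a : G) ^ 4 - 2 * (c : G) ^ 4 = (m : G) ^ 2 - (n : G) ^ 2 := by exact_mod_cast congrArg (Int.cast : ℤ → G) hx
  have hyG : 2 * (a : G) ^ 2 * ((a : G) ^ 2 - (c : G) ^ 2) = 2 * (m : G) * (n : G) := by
    exact_mod_cast congrArg (Int.cast : ℤ → G) hy
  have hZsq : Z ^ 2 = (1 + 2 * i) * (a : G) ^ 4 - 2 * i * (a : G) ^ 2 * (c : G) ^ 2 - 2 * (c : G) ^ 4 := by
    rw [hZ2]
    linear_combination -hxG - i * hyG + (n : G) ^ 2 * hi
  have hkl : k - l ≠ 0 := by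
    intro h0
    apply hne
    rw [hk, hl]; linarith
  have hS : (a : G) ^ 2 - (c : G) ^ 2 = 2 * ((4 * (k - l) : ℤ) : G) := by
    have : a ^ 2 - c ^ 2 = 2 * (4 * (k - l)) := by rw [hk, hl]; ring
    exact_mod_cast congrArg (Int.cast : ℤ → G) this
  obtain ⟨r, o, ho, hso, hr⟩ := int_form (4 * (k - l)) (by omega)
  have hr1 := hr ⟨2 * (k - l), by ring⟩
  obtain ⟨r', rfl⟩ : ∃ r', r = r' + 1 := ⟨r - 1, by omega⟩
  set P := Z + i * (a : G) * (c : G) with hP
  set P' := Z + i * (a : G) * (-(c : G)) with hP'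
  have hprod : P * P' = 4 * (2 * ((k - l : ℤ) : G) * ((1 + 2 * i) * (a : G) ^ 2 + 2 * (c : G) ^ 2)) := by
    have h1 : P * P' = ((a : G) ^ 2 - (c : G) ^ 2) * ((1 + 2 * i) * (a : G) ^ 2 + 2 * (c : G) ^ 2) := by
      rw [hP, hP']
      linear_combination hZsq - ((a : G) ^ 2 * (c : G) ^ 2) * hi
    rw [h1, hS]; push_cast; ring
  obtain ⟨⟨P1, hP1⟩, ⟨P2, hP2⟩⟩ := halve (x := P) (y := P') ⟨_, hprod⟩
    ⟨i * (a : G) * (c : G), by rw [hP, hP']; ring⟩
  have hdiff : P1 - P2 = i * (a : G) * (c : G) := by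
    apply mul_left_cancel₀ two_ne
    linear_combination hP' - hP - hP1 + hP2
  have hodd : ¬ p ∣ P1 - P2 := by
    rw [hdiff]; exact odd_mul (odd_mul not_p_dvd_i hao) hco
  -- key: a good `Q` with `2 Q = Z + i * integer`
  have key : ∀ (Q : G) (b : ℤ), ¬ p ∣ Q → 2 * Q = Z + i * (b : G) →
      Good Q ((4 * (k - l) : ℤ) : G) → False := by
    intro Q b hQ hQZ hG
    obtain ⟨j, x, hx1, hx2⟩ := hG
    have him : x.im = 0 := by
      have h1 := congrArg Zsqrtd.im hx1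
      have h2 : (2 : G) ^ (j + 1) * x = ((2 ^ (j + 1) : ℤ) : G) * x := by push_cast; rfl
      rw [h2] at h1
      rw [Zsqrtd.im_smul, Zsqrtd.im_intCast] at h1
      rcases mul_eq_zero.1 h1.symm with h3 | h3
      · exact absurd h3 (by positivity)
      · exact h3
    have h1 := congrArg Zsqrtd.re hQZ
    simp [hZ] at h1
    rw [p_dvd_iff] at hQ
    obtain ⟨m', hm'⟩ := hm
    rcases hx2 with ⟨w, hw⟩ | ⟨w, hw⟩
    · have h2 := congrArg Zsqrtd.im hw
      simp at h2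
      omega
    · have h2 := congrArg Zsqrtd.im hw
      simp at h2
      omega
  have hpow : p ^ (2 * (r' + 1)) * o = p ^ (2 * r' + 1 + 1) * o := by ring
  by_cases hp1 : p ∣ P1
  · have hp2 : ¬ p ∣ P2 := fun hp2 => hodd (dvd_sub hp1 hp2)
    have hm1 := main_of_L3 (A := Z) (C := (a : G)) (D := -(c : G)) (by rw [hZsq]; ring)
    rw [← hP', hP2, neg_sq, hS] at hm1
    obtain ⟨n1, hn1⟩ := main_scale two_ne hm1
    rw [hso, hpow] at hn1
    have hG := star hp2 ho hn1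
    rw [← hpow, ← hso] at hG
    exact key P2 (a * (-c)) hp2 (by rw [← hP2, hP']; push_cast; ring) hG
  · have hm1 := main_of_L3 hZsq
    rw [← hP, hP1, hS] at hm1
    obtain ⟨n1, hn1⟩ := main_scale two_ne hm1
    rw [hso, hpow] at hn1
    have hG := star hp1 ho hn1
    rw [← hpow, ← hso] at hG
    exact key P1 (a * c) hp1 (by rw [← hP1, hP]; push_cast; ring) hG


/-- a even, `a = 2 a'` -/
lemma gauss_even {a' c m n : ℤ} (ha0 : a' ≠ 0) (hc : Odd c) (hac : IsCoprime (2 * a') c)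
    (hx : c ^ 4 - 8 * a' ^ 4 = m ^ 2 - n ^ 2) (hy : 4 * a' ^ 2 * (c ^ 2 - 4 * a' ^ 2) = 2 * m * n) :
    False := by
  have hi := i_sq
  have hp2 := p_sq
  have hp4 := p_four
  have hxG : (c : G) ^ 4 - 8 * (a' : G) ^ 4 = (m : G) ^ 2 - (n : G) ^ 2 := by
    exact_mod_cast congrArg (Int.cast : ℤ → G) hx
  have hyG : 4 * (a' : G) ^ 2 * ((c : G) ^ 2 - 4 * (a' : G) ^ 2) = 2 * (m : G) * (n : G) := by
    exact_mod_cast congrArg (Int.cast : ℤ → G) hy
  have hco : ¬ p ∣ (c : G) := by rw [p_dvd_int]; obtain ⟨b, rfl⟩ := hc; omega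
  obtain ⟨r, o, ho, hso, -⟩ := int_form a' ha0
  have hcop := isCoprime_cast hac
  have he : p ^ (2 * r + 1) * o = p * (a' : G) := by rw [hso]; ring
  refine L1 (N := (m : G) + i * (n : G)) r (c : G) o hco ho ?_ ?_
  · rw [he]
    refine hcop.symm.of_isCoprime_of_dvd_right ⟨1 - i, ?_⟩
    push_cast
    have := two_eq
    linear_combination (a' : G) * this
  · rw [he]
    linear_combination -hxG - i * hyG + (n : G) ^ 2 * hi - (2 * (c : G) ^ 2 * (a' : G) ^ 2) * hp2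
      - (2 * (1 + 2 * i) * (a' : G) ^ 4) * hp4

/-- The Diophantine core. -/
theorem gauss_main (a c d : ℤ) (ha : a ≠ 0) (hc : Odd c) (hac : IsCoprime a c)
    (h : d ^ 2 = 5 * a ^ 8 - 8 * a ^ 6 * c ^ 2 + 4 * c ^ 8) : a ^ 2 = c ^ 2 := by
  by_contra hne
  rcases Int.even_or_odd a with ha2 | ha2
  · obtain ⟨a', rfl⟩ := ha2
    have e1 : a' + a' = 2 * a' := by ring
    rw [e1] at ha hac h hne
    have hd : Even d := by
      by_contra hd
      rw [Int.not_even_iff_odd] at hd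
      have h1 : Odd (d ^ 2) := hd.pow
      rw [h] at h1
      have h2 : Even (5 * (2 * a') ^ 8 - 8 * (2 * a') ^ 6 * c ^ 2 + 4 * c ^ 8) :=
        ⟨5 * 2 ^ 7 * a' ^ 8 - 4 * (2 * a') ^ 6 * c ^ 2 + 2 * c ^ 8, by ring⟩
      exact (Int.not_even_iff_odd.2 h1) h2
    obtain ⟨d', rfl⟩ := hd
    have ha0 : a' ≠ 0 := by rintro rfl; simp at ha
    have hpy : PythagoreanTriple (c ^ 4 - 8 * a' ^ 4) (4 * a' ^ 2 * (c ^ 2 - 4 * a' ^ 2)) d' := by
      rw [PythagoreanTriple]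
      have : 4 * (d' * d') = 4 * ((c ^ 4 - 8 * a' ^ 4) * (c ^ 4 - 8 * a' ^ 4) +
        4 * a' ^ 2 * (c ^ 2 - 4 * a' ^ 2) * (4 * a' ^ 2 * (c ^ 2 - 4 * a' ^ 2))) := by
        linear_combination h
      exact (mul_left_cancel₀ (by norm_num) this).symm
    have hgcd : IsCoprime (c ^ 4 - 8 * a' ^ 4) (4 * a' ^ 2 * (c ^ 2 - 4 * a' ^ 2)) := by
      apply isCoprime_of_prime_dvd
      · rintro ⟨h1, -⟩
        obtain ⟨b, rfl⟩ := hc
        have : (2 * b + 1) ^ 4 - 8 * a' ^ 4 = 2 * (8 * b ^ 4 + 16 * b ^ 3 + 12 * b ^ 2 + 4 * b - 4 * a' ^ 4) + 1 := by ring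
        omega
      · intro q hq h1 h2
        have hqa : q ∣ c → q ∣ 2 * a' → False := fun h3 h4 => hq.not_isUnit (hac.isUnit_of_dvd' h4 h3)
        have hq2 : ¬ q ∣ 2 := by
          intro h3
          have h4 : q ∣ c ^ 4 := by
            have : c ^ 4 = (c ^ 4 - 8 * a' ^ 4) + 2 * (4 * a' ^ 4) := by ring
            rw [this]
            exact dvd_add h1 (h3.mul_right _)
          exact hqa (hq.dvd_of_dvd_pow h4) (h3.mul_right _)
        have hq4 : ¬ q ∣ 4 := by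
          intro h3
          have : (4 : ℤ) = 2 * 2 := by norm_num
          rw [this] at h3
          rcases hq.dvd_or_dvd h3 with h4 | h4 <;> exact hq2 h4
        have hqa' : ¬ q ∣ a' := by
          intro h3
          have h4 : q ∣ c ^ 4 := by
            have : c ^ 4 = (c ^ 4 - 8 * a' ^ 4) + a' * (8 * a' ^ 3) := by ring
            rw [this]
            exact dvd_add h1 (h3.mul_right _)
          exact hqa (hq.dvd_of_dvd_pow h4) (h3.mul_left _)
        rcases hq.dvd_or_dvd h2 with h3 | h3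
        · rcases hq.dvd_or_dvd h3 with h4 | h4
          · exact hq4 h4
          · exact hqa' (hq.dvd_of_dvd_pow h4)
        · -- q ∣ c^2 - 4 a'^2, so q ∣ 8 a'^4
          have h4 : q ∣ 8 * a' ^ 4 := by
            have : 8 * a' ^ 4 = (c ^ 4 - 8 * a' ^ 4) - (c ^ 2 - 4 * a' ^ 2) * (c ^ 2 + 4 * a' ^ 2) := by ring
            rw [this]
            exact dvd_sub h1 (h3.mul_right _)
          rcases hq.dvd_or_dvd h4 with h5 | h5
          · have : (8 : ℤ) = 2 * 4 := by norm_num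
            rw [this] at h5
            rcases hq.dvd_or_dvd h5 with h6 | h6
            · exact hq2 h6
            · exact hq4 h6
          · exact hqa' (hq.dvd_of_dvd_pow h5)
    obtain ⟨m, n, hmn, -, -, -⟩ := PythagoreanTriple.coprime_classification.1
      ⟨hpy, Int.isCoprime_iff_gcd_eq_one.1 hgcd⟩
    rcases hmn with ⟨h1, h2⟩ | ⟨h1, h2⟩
    · exact gauss_even ha0 hc hac h1 h2
    · obtain ⟨b, rfl⟩ := hc
      have : (2 * b + 1) ^ 4 - 8 * a' ^ 4 = 2 * (8 * b ^ 4 + 16 * b ^ 3 + 12 * b ^ 2 + 4 * b - 4 * a' ^ 4) + 1 := by ring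
      have h3 : 2 * m * n = 2 * (m * n) := by ring
      omega
  · have hpy : PythagoreanTriple (a ^ 4 - 2 * c ^ 4) (2 * a ^ 2 * (a ^ 2 - c ^ 2)) d := by
      rw [PythagoreanTriple]
      linear_combination -h
    have hgcd : IsCoprime (a ^ 4 - 2 * c ^ 4) (2 * a ^ 2 * (a ^ 2 - c ^ 2)) := by
      apply isCoprime_of_prime_dvd
      · rintro ⟨h1, -⟩
        obtain ⟨b, rfl⟩ := ha2
        have : (2 * b + 1) ^ 4 - 2 * c ^ 4 = 2 * (8 * b ^ 4 + 16 * b ^ 3 + 12 * b ^ 2 + 4 * b - c ^ 4) + 1 := by ring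
        omega
      · intro q hq h1 h2
        have hqa : q ∣ a → q ∣ c → False := fun h3 h4 => hq.not_isUnit (hac.isUnit_of_dvd' h3 h4)
        have hq2 : ¬ q ∣ 2 := by
          intro h3
          have h4 : q ∣ a ^ 4 := by
            have : a ^ 4 = (a ^ 4 - 2 * c ^ 4) + 2 * c ^ 4 := by ring
            rw [this]
            exact dvd_add h1 (h3.mul_right _)
          have h5 : q ∣ a := hq.dvd_of_dvd_pow h4
          obtain ⟨b, rfl⟩ := ha2
          have h6 : q ∣ 1 := by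
            have : (1 : ℤ) = (2 * b + 1) - 2 * b := by ring
            rw [this]
            exact dvd_sub h5 (h3.mul_right _)
          exact hq.not_isUnit (isUnit_of_dvd_one h6)
        have hqa' : ¬ q ∣ a := by
          intro h3
          have h4 : q ∣ 2 * c ^ 4 := by
            have : 2 * c ^ 4 = a * a ^ 3 - (a ^ 4 - 2 * c ^ 4) := by ring
            rw [this]
            exact dvd_sub (h3.mul_right _) h1
          rcases hq.dvd_or_dvd h4 with h5 | h5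
          · exact hq2 h5
          · exact hqa h3 (hq.dvd_of_dvd_pow h5)
        rcases hq.dvd_or_dvd h2 with h3 | h3
        · rcases hq.dvd_or_dvd h3 with h4 | h4
          · exact hq2 h4
          · exact hqa' (hq.dvd_of_dvd_pow h4)
        · -- q ∣ a^2 - c^2, so q ∣ c^4 + ... 
          have h4 : q ∣ a ^ 4 := by
            have : a ^ 4 = 2 * ((a ^ 2 - c ^ 2) * (a ^ 2 + c ^ 2)) - (a ^ 4 - 2 * c ^ 4) := by ring
            rw [this]
            exact dvd_sub ((h3.mul_right _).mul_left _) h1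
          exact hqa' (hq.dvd_of_dvd_pow h4)
    obtain ⟨m, n, hmn, -, -, -⟩ := PythagoreanTriple.coprime_classification.1
      ⟨hpy, Int.isCoprime_iff_gcd_eq_one.1 hgcd⟩
    rcases hmn with ⟨h1, h2⟩ | ⟨h1, h2⟩
    · exact gauss_odd ha2 hc hne h1 h2
    · obtain ⟨b, rfl⟩ := ha2
      have : (2 * b + 1) ^ 4 - 2 * c ^ 4 = 2 * (8 * b ^ 4 + 16 * b ^ 3 + 12 * b ^ 2 + 4 * b - c ^ 4) + 1 := by ring
      have h3 : 2 * m * n = 2 * (m * n) := by ring
      omega

end Pool.Helper653.Cub
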