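import Pool.Agent.Helper653.CubStar

set_option linter.unnecessarySeqFocus false

namespace Pool.Helper653.Cub

/-- direction condition -/
def Good (M e : G) : Prop :=
  ∃ (j : ℕ) (x : G), e = 2 ^ (j + 1) * x ∧ ((4 : G) ∣ x - (2 + i) * M ∨ (4 : G) ∣ x + (2 + i) * M)

lemma dvd4 {z : G} (h1 : z.re % 4 = 0) (h2 : z.im % 4 = 0) : (4 : G) ∣ z := by
  refine ⟨⟨z.re / 4, z.im / 4⟩, ?_⟩
  ext
  · simp; omega
  · simp; omega

lemma good_of_kappa {κ M e : G} (hκ : κ = 1 ∨ κ = i) (h : Good (κ * M) (κ * e)) : Good M e := by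
  have hi := i_sq
  rcases hκ with rfl | rfl
  · simpa using h
  · obtain ⟨j, x, hx, h⟩ := h
    refine ⟨j, -i * x, ?_, ?_⟩
    · linear_combination (-i) * hx + e * hi
    · rcases h with ⟨w, hw⟩ | ⟨w, hw⟩
      · left; refine ⟨-i * w, ?_⟩
        linear_combination (-i) * hw - ((2 + i) * M) * hi
      · right; refine ⟨-i * w, ?_⟩
        linear_combination (-i) * hw + ((2 + i) * M) * hi

lemma units_pair {u v : G} (h : u * v = 1) :
    (u = 1 ∧ v = 1) ∨ (u = -1 ∧ v = -1) ∨ (u = i ∧ v = -i) ∨ (u = -i ∧ v = i) := by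
  have hi := i_sq
  rcases unit_cases (IsUnit.of_mul_eq_one _ h) with rfl | rfl | rfl | rfl
  · left; exact ⟨rfl, by simpa using h⟩
  · right; left; exact ⟨rfl, by linear_combination -h⟩
  · right; right; left; exact ⟨rfl, by linear_combination (-i) * h + v * hi⟩
  · right; right; right; exact ⟨rfl, by linear_combination i * h + v * hi⟩

lemma p_dvd_of_even {t : G} (h : (t.re + t.im) % 2 = 0) : p ∣ t := by
  rw [p_dvd_iff]; omega

/-- valuation 2 -/
lemma base2 {M e' N : G} (hM : ¬ p ∣ M) (he : ¬ p ∣ e') (hc : IsCoprime M (p ^ 2 * e'))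
    (h : Main N M (p ^ 2 * e')) : Good M (p ^ 2 * e') := by
  have hi := i_sq
  have hp2 := p_sq
  have hp4 := p_four
  obtain ⟨κ, A, u, v, C, D, hκ, hA, huv, hC, hD, hcCD, h1, h2, h3⟩ := st_step (n := 0) hM he hc h
  rw [pow_zero, one_mul] at h1 h2 h3
  apply good_of_kappa hκ
  obtain ⟨s, t, hs, hAs⟩ := sq_odd' hA
  obtain ⟨s', t', hs', hCDs⟩ := sq_odd' (odd_mul hC hD)
  obtain ⟨c, hc4⟩ := four_odd hC
  obtain ⟨d, hd4⟩ := four_odd hD
  rcases h3 with h3 | h3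
  · exfalso
    have h4 : u * (1 + 8 * p * c) - 2 * v * (1 + 2 * i) * (1 + 8 * p * d)
      = (s + 4 * p * t) - 2 * i * (s' + 4 * p * t') := by
      rw [← hc4, ← hd4, ← hAs, ← hCDs, h3]; ring
    have h8 := congrArg Zsqrtd.re h4
    have h9 := congrArg Zsqrtd.im h4
    rcases units_pair huv with ⟨rfl, rfl⟩ | ⟨rfl, rfl⟩ | ⟨rfl, rfl⟩ | ⟨rfl, rfl⟩ <;>
      rcases hs with rfl | rfl <;> rcases hs' with rfl | rfl <;> simp at h8 h9 <;> omega
  · have h4 : u * (1 + 2 * i) * (1 + 8 * p * c) - 2 * v * (1 + 8 * p * d)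
      = (s + 4 * p * t) - 2 * i * (s' + 4 * p * t') := by
      rw [← hc4, ← hd4, ← hAs, ← hCDs, h3]; ring
    have h8 := congrArg Zsqrtd.re h4
    have h9 := congrArg Zsqrtd.im h4
    -- square of i A C D is -1 mod 8
    have hx : ∃ W, (i * A * C * D) ^ 2 = -1 + 8 * W := by
      rcases units_pair huv with ⟨rfl, rfl⟩ | ⟨rfl, rfl⟩ | ⟨rfl, rfl⟩ | ⟨rfl, rfl⟩
      · have hst : s = -1 ∧ s' = -1 ∧ (t.re + t.im) % 2 = 0 := by
          rcases hs with rfl | rfl <;> rcases hs' with rfl | rfl <;> simp at h8 h9 <;>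
            first | (exfalso; omega) | (refine ⟨rfl, rfl, ?_⟩; omega)
        obtain ⟨rfl, rfl, ht⟩ := hst
        obtain ⟨t3, rfl⟩ := p_dvd_of_even ht
        obtain ⟨t4, ht4⟩ := L3 (A := A) (C := C) (D := i * D) (t := -t') hC (odd_mul not_p_dvd_i hD)
          (by linear_combination (-1 : G) * h3 + (2 * i * C ^ 2 * D ^ 2) * hi + (2 * D ^ 4) * i_four)
          (by linear_combination (-1 : G) * hCDs + (C ^ 2 * D ^ 2) * hi)
        refine ⟨-t4 + i * t3 + 8 * i * t3 * t4, ?_⟩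
        have e1 : (i * A * C * D) ^ 2 = A ^ 2 * (C * (i * D)) ^ 2 := by ring
        rw [e1, ht4, hAs]
        linear_combination (4 * t3 * (1 + 8 * t4)) * hp2
      · have hst : s = 1 ∧ s' = 1 ∧ (t.re + t.im) % 2 = 0 := by
          rcases hs with rfl | rfl <;> rcases hs' with rfl | rfl <;> simp at h8 h9 <;>
            first | (exfalso; omega) | (refine ⟨rfl, rfl, ?_⟩; omega)
        obtain ⟨rfl, rfl, ht⟩ := hst
        obtain ⟨t3, rfl⟩ := p_dvd_of_even ht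
        obtain ⟨t4, ht4⟩ := L3 (A := i * A) (C := C) (D := D) (t := t') hC hD
          (by linear_combination h3 + A ^ 2 * hi)
          hCDs
        refine ⟨-t4 - i * t3 - 8 * i * t3 * t4, ?_⟩
        have e1 : (i * A * C * D) ^ 2 = i ^ 2 * A ^ 2 * (C * D) ^ 2 := by ring
        rw [e1, ht4, hAs, hi]
        linear_combination (-4 * t3 * (1 + 8 * t4)) * hp2
      · exfalso
        rcases hs with rfl | rfl <;> rcases hs' with rfl | rfl <;> simp at h8 h9 <;> omega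
      · exfalso
        rcases hs with rfl | rfl <;> rcases hs' with rfl | rfl <;> simp at h8 h9 <;> omega
    have hM2 : ∃ W, (κ * M) ^ 2 = 5 + 4 * i + 8 * W := by
      obtain ⟨a, ha4⟩ := four_odd hA
      obtain ⟨m, hm4⟩ := four_odd (odd_mul hC hD)
      obtain ⟨s2, t2, hs2, hACD⟩ := sq_odd' (odd_mul hA (odd_mul hC hD))
      have e1 : (κ * M) ^ 2 = A ^ 4 - 4 * i * (A * (C * D)) ^ 2 + 4 * (1 + 4 * i) * (C * D) ^ 4 := by
        rw [h2]
        linear_combination (-2 * A ^ 2 * (C * D) ^ 2) * hp2 - ((1 + 4 * i) * (C * D) ^ 4) * hp4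
      rw [ha4, hm4, hACD] at e1
      rcases hs2 with rfl | rfl
      · exact ⟨p * a - i * (1 + 2 * p * t2) + 4 * (1 + 4 * i) * p * m + 2 * i, by rw [e1]; ring⟩
      · exact ⟨p * a - i * (2 * p * t2) + 4 * (1 + 4 * i) * p * m + 2 * i, by rw [e1]; ring⟩
    obtain ⟨W, hW⟩ := hx
    obtain ⟨W', hW'⟩ := hM2
    obtain ⟨q1, q2⟩ := sqrt_neg1 hW
    obtain ⟨q3, q4⟩ := sqrt_54 hW'
    refine ⟨0, i * A * C * D, by rw [h1]; ring, ?_⟩
    set x := i * A * C * D
    set m := κ * M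
    have hcase : (x.im - m.re) % 4 = 0 ∨ (x.im + m.re) % 4 = 0 := by omega
    rcases hcase with hcase | hcase
    · left
      apply dvd4
      · simp; omega
      · simp; omega
    · right
      apply dvd4
      · simp; omega
      · simp; omega


lemma sqrt_one' {z W : G} (h : z ^ 2 = 1 + 8 * W) : ∃ s w : G, (s = 1 ∨ s = -1) ∧ z = s + 4 * w := by
  obtain ⟨h1, h2⟩ := sqrt_one h
  have h3 : z.re % 4 = 1 ∨ z.re % 4 = 3 := by omega
  rcases h3 with h3 | h3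
  · refine ⟨1, ⟨(z.re - 1) / 4, z.im / 4⟩, Or.inl rfl, ?_⟩
    ext <;> simp <;> omega
  · refine ⟨-1, ⟨(z.re + 1) / 4, z.im / 4⟩, Or.inr rfl, ?_⟩
    ext <;> simp <;> omega

/-- inductive step of `star_cop` -/
lemma star_step {n : ℕ} {M e' N : G} (hM : ¬ p ∣ M) (he : ¬ p ∣ e')
    (hc : IsCoprime M (p ^ (n + 4) * e')) (h : Main N M (p ^ (n + 4) * e'))
    (ih : ∀ M e' N : G, ¬ p ∣ M → ¬ p ∣ e' → IsCoprime M (p ^ (n + 2) * e') →
      Main N M (p ^ (n + 2) * e') → Good M (p ^ (n + 2) * e')) :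
    Good M (p ^ (n + 4) * e') := by
  have hi := i_sq
  have hi4 := i_four
  have hp2 := p_sq
  have hp4 := p_four
  obtain ⟨κ, A, u, v, C, D, hκ, hA, huv, hC, hD, hcCD, h1, h2, h3⟩ := st_step (n := n + 2) hM he hc h
  apply good_of_kappa hκ
  have hu : IsUnit u := IsUnit.of_mul_eq_one _ huv
  obtain ⟨s, t, hs, hAs⟩ := sq_odd' hA
  obtain ⟨s', t', hs', hCs⟩ := sq_odd' hC
  obtain ⟨c, hc4⟩ := four_odd hC
  obtain ⟨a, ha4⟩ := four_odd hA
  -- D = p^2 * D2
  obtain ⟨D2, hD2⟩ : ∃ D2, p ^ (n + 2) * D = p ^ 2 * D2 := ⟨p ^ n * D, by ring⟩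
  have hDsq : (p ^ (n + 2) * D) ^ 2 = -4 * D2 ^ 2 := by
    rw [hD2]; linear_combination D2 ^ 2 * hp4
  have hDf : (p ^ (n + 2) * D) ^ 4 = 16 * D2 ^ 4 := by
    have : (p ^ (n + 2) * D) ^ 4 = ((p ^ (n + 2) * D) ^ 2) ^ 2 := by ring
    rw [this, hDsq]; ring
  -- (κ M)^2 = 1 + 8 W
  have hM1 : ∃ W, (κ * M) ^ 2 = 1 + 8 * W := by
    refine ⟨p * a + 2 * i * A ^ 2 * C ^ 2 * D2 ^ 2 + 8 * (1 + 4 * i) * C ^ 4 * D2 ^ 4, ?_⟩
    rw [h2]
    have e1 : (p * (C * (p ^ (n + 2) * D))) ^ 2 = p ^ 2 * C ^ 2 * (p ^ (n + 2) * D) ^ 2 := by ring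
    have e2 : (p * (C * (p ^ (n + 2) * D))) ^ 4 = p ^ 4 * C ^ 4 * (p ^ (n + 2) * D) ^ 4 := by ring
    rw [e1, e2, hDsq, hDf, ha4]
    linear_combination (8 * A ^ 2 * C ^ 2 * D2 ^ 2) * hp2 - (16 * (1 + 4 * i) * C ^ 4 * D2 ^ 4) * hp4
  rcases h3 with h3 | h3
  · have h6 : u = s := by
      apply unit_mod4 hu hs (W := p * t - 2 * u * p * c + 8 * v * (1 + 2 * i) * D2 ^ 4 + 2 * i * C ^ 2 * D2 ^ 2)
      rw [hDsq, hDf, hc4, hAs] at h3
      linear_combination h3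
    have h7 : v = s := by
      rw [h6] at huv
      rcases hs with rfl | rfl
      · simpa using huv
      · linear_combination -huv
    -- find N0 and E
    obtain ⟨N0, E', hE', hmain, hke⟩ : ∃ N0 E' : G, ¬ p ∣ E' ∧ Main N0 C (p ^ (n + 2) * E') ∧
        IsCoprime C (p ^ (n + 2) * E') ∧
        κ * (p ^ (n + 4) * e') = 2 * (N0 * C * (p ^ (n + 2) * E')) ∧
        ∃ E2, p ^ (n + 2) * E' = p ^ 2 * E2 := by
      rcases hs with rfl | rfl
      · refine ⟨A, i * D, odd_mul not_p_dvd_i hD, ?_, ?_, ?_, ⟨p ^ n * (i * D), by ring⟩⟩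
        · rw [Main]
          rw [h6, h7] at h3
          have e1 : (p ^ (n + 2) * (i * D)) ^ 2 = i ^ 2 * (p ^ (n + 2) * D) ^ 2 := by ring
          have e2 : (p ^ (n + 2) * (i * D)) ^ 4 = i ^ 4 * (p ^ (n + 2) * D) ^ 4 := by ring
          rw [e1, e2, hi, hi4]
          linear_combination -h3
        · have : p ^ (n + 2) * (i * D) = i * (p ^ (n + 2) * D) := by ring
          rw [this]
          exact (isCoprime_mul_unit_left_right unit_i _ _).2 hcCD
        · have e3 : p ^ (n + 2 + 2) = p ^ (n + 4) := by ring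
          rw [e3] at h1
          rw [h1]; ring
      · refine ⟨i * A, D, hD, ?_, hcCD, ?_, ⟨p ^ n * D, by ring⟩⟩
        · rw [Main]
          rw [h6, h7] at h3
          linear_combination h3 + A ^ 2 * hi
        · have e3 : p ^ (n + 2 + 2) = p ^ (n + 4) := by ring
          rw [e3] at h1
          rw [h1]; ring
    obtain ⟨hcE, hke, E2, hE2⟩ := hke
    obtain ⟨j, x, hx, hgood⟩ := ih C E' N0 hC hE' hcE hmain
    have hEsq : (p ^ (n + 2) * E') ^ 2 = -4 * E2 ^ 2 := by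
      rw [hE2]; linear_combination E2 ^ 2 * hp4
    have hEf : (p ^ (n + 2) * E') ^ 4 = 16 * E2 ^ 4 := by
      have : (p ^ (n + 2) * E') ^ 4 = ((p ^ (n + 2) * E') ^ 2) ^ 2 := by ring
      rw [this, hEsq]; ring
    have hN1 : ∃ W, N0 ^ 2 = 1 + 8 * W := by
      rw [Main, hEsq, hEf, hc4] at hmain
      exact ⟨p * c + i * C ^ 2 * E2 ^ 2 - 4 * (1 + 2 * i) * E2 ^ 4, by rw [hmain]; ring⟩
    obtain ⟨W1, hW1⟩ := hN1
    obtain ⟨W2, hW2⟩ := hM1
    obtain ⟨s1, w1, hs1, hN0⟩ := sqrt_one' hW1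
    obtain ⟨s3, w3, hs3, hM0⟩ := sqrt_one' hW2
    refine ⟨j + 1, N0 * C * x, ?_, ?_⟩
    · rw [hke, hx]; ring
    · rw [hM0]
      have key : ∃ σ w : G, (σ = 1 ∨ σ = -1) ∧ x = σ * (2 + i) * C + 4 * w := by
        rcases hgood with ⟨w, hw⟩ | ⟨w, hw⟩
        · exact ⟨1, w, Or.inl rfl, by linear_combination hw⟩
        · exact ⟨-1, w, Or.inr rfl, by linear_combination hw⟩
      obtain ⟨σ, w, hσ, hxw⟩ := key
      have hprod : N0 * C * x = σ * s1 * s' * (2 + i)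
          + 4 * (σ * w1 * (2 + i) * (s' + 4 * p * t') + σ * s1 * (2 + i) * p * t' + N0 * C * w) := by
        rw [hxw]
        have : N0 * C * (σ * (2 + i) * C + 4 * w) = N0 * σ * (2 + i) * C ^ 2 + 4 * (N0 * C * w) := by ring
        rw [this, hCs, hN0]; ring
      set W3 := σ * w1 * (2 + i) * (s' + 4 * p * t') + σ * s1 * (2 + i) * p * t' + N0 * C * w
      rw [hprod]
      rcases hσ with rfl | rfl <;> rcases hs1 with rfl | rfl <;> rcases hs' with rfl | rfl <;>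
        rcases hs3 with rfl | rfl <;>
        first
        | (refine Or.inl ⟨W3 - (2 + i) * w3, ?_⟩; ring1)
        | (refine Or.inr ⟨W3 + (2 + i) * w3, ?_⟩; ring1)
  · exfalso
    rw [hDsq, hDf, hc4, hAs] at h3
    apply unit_mod4' hu hs (W := p * t + 8 * v * D2 ^ 4 + 2 * i * C ^ 2 * D2 ^ 2 - 2 * u * (1 + 2 * i) * p * c)
    linear_combination h3

theorem star_cop (k : ℕ) : ∀ M e' N : G, ¬ p ∣ M → ¬ p ∣ e' → IsCoprime M (p ^ (k + 1) * e') →
    Main N M (p ^ (k + 1) * e') → Good M (p ^ (k + 1) * e') := by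
  induction k using Nat.strong_induction_on with
  | _ k ih =>
    intro M e' N hM he hc h
    match k, ih with
    | 0, _ =>
      exfalso
      rw [zero_add, pow_one] at h
      exact K1 hM he h
    | 1, _ => exact base2 hM he hc h
    | 2, _ => exact (K3 hM he hc h).elim
    | n + 3, ih => exact star_step hM he hc h (ih (n + 1) (by omega))

lemma good_scale {g m e : G} (h : Good m e) : Good (g * m) (g * e) := by
  obtain ⟨j, x, hx, h⟩ := h
  refine ⟨j, g * x, by rw [hx]; ring, ?_⟩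
  rcases h with ⟨w, hw⟩ | ⟨w, hw⟩
  · left; exact ⟨g * w, by linear_combination g * hw⟩
  · right; exact ⟨g * w, by linear_combination g * hw⟩

/-- The main direction theorem. -/
theorem star {k : ℕ} {M e' N : G} (hM : ¬ p ∣ M) (he : ¬ p ∣ e')
    (h : Main N M (p ^ (k + 1) * e')) : Good M (p ^ (k + 1) * e') := by
  obtain ⟨g, m, e'', hg, h1, h2, hc⟩ := gcd_split M (p ^ (k + 1) * e') (ne_zero_of_odd hM)
  have hgo : ¬ p ∣ g := fun h3 => hM (by rw [h1]; exact h3.mul_right m)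
  have hmo : ¬ p ∣ m := fun h3 => hM (by rw [h1]; exact h3.mul_left g)
  have h3 : p ^ (k + 1) ∣ g * e'' := ⟨e', by rw [← h2]⟩
  obtain ⟨e0, rfl⟩ := p_dvd_of_p_sq_dvd_mul hgo h3
  have h4 : e' = g * e0 := by
    apply mul_left_cancel₀ (pow_ne_zero (k + 1) p_ne_zero)
    linear_combination h2
  have he0 : ¬ p ∣ e0 := fun h5 => he (by rw [h4]; exact h5.mul_left g)
  rw [h1, h2] at h
  obtain ⟨n, hn⟩ := main_scale hg h
  rw [h1, h2]
  exact good_scale (star_cop k m e0 n hmo he0 hc hn)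

end Pool.Helper653.Cub
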