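import Mathlib

namespace CubQuad

/-- A natural number all of whose odd prime valuations are even is a square or twice a square. -/
lemma sq_or_two_sq (n : ℕ) (hn : n ≠ 0)
    (h : ∀ p : ℕ, p.Prime → p ≠ 2 → Even (padicValNat p n)) :
    ∃ k : ℕ, n = k ^ 2 ∨ n = 2 * k ^ 2 := by
  obtain ⟨a, b, hab, ha⟩ := Nat.sq_mul_squarefree n
  have ha0 : a ≠ 0 := ha.ne_zero
  have hb0 : b ≠ 0 := by
    rintro rfl
    apply hn
    rw [← hab]
    simp
  have hpf : ∀ p ∈ a.primeFactors, p = 2 := by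
    intro p hp
    by_contra h2
    have hpp : p.Prime := Nat.prime_of_mem_primeFactors hp
    have : Fact p.Prime := ⟨hpp⟩
    have hpa : p ∣ a := Nat.dvd_of_mem_primeFactors hp
    have h1 := h p hpp h2
    rw [← hab, padicValNat.mul (pow_ne_zero 2 hb0) ha0, padicValNat.pow] at h1
    have hva : padicValNat p a = 1 := by
      have h3 : 1 ≤ padicValNat p a := one_le_padicValNat_of_dvd ha0 hpa
      have h4 : padicValNat p a ≤ 1 := by
        by_contra hcon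
        push Not at hcon
        have h5 : p ^ 2 ∣ a := (padicValNat_dvd_iff_le ha0).mpr hcon
        have h6 := ha p (by rw [← sq]; exact h5)
        exact hpp.one_lt.ne' (Nat.isUnit_iff.mp h6)
      omega
    rw [hva] at h1
    obtain ⟨r, hr⟩ := h1
    omega
  have hprod := Nat.prod_primeFactors_of_squarefree ha
  have hsub : a.primeFactors ⊆ {2} := by
    intro p hp
    simp [hpf p hp]
  rcases Finset.subset_singleton_iff.mp hsub with he | he
  · rw [he] at hprod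
    simp at hprod
    refine ⟨b, Or.inl ?_⟩
    rw [← hab, ← hprod]
    ring
  · rw [he] at hprod
    simp at hprod
    refine ⟨b, Or.inr ?_⟩
    rw [← hab, ← hprod]
    ring

/-- odd valuations of `al` are even -/
lemma even_val (al g D1 W : ℤ) (hal : al ≠ 0) (hD : D1 ≠ 0) (hco : IsCoprime al g)
    (hW : W ^ 2 = 2 * al * D1)
    (h6 : D1 * (D1 + al ^ 2 + 2 * g ^ 2) = al ^ 2 * (al ^ 2 + 2 * al * g - g ^ 2))
    (p : ℕ) (hp : p.Prime) (h2 : p ≠ 2) : Even (padicValInt p al) := by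
  have : Fact p.Prime := ⟨hp⟩
  have hpI : Prime (p : ℤ) := Nat.prime_iff_prime_int.mp hp
  have hW0 : W ≠ 0 := by
    rintro rfl
    have : 2 * al * D1 ≠ 0 := by positivity
    apply this
    rw [← hW]; ring
  have hv2 : padicValInt p 2 = 0 := by
    apply padicValInt.eq_zero_of_not_dvd
    intro hd
    have : p ∣ 2 := by exact_mod_cast hd
    have := (Nat.prime_dvd_prime_iff_eq hp Nat.prime_two).mp this
    exact h2 this
  have hval : 2 * padicValInt p W = padicValInt p al + padicValInt p D1 := by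
    have h1 : padicValInt p (W ^ 2) = padicValInt p (2 * al * D1) := by rw [hW]
    rw [sq, padicValInt.mul hW0 hW0, padicValInt.mul (by positivity) hD,
      padicValInt.mul (by norm_num) hal, hv2] at h1
    omega
  by_cases hpal : (p : ℤ) ∣ al
  · have hpg : ¬ (p : ℤ) ∣ g := by
      intro hd
      exact hpI.not_isUnit (hco.isUnit_of_dvd' hpal hd)
    by_cases hpD : (p : ℤ) ∣ D1
    · -- v D1 = 2 v al
      have hU : ¬ (p : ℤ) ∣ (D1 + al ^ 2 + 2 * g ^ 2) := by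
        intro hd
        have h3 : (p : ℤ) ∣ 2 * g ^ 2 := by
          have := dvd_sub hd (dvd_add hpD (dvd_pow hpal (two_ne_zero)))
          have he : D1 + al ^ 2 + 2 * g ^ 2 - (D1 + al ^ 2) = 2 * g ^ 2 := by ring
          rwa [he] at this
        rcases hpI.dvd_or_dvd h3 with h4 | h4
        · have : p ∣ 2 := by exact_mod_cast h4
          exact h2 ((Nat.prime_dvd_prime_iff_eq hp Nat.prime_two).mp this)
        · exact hpg (hpI.dvd_of_dvd_pow h4)
      have hV : ¬ (p : ℤ) ∣ (al ^ 2 + 2 * al * g - g ^ 2) := by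
        intro hd
        have h3 : (p : ℤ) ∣ g ^ 2 := by
          have h4 : (p : ℤ) ∣ al * (al + 2 * g) := hpal.mul_right _
          have := dvd_sub h4 hd
          have he : al * (al + 2 * g) - (al ^ 2 + 2 * al * g - g ^ 2) = g ^ 2 := by ring
          rwa [he] at this
        exact hpg (hpI.dvd_of_dvd_pow h3)
      have hU0 : D1 + al ^ 2 + 2 * g ^ 2 ≠ 0 := by
        intro h0; apply hU; rw [h0]; exact dvd_zero _
      have hV0 : al ^ 2 + 2 * al * g - g ^ 2 ≠ 0 := by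
        intro h0; apply hV; rw [h0]; exact dvd_zero _
      have h1 : padicValInt p (D1 * (D1 + al ^ 2 + 2 * g ^ 2)) =
          padicValInt p (al ^ 2 * (al ^ 2 + 2 * al * g - g ^ 2)) := by rw [h6]
      rw [padicValInt.mul hD hU0, padicValInt.mul (pow_ne_zero 2 hal) hV0, sq al,
        padicValInt.mul hal hal, ← sq al, padicValInt.eq_zero_of_not_dvd hU,
        padicValInt.eq_zero_of_not_dvd hV] at h1
      have h7 : padicValInt p al = 2 * (padicValInt p W - padicValInt p al) := by omega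
      rw [h7]
      exact even_two_mul _
    · rw [padicValInt.eq_zero_of_not_dvd hpD] at hval
      have : padicValInt p al = 2 * padicValInt p W := by omega
      rw [this]
      exact even_two_mul _
  · rw [padicValInt.eq_zero_of_not_dvd hpal]
    exact Even.zero


lemma odd_sq_mod16 (c : ℤ) (hc : Odd c) : c ^ 2 % 16 = 1 ∨ c ^ 2 % 16 = 9 := by
  obtain ⟨r, rfl⟩ := hc
  have h : r % 8 = 0 ∨ r % 8 = 1 ∨ r % 8 = 2 ∨ r % 8 = 3 ∨ r % 8 = 4 ∨ r % 8 = 5 ∨ r % 8 = 6 ∨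
      r % 8 = 7 := by omega
  rcases h with h | h | h | h | h | h | h | h <;>
  · have : r = 8 * (r / 8) + r % 8 := by omega
    rw [h] at this
    rw [this]
    ring_nf
    omega

lemma odd_pow4_mod16 (c : ℤ) (hc : Odd c) : c ^ 4 % 16 = 1 := by
  have h := odd_sq_mod16 c hc
  have e : c ^ 4 = c ^ 2 * c ^ 2 := by ring
  rw [e, Int.mul_emod]
  rcases h with h | h <;> rw [h] <;> norm_num

/-- `k^2 ∣ x` from `k^4 * y = x^2` -/
lemma sq_of_mul_pow4 (k x y : ℤ) (hk : k ≠ 0) (h : k ^ 4 * y = x ^ 2) : ∃ m, y = m ^ 2 := by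
  have h1 : (k ^ 2) ^ 2 ∣ x ^ 2 := ⟨y, by rw [← h]; ring⟩
  rw [Int.pow_dvd_pow_iff (by norm_num)] at h1
  obtain ⟨m, rfl⟩ := h1
  refine ⟨m, ?_⟩
  have h2 : k ^ 4 * y = k ^ 4 * m ^ 2 := by rw [h]; ring
  exact mul_left_cancel₀ (pow_ne_zero 4 hk) h2

lemma sq_mod8 (m : ℤ) : m ^ 2 % 8 = 0 ∨ m ^ 2 % 8 = 1 ∨ m ^ 2 % 8 = 4 := by
  have h : m % 4 = 0 ∨ m % 4 = 1 ∨ m % 4 = 2 ∨ m % 4 = 3 := by omega
  rcases h with h | h | h | h <;>
  · have : m = 4 * (m / 4) + m % 4 := by omega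
    rw [h] at this
    rw [this]
    ring_nf
    omega

lemma sq_mod4 (m : ℤ) : m ^ 2 % 4 = 0 ∨ m ^ 2 % 4 = 1 := by
  have := sq_mod8 m
  omega

/-- case (i) -/
lemma case1 (k l c : ℤ) (hk : k ≠ 0) (hc : Odd c)
    (h : 2 * l ^ 2 * (2 * l ^ 2 + k ^ 4 + 2 * c ^ 4) =
      k ^ 4 * (k ^ 4 + 2 * k ^ 2 * c ^ 2 - c ^ 4)) : False := by
  have hc4 := odd_pow4_mod16 c hc
  have hc2 := odd_sq_mod16 c hc
  rcases Int.even_or_odd k with hke | hko
  · obtain ⟨k1, hk1⟩ := hke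
    have hk1' : k = 2 * k1 := by rw [hk1]; ring
    subst hk1'
    have hk10 : k1 ≠ 0 := by
      rintro rfl; exact hk (by ring)
    have h' : l ^ 2 * (l ^ 2 + 8 * k1 ^ 4 + c ^ 4) =
        4 * (k1 ^ 4 * (16 * k1 ^ 4 + 8 * k1 ^ 2 * c ^ 2 - c ^ 4)) := by
      have : 4 * (l ^ 2 * (l ^ 2 + 8 * k1 ^ 4 + c ^ 4)) =
        4 * (4 * (k1 ^ 4 * (16 * k1 ^ 4 + 8 * k1 ^ 2 * c ^ 2 - c ^ 4))) := by
        linear_combination h
      linarith
    rcases Int.even_or_odd l with hle | hlo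
    · obtain ⟨l1, hl1⟩ := hle
      have hl1' : l = 2 * l1 := by rw [hl1]; ring
      subst hl1'
      have h'' : l1 ^ 2 * (4 * l1 ^ 2 + 8 * k1 ^ 4 + c ^ 4) =
          k1 ^ 4 * (16 * k1 ^ 4 + 8 * k1 ^ 2 * c ^ 2 - c ^ 4) := by
        have : 4 * (l1 ^ 2 * (4 * l1 ^ 2 + 8 * k1 ^ 4 + c ^ 4)) =
          4 * (k1 ^ 4 * (16 * k1 ^ 4 + 8 * k1 ^ 2 * c ^ 2 - c ^ 4)) := by
          linear_combination h'
        linarith
      obtain ⟨m, hm⟩ := sq_of_mul_pow4 k1 (l1 * (4 * l1 ^ 2 + 8 * k1 ^ 4 + c ^ 4))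
        ((4 * l1 ^ 2 + 8 * k1 ^ 4 + c ^ 4) * (16 * k1 ^ 4 + 8 * k1 ^ 2 * c ^ 2 - c ^ 4)) hk10
        (by linear_combination (-(4 * l1 ^ 2 + 8 * k1 ^ 4 + c ^ 4)) * h'')
      have hm8 := sq_mod8 m
      have hU : (4 * l1 ^ 2 + 8 * k1 ^ 4 + c ^ 4) % 8 = 1 ∨
          (4 * l1 ^ 2 + 8 * k1 ^ 4 + c ^ 4) % 8 = 5 := by
        have := sq_mod4 l1
        omega
      have hV : (16 * k1 ^ 4 + 8 * k1 ^ 2 * c ^ 2 - c ^ 4) % 8 = 7 := by
        have : 8 * k1 ^ 2 * c ^ 2 = 8 * (k1 ^ 2 * c ^ 2) := by ring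
        rw [this]
        omega
      rw [← hm, Int.mul_emod, hV] at hm8
      rcases hU with hU | hU <;> rw [hU] at hm8 <;> norm_num at hm8
    · -- l odd
      have hl2 := odd_sq_mod16 l hlo
      have h1 : (l ^ 2 + 8 * k1 ^ 4 + c ^ 4) % 4 = 2 := by omega
      have h2 : (l ^ 2 * (l ^ 2 + 8 * k1 ^ 4 + c ^ 4)) % 4 = 2 := by
        rw [Int.mul_emod, h1]
        have : l ^ 2 % 4 = 1 := by omega
        rw [this]; norm_num
      omega
  · have hk4 := odd_pow4_mod16 k hko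
    have hk2 := odd_sq_mod16 k hko
    have hR : (k ^ 4 * (k ^ 4 + 2 * k ^ 2 * c ^ 2 - c ^ 4)) % 16 = 2 := by
      have h1 : (2 * k ^ 2 * c ^ 2) % 16 = 2 := by
        have : 2 * k ^ 2 * c ^ 2 = 2 * (k ^ 2 * c ^ 2) := by ring
        rw [this]
        have h3 : (k ^ 2 * c ^ 2) % 8 = 1 := by
          rw [Int.mul_emod]
          have a1 : k ^ 2 % 8 = 1 := by omega
          have a2 : c ^ 2 % 8 = 1 := by omega
          rw [a1, a2]; norm_num
        omega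
      have h2 : (k ^ 4 + 2 * k ^ 2 * c ^ 2 - c ^ 4) % 16 = 2 := by omega
      rw [Int.mul_emod, hk4, h2]; norm_num
    rcases Int.even_or_odd l with hle | hlo
    · obtain ⟨l1, hl1⟩ := hle
      have hl1' : l = 2 * l1 := by rw [hl1]; ring
      subst hl1'
      have h1 : (2 * (2 * l1) ^ 2 * (2 * (2 * l1) ^ 2 + k ^ 4 + 2 * c ^ 4)) =
          8 * (l1 ^ 2 * (2 * (2 * l1) ^ 2 + k ^ 4 + 2 * c ^ 4)) := by ring
      rw [h1] at h
      omega
    · have hl2 := odd_sq_mod16 l hlo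
      have hL : (2 * l ^ 2 * (2 * l ^ 2 + k ^ 4 + 2 * c ^ 4)) % 16 = 10 := by
        rw [Int.mul_emod]
        rcases hl2 with hl2 | hl2
        · have a1 : (2 * l ^ 2) % 16 = 2 := by omega
          have a2 : (2 * l ^ 2 + k ^ 4 + 2 * c ^ 4) % 16 = 5 := by omega
          rw [a1, a2]; norm_num
        · have a1 : (2 * l ^ 2) % 16 = 2 := by omega
          have a2 : (2 * l ^ 2 + k ^ 4 + 2 * c ^ 4) % 16 = 5 := by omega
          rw [a1, a2]; norm_num
      omega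

/-- cases (ii), (iii): `al = 2 e k^2`, `D1 = e l^2`, `e = ±1` -/
lemma case23 (e k l c : ℤ) (he : e = 1 ∨ e = -1) (hk : k ≠ 0) (hc : Odd c)
    (h : e * l ^ 2 * (e * l ^ 2 + 4 * k ^ 4 + 2 * c ^ 4) =
      4 * k ^ 4 * (4 * k ^ 4 + 4 * e * k ^ 2 * c ^ 2 - c ^ 4)) : False := by
  have hc4 := odd_pow4_mod16 c hc
  have he2 : e * e = 1 := by rcases he with rfl | rfl <;> norm_num
  rcases Int.even_or_odd l with hle | hlo
  · obtain ⟨l1, hl1⟩ := hle
    have hl1' : l = 2 * l1 := by rw [hl1]; ring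
    subst hl1'
    have h' : 2 * e * l1 ^ 2 * (2 * e * l1 ^ 2 + 2 * k ^ 4 + c ^ 4) =
        k ^ 4 * (4 * k ^ 4 + 4 * e * k ^ 2 * c ^ 2 - c ^ 4) := by
      have : 4 * (2 * e * l1 ^ 2 * (2 * e * l1 ^ 2 + 2 * k ^ 4 + c ^ 4)) =
        4 * (k ^ 4 * (4 * k ^ 4 + 4 * e * k ^ 2 * c ^ 2 - c ^ 4)) := by
        linear_combination h
      linarith
    obtain ⟨m, hm⟩ := sq_of_mul_pow4 k (2 * l1 * (2 * e * l1 ^ 2 + 2 * k ^ 4 + c ^ 4))
      (2 * e * (2 * e * l1 ^ 2 + 2 * k ^ 4 + c ^ 4) *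
        (4 * k ^ 4 + 4 * e * k ^ 2 * c ^ 2 - c ^ 4)) hk
      (by linear_combination (-2 * e * (2 * e * l1 ^ 2 + 2 * k ^ 4 + c ^ 4)) * h' +
        (4 * l1 ^ 2 * (2 * e * l1 ^ 2 + 2 * k ^ 4 + c ^ 4) ^ 2) * he2)
    have hm4 := sq_mod4 m
    have hU : (2 * e * l1 ^ 2 + 2 * k ^ 4 + c ^ 4) % 2 = 1 := by
      have : 2 * e * l1 ^ 2 = 2 * (e * l1 ^ 2) := by ring
      rw [this]; omega
    have hV : (4 * k ^ 4 + 4 * e * k ^ 2 * c ^ 2 - c ^ 4) % 2 = 1 := by
      have : 4 * e * k ^ 2 * c ^ 2 = 4 * (e * k ^ 2 * c ^ 2) := by ring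
      rw [this]; omega
    have he1 : e % 2 = 1 := by rcases he with rfl | rfl <;> norm_num
    have hP : (e * (2 * e * l1 ^ 2 + 2 * k ^ 4 + c ^ 4) *
        (4 * k ^ 4 + 4 * e * k ^ 2 * c ^ 2 - c ^ 4)) % 2 = 1 := by
      rw [Int.mul_emod, Int.mul_emod e, hU, hV, he1]; norm_num
    have hm' : 2 * (e * (2 * e * l1 ^ 2 + 2 * k ^ 4 + c ^ 4) *
        (4 * k ^ 4 + 4 * e * k ^ 2 * c ^ 2 - c ^ 4)) = m ^ 2 := by rw [← hm]; ring
    omega
  · have hl2 := odd_sq_mod16 l hlo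
    have he1 : e % 2 = 1 := by rcases he with rfl | rfl <;> norm_num
    have h1 : (e * l ^ 2) % 2 = 1 := by
      rw [Int.mul_emod, he1]
      have : l ^ 2 % 2 = 1 := by omega
      rw [this]; norm_num
    have h2 : (e * l ^ 2 + 4 * k ^ 4 + 2 * c ^ 4) % 2 = 1 := by omega
    have h3 : (e * l ^ 2 * (e * l ^ 2 + 4 * k ^ 4 + 2 * c ^ 4)) % 2 = 1 := by
      rw [Int.mul_emod, h1, h2]; norm_num
    have h4 : 4 * k ^ 4 * (4 * k ^ 4 + 4 * e * k ^ 2 * c ^ 2 - c ^ 4) =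
        4 * (k ^ 4 * (4 * k ^ 4 + 4 * e * k ^ 2 * c ^ 2 - c ^ 4)) := by ring
    omega


/-- integer core -/
theorem int_part (al g s t be : ℤ) (hg : 0 < g) (ht : 0 < t) (hto : Odd t) (hs : s ≠ 0)
    (hst : IsCoprime s t) (hag : IsCoprime al g)
    (E1 : be ^ 2 - (3 * al ^ 2 + 2 * al * g - 2 * g ^ 2) * be
      - al * (al + g) * (2 * g ^ 2 - al ^ 2) = 0)
    (E2 : be * (2 * g ^ 3 + be * g + 2 * al * be + 2 * al * g ^ 2 - al ^ 2 * g - al ^ 3) * t ^ 2
      = -2 * s ^ 2 * g ^ 5) :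
    ∃ k c : ℤ, k ≠ 0 ∧ Odd c ∧ IsCoprime k c ∧ al = -k ^ 2 ∧ g = c ^ 2 := by
  set ep := 2 * g ^ 3 + be * g + 2 * al * be + 2 * al * g ^ 2 - al ^ 2 * g - al ^ 3 with hep
  have hag4 : IsCoprime (al ^ 4) g := hag.pow_left
  -- be coprime to g
  have hbeg : IsCoprime be g := by
    have h1 : al ^ 4 = be * (3 * al ^ 2 + 2 * al * g - 2 * g ^ 2 - be) +
        g * (2 * al ^ 2 * g + 2 * al * g ^ 2 - al ^ 3) := by linear_combination E1
    rw [h1] at hag4
    have h2 : IsCoprime (be * (3 * al ^ 2 + 2 * al * g - 2 * g ^ 2 - be)) g :=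
      IsCoprime.of_add_mul_left_left hag4
    exact h2.of_mul_left_left
  have hwg : IsCoprime (2 * be - al ^ 2) g := by
    have h1 : al ^ 4 = (2 * be - al ^ 2) * (2 * be - al ^ 2 - 4 * al ^ 2) +
        g * (-4 * (2 * al - 2 * g) * be - 4 * (2 * al ^ 2 * g + 2 * al * g ^ 2 - al ^ 3)) := by
      linear_combination (-4) * E1
    rw [h1] at hag4
    have h2 : IsCoprime ((2 * be - al ^ 2) * (2 * be - al ^ 2 - 4 * al ^ 2)) g :=
      IsCoprime.of_add_mul_left_left hag4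
    exact h2.of_mul_left_left
  have hepg : IsCoprime ep g := by
    have h1 : ep = al * (2 * be - al ^ 2) + g * (2 * g ^ 2 + be + 2 * al * g - al ^ 2) := by
      rw [hep]; ring
    rw [h1]
    exact IsCoprime.add_mul_left_left (hag.mul_left hwg) _
  have hbeep : IsCoprime (be * ep) (g ^ 5) := (hbeg.mul_left hepg).pow_right
  have hd1 : g ^ 5 ∣ t ^ 2 := by
    have h1 : g ^ 5 ∣ (be * ep) * t ^ 2 := ⟨-2 * s ^ 2, by rw [E2]; ring⟩
    exact hbeep.symm.dvd_of_dvd_mul_left h1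
  have hts : IsCoprime (t ^ 2) (2 * s ^ 2) := by
    have h2 : IsCoprime t 2 := by
      obtain ⟨r, hr⟩ := hto
      exact ⟨1, -r, by rw [hr]; ring⟩
    exact (h2.mul_right hst.symm.pow_right).pow_left
  have hd2 : t ^ 2 ∣ g ^ 5 := by
    have h1 : t ^ 2 ∣ (2 * s ^ 2) * g ^ 5 := ⟨-(be * ep), by
      have : t ^ 2 * -(be * ep) = -(be * ep * t ^ 2) := by ring
      rw [this, E2]; ring⟩
    exact hts.dvd_of_dvd_mul_left h1
  have htg : t ^ 2 = g ^ 5 := by
    apply Int.dvd_antisymm (by positivity) (by positivity) hd2 hd1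
  have hg2t : g ^ 2 ∣ t := by
    have h1 : (g ^ 2) ^ 2 ∣ t ^ 2 := ⟨g, by rw [htg]; ring⟩
    rwa [Int.pow_dvd_pow_iff (by norm_num)] at h1
  obtain ⟨c, hc⟩ := hg2t
  have hgc : g = c ^ 2 := by
    have h1 : g ^ 4 * c ^ 2 = g ^ 4 * g := by
      have : g ^ 4 * c ^ 2 = t ^ 2 := by rw [hc]; ring
      rw [this, htg]; ring
    exact (mul_left_cancel₀ (pow_ne_zero 4 hg.ne') h1).symm
  have hco : Odd c := by
    rw [hc] at hto
    exact (Int.odd_mul.mp hto).2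
  have hbe2 : be * ep = -2 * s ^ 2 := by
    have h1 : g ^ 5 * (be * ep) = g ^ 5 * (-2 * s ^ 2) := by
      rw [← htg]
      have : t ^ 2 * (be * ep) = be * ep * t ^ 2 := by ring
      rw [this, E2, ← htg]; ring
    exact mul_left_cancel₀ (pow_ne_zero 5 hg.ne') h1
  have hbe0 : be * ep ≠ 0 := by
    rw [hbe2]
    have := pow_ne_zero 2 hs
    intro h0
    apply this
    linarith
  have hep0 : ep ≠ 0 := right_ne_zero_of_mul hbe0
  set D1 := al ^ 2 + al * g - 2 * g ^ 2 - be with hD1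
  have h5 : be * D1 + al * ep = 0 := by rw [hD1, hep]; linear_combination (-1) * E1
  have h6 : D1 * (D1 + al ^ 2 + 2 * g ^ 2) = al ^ 2 * (al ^ 2 + 2 * al * g - g ^ 2) := by
    rw [hD1]; linear_combination E1
  have hal : al ≠ 0 := by
    intro h0
    rw [h0] at h5 hD1
    have : be * D1 = 0 := by linarith
    rcases mul_eq_zero.mp this with h1 | h1
    · exact hbe0 (by rw [h1]; ring)
    · apply hep0
      rw [hep, h0]
      have : be = -2 * g ^ 2 := by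
        rw [h1] at hD1
        linarith
      rw [this]; ring
  have hD0 : D1 ≠ 0 := by
    intro h0
    rw [h0] at h5
    have : al * ep = 0 := by linarith
    rcases mul_eq_zero.mp this with h1 | h1
    · exact hal h1
    · exact hep0 h1
  have hWs : (al * ep) ^ 2 = s ^ 2 * (2 * al * D1) := by
    have : (al * ep) ^ 2 = -(al * D1) * (be * ep) := by linear_combination (al * ep) * h5
    rw [this, hbe2]; ring
  obtain ⟨W, hW⟩ : s ∣ al * ep := by
    have h1 : s ^ 2 ∣ (al * ep) ^ 2 := ⟨2 * al * D1, hWs⟩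
    rwa [Int.pow_dvd_pow_iff (by norm_num)] at h1
  have hW2 : W ^ 2 = 2 * al * D1 := by
    rw [hW] at hWs
    have h1 : s ^ 2 * W ^ 2 = s ^ 2 * (2 * al * D1) := by rw [← hWs]; ring
    exact mul_left_cancel₀ (pow_ne_zero 2 hs) h1
  -- al = ± k^2 or ± 2 k^2
  obtain ⟨k', hk'⟩ := sq_or_two_sq al.natAbs (Int.natAbs_ne_zero.mpr hal) (by
    intro p hp h2
    exact even_val al g D1 W hal hD0 hag hW2 h6 p hp h2)
  have hk0 : (k' : ℤ) ≠ 0 := by
    intro h0
    have h1 : k' = 0 := by exact_mod_cast h0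
    rw [h1] at hk'
    have : al.natAbs = 0 := by rcases hk' with h | h <;> simpa using h
    exact hal (Int.natAbs_eq_zero.mp this)
  obtain ⟨e, he, hale⟩ : ∃ e : ℤ, (e = 1 ∨ e = -1) ∧ al = e * (al.natAbs : ℤ) := by
    rcases Int.natAbs_eq al with h | h
    · exact ⟨1, Or.inl rfl, by linarith⟩
    · exact ⟨-1, Or.inr rfl, by linarith⟩
  have he2 : e * e = 1 := by rcases he with rfl | rfl <;> norm_num
  rcases hk' with hk' | hk'
  · -- al = e k^2
    have hal' : al = e * (k' : ℤ) ^ 2 := by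
      rw [hale, hk']; push_cast; ring
    obtain ⟨m, hm⟩ : (k' : ℤ) ∣ W := by
      have h1 : (k' : ℤ) ^ 2 ∣ W ^ 2 := ⟨2 * e * D1, by rw [hW2, hal']; ring⟩
      rwa [Int.pow_dvd_pow_iff (by norm_num)] at h1
    have hm2 : m ^ 2 = 2 * e * D1 := by
      have h1 : (k' : ℤ) ^ 2 * m ^ 2 = (k' : ℤ) ^ 2 * (2 * e * D1) := by
        have : (k' : ℤ) ^ 2 * m ^ 2 = W ^ 2 := by rw [hm]; ring
        rw [this, hW2, hal']; ring
      exact mul_left_cancel₀ (pow_ne_zero 2 hk0) h1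
    obtain ⟨l, hl⟩ : (2 : ℤ) ∣ m := by
      have h1 : (2 : ℤ) ∣ m ^ 2 := ⟨e * D1, by rw [hm2]; ring⟩
      exact Int.prime_two.dvd_of_dvd_pow h1
    have hD1' : D1 = 2 * e * l ^ 2 := by
      have h1 : 2 * (2 * l ^ 2) = 2 * (e * D1) := by
        have : 2 * (2 * l ^ 2) = m ^ 2 := by rw [hl]; ring
        rw [this, hm2]; ring
      have h2 : 2 * l ^ 2 = e * D1 := by linarith
      have h3 : e * (2 * l ^ 2) = D1 := by rw [h2, ← mul_assoc, he2, one_mul]
      rw [← h3]; ring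
    rcases he with rfl | rfl
    · exfalso
      apply case1 k' l c hk0 hco
      rw [hD1', hal', hgc] at h6
      linear_combination h6
    · refine ⟨k', c, hk0, hco, ?_, by rw [hal']; ring, hgc⟩
      rw [hal', hgc] at hag
      have h1 : IsCoprime ((k' : ℤ) ^ 2) (c ^ 2) := by
        have := hag.neg_left
        have e1 : -(-1 * (k' : ℤ) ^ 2) = (k' : ℤ) ^ 2 := by ring
        rwa [e1] at this
      exact (IsCoprime.pow_iff (by norm_num) (by norm_num)).mp h1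
  · exfalso
    have hal' : al = 2 * e * (k' : ℤ) ^ 2 := by
      rw [hale, hk']; push_cast; ring
    obtain ⟨l, hl⟩ : (2 * (k' : ℤ)) ∣ W := by
      have h1 : (2 * (k' : ℤ)) ^ 2 ∣ W ^ 2 := ⟨e * D1, by rw [hW2, hal']; ring⟩
      rwa [Int.pow_dvd_pow_iff (by norm_num)] at h1
    have hl2 : l ^ 2 = e * D1 := by
      have h1 : (2 * (k' : ℤ)) ^ 2 * l ^ 2 = (2 * (k' : ℤ)) ^ 2 * (e * D1) := by
        have : (2 * (k' : ℤ)) ^ 2 * l ^ 2 = W ^ 2 := by rw [hl]; ring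
        rw [this, hW2, hal']; ring
      exact mul_left_cancel₀ (pow_ne_zero 2 (mul_ne_zero (by norm_num) hk0)) h1
    have hD1' : D1 = e * l ^ 2 := by
      rw [hl2, ← mul_assoc, he2, one_mul]
    apply case23 e k' l c he hk0 hco
    rw [hD1', hal', hgc] at h6
    linear_combination h6 + (4 * (k' : ℤ) ^ 4 * (e * e * 4 * (k' : ℤ) ^ 4 +
      4 * e * (k' : ℤ) ^ 2 * c ^ 2 - c ^ 4) + 4 * (k' : ℤ) ^ 4 * 4 * (k' : ℤ) ^ 4 -
      4 * (k' : ℤ) ^ 4 * e * l ^ 2) * he2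

end CubQuad

/-- Quadratic factor, arithmetic part. -/
theorem cub_quad (q A B : ℚ) (hq : q ≠ 0) (hq2 : Odd q.den)
    (h1 : B ^ 2 - (3 * A ^ 2 + 2 * A - 2) * B - A * (1 + A) * (2 - A ^ 2) = 0)
    (h2 : B * (2 + B + 2 * A * B + 2 * A - A ^ 2 - A ^ 3) = -2 * q ^ 2) :
    ∃ a c d : ℤ, a ≠ 0 ∧ Odd c ∧ IsCoprime a c ∧ A = -((a : ℚ) / c) ^ 2 ∧
      d ^ 2 = 5 * a ^ 8 - 8 * a ^ 6 * c ^ 2 + 4 * c ^ 8 := by
  set al : ℤ := A.num with hal
  set g : ℤ := (A.den : ℤ) with hgdef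
  set s : ℤ := q.num with hs
  set t : ℤ := (q.den : ℤ) with ht
  have hg : 0 < g := by rw [hgdef]; exact_mod_cast A.den_pos
  have ht0 : 0 < t := by rw [ht]; exact_mod_cast q.den_pos
  have hgQ : (g : ℚ) ≠ 0 := by exact_mod_cast hg.ne'
  have htQ : (t : ℚ) ≠ 0 := by exact_mod_cast ht0.ne'
  have hA : A = (al : ℚ) / g := by
    rw [hal, hgdef]; push_cast; exact (Rat.num_div_den A).symm
  have hq' : q = (s : ℚ) / t := by
    rw [hs, ht]; push_cast; exact (Rat.num_div_den q).symm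
  -- be integer
  obtain ⟨be, hbe⟩ : ∃ be : ℤ, (be : ℚ) = B * g ^ 2 := by
    have hint : IsIntegral ℤ (B * (g : ℚ) ^ 2) := by
      refine ⟨Polynomial.X ^ 2 - Polynomial.C (3 * al ^ 2 + 2 * al * g - 2 * g ^ 2) * Polynomial.X
        - Polynomial.C (al * (al + g) * (2 * g ^ 2 - al ^ 2)), ?_, ?_⟩
      · have : (Polynomial.X ^ 2 - Polynomial.C (3 * al ^ 2 + 2 * al * g - 2 * g ^ 2) *
            Polynomial.X - Polynomial.C (al * (al + g) * (2 * g ^ 2 - al ^ 2)) :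
            Polynomial ℤ) = Polynomial.X ^ 2 + (- Polynomial.C (3 * al ^ 2 + 2 * al * g - 2 * g ^ 2)
            * Polynomial.X - Polynomial.C (al * (al + g) * (2 * g ^ 2 - al ^ 2))) := by ring
        rw [this]
        apply Polynomial.monic_X_pow_add
        compute_degree!
      · simp only [Polynomial.eval₂_sub, Polynomial.eval₂_mul, Polynomial.eval₂_X,
          Polynomial.eval₂_pow, Polynomial.eval₂_C]
        simp only [eq_intCast]
        push_cast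
        rw [hA] at h1
        field_simp at h1
        linear_combination h1
    obtain ⟨y, hy⟩ := (IsIntegrallyClosed.isIntegral_iff (R := ℤ) (K := ℚ)).mp hint
    exact ⟨y, by simpa using hy⟩
  have hB : B = (be : ℚ) / g ^ 2 := by
    rw [hbe]; field_simp
  have E1 : be ^ 2 - (3 * al ^ 2 + 2 * al * g - 2 * g ^ 2) * be
      - al * (al + g) * (2 * g ^ 2 - al ^ 2) = 0 := by
    have : (be : ℚ) ^ 2 - (3 * al ^ 2 + 2 * al * g - 2 * g ^ 2) * be
      - al * (al + g) * (2 * g ^ 2 - al ^ 2) = 0 := by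
      rw [hA, hB] at h1
      field_simp at h1
      linear_combination h1
    exact_mod_cast this
  have E2 : be * (2 * g ^ 3 + be * g + 2 * al * be + 2 * al * g ^ 2 - al ^ 2 * g - al ^ 3) * t ^ 2
      = -2 * s ^ 2 * g ^ 5 := by
    have : (be : ℚ) * (2 * g ^ 3 + be * g + 2 * al * be + 2 * al * g ^ 2 - al ^ 2 * g - al ^ 3)
      * t ^ 2 = -2 * s ^ 2 * g ^ 5 := by
      rw [hA, hB, hq'] at h2
      field_simp at h2
      linear_combination h2
    exact_mod_cast this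
  have hs0 : s ≠ 0 := by
    rw [hs]; exact Rat.num_ne_zero.mpr hq
  have hto : Odd t := by
    rw [ht]; exact_mod_cast hq2
  have hst : IsCoprime s t := by
    rw [Int.isCoprime_iff_gcd_eq_one]
    have := q.reduced
    rw [hs, ht]
    simpa [Int.gcd, Nat.Coprime] using this
  have hag : IsCoprime al g := by
    rw [Int.isCoprime_iff_gcd_eq_one]
    have := A.reduced
    rw [hal, hgdef]
    simpa [Int.gcd, Nat.Coprime] using this
  obtain ⟨k, c, hk, hc, hkc, hak, hgc⟩ :=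
    CubQuad.int_part al g s t be hg ht0 hto hs0 hst hag E1 E2
  refine ⟨k, c, 2 * be - (3 * al ^ 2 + 2 * al * g - 2 * g ^ 2), hk, hc, hkc, ?_, ?_⟩
  · rw [hA, hak, hgc]; push_cast; ring
  · rw [hak, hgc] at E1 ⊢
    linear_combination 4 * E1
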