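import Mathlib

/-- auxiliary: coprime `a b` with `2ab` a square. -/
theorem cub_aux_sq {a b s : ℤ} (hab : IsCoprime a b) (h : 2 * (a * b) = s ^ 2) :
    (∃ c, (a = c ^ 2 ∨ a = -c ^ 2) ∧ (2 ∣ b)) ∨ (∃ c, (a = 2 * c ^ 2 ∨ a = -(2 * c ^ 2)) ∧ 2 ∣ a) := by
  have hs : (2 : ℤ) ∣ s := by
    have : (2 : ℤ) ∣ s ^ 2 := ⟨a * b, h.symm⟩
    exact Int.prime_two.dvd_of_dvd_pow this
  obtain ⟨r, rfl⟩ := hs
  have h2 : a * b = 2 * r ^ 2 := by nlinarith
  have h3 : (2 : ℤ) ∣ a * b := ⟨r ^ 2, h2⟩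
  rcases Int.prime_two.dvd_or_dvd h3 with h4 | h4
  · right
    obtain ⟨a', rfl⟩ := h4
    have h5 : a' * b = r ^ 2 := by nlinarith
    have h6 : IsCoprime a' b := IsCoprime.of_mul_left_right hab
    obtain ⟨c, hc⟩ := Int.sq_of_isCoprime h6 h5
    refine ⟨c, ?_, ⟨a', rfl⟩⟩
    rcases hc with hc | hc
    · left; rw [hc]
    · right; rw [hc]; ring
  · left
    obtain ⟨b', rfl⟩ := h4
    have h5 : a * b' = r ^ 2 := by nlinarith
    have h6 : IsCoprime a b' := IsCoprime.of_mul_right_right hab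
    obtain ⟨c, hc⟩ := Int.sq_of_isCoprime h6 h5
    exact ⟨c, hc, ⟨b', rfl⟩⟩

theorem cub_int_sq_of_rat_sq {n : ℤ} {r : ℚ} (h : (n : ℚ) = r ^ 2) : ∃ s : ℤ, n = s ^ 2 := by
  have h1 : IsSquare (n : ℚ) := ⟨r, by rw [h]; ring⟩
  rw [Rat.isSquare_intCast_iff] at h1
  obtain ⟨s, hs⟩ := h1
  exact ⟨s, by rw [hs]; ring⟩

/-- No rational root.  The hypothesis `F` (Fermat's theorem on `x^4 - y^4 = z^2`) is proved elsewhere. -/
theorem cub_no_root (F : ∀ x y z : ℤ, x ^ 4 - y ^ 4 = z ^ 2 → y = 0 ∨ z = 0)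
    (q v : ℚ) (hq : q ≠ 0) (hv : v ≠ 0) (h : q ^ 2 + v ^ 2 = 1) (x : ℚ) :
    x ^ 5 - x ^ 4 - 2 * x ^ 3 + 2 * x ^ 2 ≠ 2 * q ^ 2 := by
  intro hx
  have hq2 : q ^ 2 ≠ 0 := pow_ne_zero 2 hq
  have hv2 : v ^ 2 ≠ 0 := pow_ne_zero 2 hv
  obtain ⟨X, Z, hZ, hcop, rfl⟩ : ∃ X Z : ℤ, Z ≠ 0 ∧ IsCoprime X Z ∧ x = (X : ℚ) / Z := by
    refine ⟨x.num, x.den, by exact_mod_cast x.den_ne_zero, ?_, ?_⟩
    · exact Rat.isCoprime_num_den x
    · simp [Rat.num_div_den]
  have hZQ : (Z : ℚ) ≠ 0 := by exact_mod_cast hZ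
  have hXQ : (X : ℚ) ≠ 0 := by
    intro h0
    apply hq2
    rw [h0] at hx
    simp at hx
    exact absurd hx hq
  have hX : X ≠ 0 := by exact_mod_cast hXQ
  -- equation 1
  have e1 : ((2 * ((Z - X) * (Z * (2 * Z ^ 2 - X ^ 2))) : ℤ) : ℚ) = (2 * q * Z ^ 3 / X) ^ 2 := by
    push_cast
    field_simp
    field_simp at hx
    linear_combination hx
  have e2 : ((2 * ((Z + X) * (Z * (Z ^ 4 + (Z - X) ^ 3 * (Z + X)))) : ℤ) : ℚ) = (2 * v * Z ^ 3) ^ 2 := by
    have hv' : v ^ 2 = 1 - q ^ 2 := by linarith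
    rw [mul_pow, mul_pow, hv']
    push_cast
    field_simp at hx
    linear_combination (-2 * (Z : ℚ)) * hx
  obtain ⟨s1, hs1⟩ := cub_int_sq_of_rat_sq e1
  obtain ⟨s2, hs2⟩ := cub_int_sq_of_rat_sq e2
  -- nonvanishing facts
  have hZX : Z - X ≠ 0 := by
    intro h0
    have h1 : (X : ℚ) = Z := by
      have : X = Z := by omega
      exact_mod_cast this
    rw [h1, div_self hZQ] at hx
    apply hq2; linarith
  have hZX' : Z + X ≠ 0 := by
    intro h0
    have h1 : (X : ℚ) = -Z := by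
      have : X = -Z := by omega
      exact_mod_cast this
    rw [h1, neg_div, div_self hZQ] at hx
    apply hv2; linarith
  have hN : 2 * Z ^ 2 - X ^ 2 ≠ 0 := by
    intro h0
    have h1 : (2 * (Z : ℚ) ^ 2 - X ^ 2) = 0 := by exact_mod_cast h0
    apply hq2
    have h2 : 2 * (Z : ℚ) ^ 5 * q ^ 2 = 0 := by
      field_simp at hx
      linear_combination -hx + (X : ℚ) ^ 2 * (Z - X) * h1
    have h3 : 2 * (Z : ℚ) ^ 5 ≠ 0 := by positivity
    exact (mul_eq_zero.mp h2).resolve_left h3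
  -- coprimality
  have c0 : IsCoprime (Z - X) Z := by
    have : IsCoprime (-X + Z) Z := by
      have := (IsCoprime.neg_left hcop).add_mul_left_left 1
      simpa using this
    rw [show Z - X = -X + Z by ring]; exact this
  have c0' : IsCoprime (Z + X) Z := by
    have : IsCoprime (X + Z) Z := by
      have := hcop.add_mul_left_left 1
      simpa using this
    rw [show Z + X = X + Z by ring]; exact this
  have c1 : IsCoprime (Z - X) (2 * Z ^ 2 - X ^ 2) := by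
    have : IsCoprime (Z - X) (Z ^ 2 + (Z - X) * (Z + X)) := (c0.pow_right (n := 2)).add_mul_left_right (Z + X)
    rw [show 2 * Z ^ 2 - X ^ 2 = Z ^ 2 + (Z - X) * (Z + X) by ring]; exact this
  have c2 : IsCoprime Z (2 * Z ^ 2 - X ^ 2) := by
    have h1 : IsCoprime Z (X ^ 2) := hcop.symm.pow_right
    have h2 : IsCoprime Z (-(X ^ 2) + Z * (2 * Z)) := (IsCoprime.neg_right h1).add_mul_left_right (2 * Z)
    rw [show 2 * Z ^ 2 - X ^ 2 = -(X ^ 2) + Z * (2 * Z) by ring]; exact h2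
  have c3 : IsCoprime (Z + X) (Z ^ 4 + (Z - X) ^ 3 * (Z + X)) := by
    have : IsCoprime (Z + X) (Z ^ 4 + (Z + X) * (Z - X) ^ 3) := (c0'.pow_right (n := 4)).add_mul_left_right _
    rw [show Z ^ 4 + (Z - X) ^ 3 * (Z + X) = Z ^ 4 + (Z + X) * (Z - X) ^ 3 by ring]; exact this
  have A1 := cub_aux_sq (c0.mul_right c1) hs1
  have A2 := cub_aux_sq (c0'.mul_right c3) hs2
  have A3 : (∃ c, (2 * Z ^ 2 - X ^ 2 = c ^ 2 ∨ 2 * Z ^ 2 - X ^ 2 = -c ^ 2) ∧ (2 ∣ (Z - X) * Z)) ∨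
      (∃ c, (2 * Z ^ 2 - X ^ 2 = 2 * c ^ 2 ∨ 2 * Z ^ 2 - X ^ 2 = -(2 * c ^ 2)) ∧ 2 ∣ (2 * Z ^ 2 - X ^ 2)) :=
    cub_aux_sq (s := s1) ((c1.symm.mul_right c2.symm)) (by rw [← hs1]; ring)
  -- Z^2 - X^2 = ± w^2
  have B : ∃ w : ℤ, Z ^ 2 - X ^ 2 = w ^ 2 ∨ Z ^ 2 - X ^ 2 = -w ^ 2 := by
    have par : (2 ∣ Z - X) ↔ (2 ∣ Z + X) := by omega
    have np : 2 ∣ (Z - X) → 2 ∣ Z * (2 * Z ^ 2 - X ^ 2) → False := by
      intro h1 h2
      have := (c0.mul_right c1)
      have h3 := this.isUnit_of_dvd' h1 h2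
      rw [Int.isUnit_iff] at h3; omega
    have np' : 2 ∣ (Z + X) → 2 ∣ Z * (Z ^ 4 + (Z - X) ^ 3 * (Z + X)) → False := by
      intro h1 h2
      have := (c0'.mul_right c3)
      have h3 := this.isUnit_of_dvd' h1 h2
      rw [Int.isUnit_iff] at h3; omega
    rcases A1 with ⟨a, ha, hb⟩ | ⟨a, ha, hb⟩ <;> rcases A2 with ⟨c, hc, hd⟩ | ⟨c, hc, hd⟩
    · refine ⟨a * c, ?_⟩
      rw [show Z ^ 2 - X ^ 2 = (Z - X) * (Z + X) by ring]
      rcases ha with ha | ha <;> rcases hc with hc | hc <;> rw [ha, hc]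
      · left; ring
      · right; ring
      · right; ring
      · left; ring
    · exact (np (par.2 hd) hb).elim
    · exact (np' (par.1 hb) hd).elim
    · refine ⟨2 * (a * c), ?_⟩
      rw [show Z ^ 2 - X ^ 2 = (Z - X) * (Z + X) by ring]
      rcases ha with ha | ha <;> rcases hc with hc | hc <;> rw [ha, hc]
      · left; ring
      · right; ring
      · right; ring
      · left; ring
  have par2 : ∀ m : ℤ, m ^ 2 % 4 = 0 ∧ m % 2 = 0 ∨ m ^ 2 % 4 = 1 ∧ m % 2 = 1 := by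
    intro m
    rcases Int.emod_two_eq_zero_or_one m with h | h
    · left
      refine ⟨?_, h⟩
      obtain ⟨k, rfl⟩ : (2 : ℤ) ∣ m := by omega
      ring_nf; omega
    · right
      refine ⟨?_, h⟩
      obtain ⟨k, rfl⟩ : ∃ k, m = 2 * k + 1 := ⟨m / 2, by omega⟩
      ring_nf; omega
  obtain ⟨w, hw | hw⟩ := B
  · -- case A
    have hw0 : w ≠ 0 := by
      rintro rfl
      have : (Z - X) * (Z + X) = 0 := by linear_combination hw
      rcases mul_eq_zero.mp this with h | h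
      · exact hZX h
      · exact hZX' h
    have hpos : 0 < 2 * Z ^ 2 - X ^ 2 := by
      have : 0 < Z ^ 2 := by positivity
      nlinarith [sq_nonneg w]
    rcases A3 with ⟨t, ht | ht, -⟩ | ⟨t, ht | ht, -⟩
    · rcases F Z w (X * t) (by linear_combination (Z ^ 2 + w ^ 2) * hw + (X ^ 2) * ht - X ^ 2 * hw) with h1 | h1
      · exact hw0 h1
      · rcases mul_eq_zero.mp h1 with h1 | h1
        · exact hX h1
        · rw [h1] at ht; exact hN (by rw [ht]; ring)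
    · nlinarith [sq_nonneg t]
    · have hX2 : X % 2 = 0 := by
        have pX := par2 X
        have pZ := par2 Z
        have pw := par2 w
        omega
      obtain ⟨Y, rfl⟩ : (2 : ℤ) ∣ X := by omega
      have hY : Y ≠ 0 := by rintro rfl; exact hX (by ring)
      have g1 : Z ^ 2 = t ^ 2 + 2 * Y ^ 2 := by nlinarith
      have g2 : w ^ 2 = t ^ 2 - 2 * Y ^ 2 := by nlinarith
      have ht0 : t ≠ 0 := by
        rintro rfl
        exact hN (by rw [ht]; ring)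
      refine not_fermat_42 (a := 2 * (t * Y)) (b := Z * w) (c := t ^ 4 + 4 * Y ^ 4) ?_ ?_ ?_
      · exact mul_ne_zero two_ne_zero (mul_ne_zero ht0 hY)
      · exact mul_ne_zero hZ hw0
      · have : (Z * w) ^ 4 = (Z ^ 2) ^ 2 * (w ^ 2) ^ 2 := by ring
        rw [this, g1, g2]; ring
    · nlinarith [sq_nonneg t]
  · -- case B
    have ht0 : ∀ t : ℤ, (2 * Z ^ 2 - X ^ 2 = t ^ 2 ∨ 2 * Z ^ 2 - X ^ 2 = -t ^ 2) → t ≠ 0 := by
      rintro t h rfl
      rcases h with h | h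
      · exact hN (by rw [h]; ring)
      · exact hN (by rw [h]; ring)
    have hnotboth : ¬ (X % 2 = 0 ∧ Z % 2 = 0) := by
      rintro ⟨h1, h2⟩
      have := hcop.isUnit_of_dvd' (Int.dvd_of_emod_eq_zero h1) (Int.dvd_of_emod_eq_zero h2)
      rw [Int.isUnit_iff] at this; omega
    rcases A3 with ⟨t, ht | ht, -⟩ | ⟨t, ht | ht, -⟩
    · have := ht0 t (Or.inl ht)
      have e3 : Z ^ 4 - w ^ 4 = (X * t) ^ 2 := by
        have g1 : X ^ 2 = Z ^ 2 + w ^ 2 := by linarith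
        have g2 : t ^ 2 = Z ^ 2 - w ^ 2 := by linarith
        rw [mul_pow, g1, g2]; ring
      rcases F Z w (X * t) e3 with h1 | h1
      · apply (show Z ^ 2 - X ^ 2 ≠ 0 from ?_)
        · rw [hw, h1]; ring
        · rw [show Z ^ 2 - X ^ 2 = (Z - X) * (Z + X) by ring]
          exact mul_ne_zero hZX hZX'
      · rcases mul_eq_zero.mp h1 with h1 | h1
        · exact hX h1
        · exact this h1
    · have := ht0 t (Or.inr ht)
      have e3 : w ^ 4 - Z ^ 4 = (X * t) ^ 2 := by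
        have g1 : X ^ 2 = Z ^ 2 + w ^ 2 := by linarith
        have g2 : t ^ 2 = w ^ 2 - Z ^ 2 := by linarith
        rw [mul_pow, g1, g2]; ring
      rcases F w Z (X * t) e3 with h1 | h1
      · exact hZ h1
      · rcases mul_eq_zero.mp h1 with h1 | h1
        · exact hX h1
        · exact this h1
    · have pX := par2 X
      have pZ := par2 Z
      have pw := par2 w
      omega
    · have pX := par2 X
      have pZ := par2 Z
      have pw := par2 w
      omega
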