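import Mathlib
open Polynomial

/-- The quintic is irreducible once it has no rational root and no quadratic factor. -/
theorem cub_T_irreducible (q : ℚ)
    (h1 : ∀ x : ℚ, x ^ 5 - x ^ 4 - 2 * x ^ 3 + 2 * x ^ 2 ≠ 2 * q ^ 2)
    (h2 : ∀ A B : ℚ, B ^ 2 - (3 * A ^ 2 + 2 * A - 2) * B - A * (1 + A) * (2 - A ^ 2) = 0 →
      B * (2 + B + 2 * A * B + 2 * A - A ^ 2 - A ^ 3) ≠ -2 * q ^ 2) :
    Irreducible (X ^ 5 - X ^ 4 - 2 * X ^ 3 + 2 * X ^ 2 - C (2 * q ^ 2) : ℚ[X]) := by
  obtain ⟨T, hT⟩ : ∃ T : ℚ[X], T = X ^ 5 - X ^ 4 - 2 * X ^ 3 + 2 * X ^ 2 - C (2 * q ^ 2) := ⟨_, rfl⟩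
  have hTc : ∀ n, T.coeff n = (if n = 5 then 1 else 0) - (if n = 4 then 1 else 0) -
      2 * (if n = 3 then 1 else 0) + 2 * (if n = 2 then 1 else 0) -
      (if n = 0 then 2 * q ^ 2 else 0) := by
    intro n
    have e2 : (2 : ℚ[X]) = C 2 := rfl
    rw [hT, e2]
    simp only [coeff_sub, coeff_add, coeff_C_mul, coeff_X_pow, coeff_C]
  have hdeg : T.natDegree = 5 := by
    rw [hT]; compute_degree!
  have hmon : T.Monic := by
    unfold Monic leadingCoeff
    rw [hdeg, hTc]; norm_num
  rw [← hT, hmon.irreducible_iff_natDegree']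
  refine ⟨?_, ?_⟩
  · intro h
    rw [h, natDegree_one] at hdeg
    omega
  · intro f g hf hg hfg hmem
    rw [hdeg, Finset.mem_Ioc] at hmem
    have hsum : f.natDegree + g.natDegree = 5 := by
      rw [← hdeg, ← hfg, hf.natDegree_mul hg]
    have hc : ∀ n, (f * g).coeff n = T.coeff n := fun n => by rw [hfg]
    have hcases : g.natDegree = 1 ∨ g.natDegree = 2 := by omega
    rcases hcases with hg1 | hg2
    · have hgx : g = X + C (g.coeff 0) := hg.eq_X_add_C hg1
      have hroot : T.eval (-(g.coeff 0)) = 0 := by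
        rw [← hfg, eval_mul]
        rw [hgx]
        simp
      rw [hT] at hroot
      simp only [eval_sub, eval_add, eval_mul, eval_pow, eval_X, eval_C, eval_ofNat] at hroot
      exact h1 _ (sub_eq_zero.1 hroot)
    · have hf3 : f.natDegree = 3 := by omega
      have g2 : g.coeff 2 = 1 := by rw [← hg2]; exact hg
      have f3 : f.coeff 3 = 1 := by rw [← hf3]; exact hf
      have gz : ∀ n, 3 ≤ n → g.coeff n = 0 := fun n hn =>
        coeff_eq_zero_of_natDegree_lt (by omega)
      have fz : ∀ n, 4 ≤ n → f.coeff n = 0 := fun n hn =>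
        coeff_eq_zero_of_natDegree_lt (by omega)
      have c0 := hc 0
      have c1 := hc 1
      have c2 := hc 2
      have c3 := hc 3
      have c4 := hc 4
      rw [hTc] at c0 c1 c2 c3 c4
      rw [coeff_mul] at c0 c1 c2 c3 c4
      simp only [Finset.Nat.antidiagonal_succ, Finset.Nat.antidiagonal_zero, Finset.map_singleton,
        Finset.sum_cons, Finset.map_cons, Finset.sum_singleton,
        Function.Embedding.prodMap, Function.Embedding.coeFn_mk, Prod.map] at c0 c1 c2 c3 c4
      norm_num [g2, f3, gz 3, gz 4, fz 4] at c0 c1 c2 c3 c4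
      have hC : f.coeff 2 = -1 - g.coeff 1 := by linarith
      have hD : f.coeff 1 = -2 + g.coeff 1 + g.coeff 1 ^ 2 - g.coeff 0 := by
        rw [hC] at c3; linear_combination c3
      have hE : f.coeff 0 = 2 + g.coeff 0 + 2 * g.coeff 1 * g.coeff 0 + 2 * g.coeff 1 -
          g.coeff 1 ^ 2 - g.coeff 1 ^ 3 := by
        rw [hC, hD] at c2; linear_combination c2
      refine h2 (g.coeff 1) (g.coeff 0) ?_ ?_
      · rw [hD, hE] at c1
        linear_combination -c1
      · rw [hE] at c0
        linear_combination c0
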