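import Pool.Agent.Helper653.CubGauss
import Pool.Agent.Helper653.CubFermat
import Pool.Agent.Helper653.CubRoot
import Pool.Agent.Helper653.CubQuad
import Pool.Agent.Helper653.CubT

open Polynomial

namespace Pool.Helper653.Cub

lemma odd_den {a b : ℕ} (hab : a.Coprime b) (ha : 0 < a) (hb : 0 < b) :
    Odd (2 * (a : ℚ) * b / ((a : ℚ) ^ 2 + (b : ℚ) ^ 2)).den := by
  set q : ℚ := 2 * (a : ℚ) * b / ((a : ℚ) ^ 2 + (b : ℚ) ^ 2) with hq
  have ha' : (0 : ℚ) < a := by exact_mod_cast ha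
  have hb' : (0 : ℚ) < b := by exact_mod_cast hb
  have hpos : (0 : ℚ) < (a : ℚ) ^ 2 + (b : ℚ) ^ 2 := by positivity
  have h1 : q * ((a : ℚ) ^ 2 + (b : ℚ) ^ 2) = 2 * a * b := by
    rw [hq]; field_simp
  have h2 : (q.num : ℚ) * ((a : ℚ) ^ 2 + (b : ℚ) ^ 2) = 2 * a * b * q.den := by
    have h3 : (q.num : ℚ) = q * q.den := (Rat.mul_den_eq_num q).symm
    rw [h3, ← h1]; ring
  have h3 : q.num * ((a : ℤ) ^ 2 + (b : ℤ) ^ 2) = 2 * a * b * q.den := by exact_mod_cast h2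
  by_contra hden
  rw [Nat.not_odd_iff_even] at hden
  obtain ⟨k, hk⟩ := hden
  have hnum : Odd q.num := by
    by_contra hnum
    rw [Int.not_odd_iff_even] at hnum
    have hcop := q.reduced
    have h5 : 2 ∣ q.num.natAbs := by
      rw [← Int.natCast_dvd]; exact hnum.two_dvd
    have h6 : 2 ∣ q.den := ⟨k, by omega⟩
    have := Nat.dvd_gcd h5 h6
    rw [hcop] at this
    omega
  have h4 : (4 : ℤ) ∣ q.num * ((a : ℤ) ^ 2 + (b : ℤ) ^ 2) := by
    rw [h3, hk]; push_cast; exact ⟨a * b * k, by ring⟩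
  have h5 : IsCoprime (4 : ℤ) q.num := by
    obtain ⟨m, hm⟩ := hnum
    have : IsCoprime (2 : ℤ) q.num := ⟨-m, 1, by rw [hm]; ring⟩
    have h2 := this.pow_left (m := 2)
    norm_num at h2
    exact h2
  have h6 : (4 : ℤ) ∣ (a : ℤ) ^ 2 + (b : ℤ) ^ 2 := h5.dvd_of_dvd_mul_left h4
  have h7 : Even (a : ℤ) ∧ Even (b : ℤ) := by
    rcases Int.even_or_odd (a : ℤ) with ⟨x, hx⟩ | ⟨x, hx⟩ <;>
      rcases Int.even_or_odd (b : ℤ) with ⟨y, hy⟩ | ⟨y, hy⟩
    · exact ⟨⟨x, hx⟩, ⟨y, hy⟩⟩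
    · exfalso
      rw [hx, hy] at h6
      have : (x + x) ^ 2 + (2 * y + 1) ^ 2 = 4 * (x ^ 2 + y ^ 2 + y) + 1 := by ring
      omega
    · exfalso
      rw [hx, hy] at h6
      have : (2 * x + 1) ^ 2 + (y + y) ^ 2 = 4 * (x ^ 2 + y ^ 2 + x) + 1 := by ring
      omega
    · exfalso
      rw [hx, hy] at h6
      have : (2 * x + 1) ^ 2 + (2 * y + 1) ^ 2 = 4 * (x ^ 2 + y ^ 2 + x + y) + 2 := by ring
      omega
  obtain ⟨h8, h9⟩ := h7
  have h10 : 2 ∣ a := by exact_mod_cast h8.two_dvd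
  have h11 : 2 ∣ b := by exact_mod_cast h9.two_dvd
  have := Nat.dvd_gcd h10 h11
  rw [hab] at this
  omega

theorem quintic_irreducible {a b : ℕ} (hab : a.Coprime b) (ha : 0 < a) (hb : 0 < b) (hne : a ≠ b) :
    Irreducible (X ^ 5 - X ^ 4 - 2 * X ^ 3 + 2 * X ^ 2
      - C (2 * (2 * (a : ℚ) * b / ((a : ℚ) ^ 2 + (b : ℚ) ^ 2)) ^ 2) : ℚ[X]) := by
  have hden := odd_den hab ha hb
  have ha' : (0 : ℚ) < a := by exact_mod_cast ha
  have hb' : (0 : ℚ) < b := by exact_mod_cast hb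
  have hpos : (0 : ℚ) < (a : ℚ) ^ 2 + (b : ℚ) ^ 2 := by positivity
  have hv : ((b : ℚ) ^ 2 - (a : ℚ) ^ 2) / ((a : ℚ) ^ 2 + (b : ℚ) ^ 2) ≠ 0 := by
    apply div_ne_zero _ hpos.ne'
    intro h
    have h1 : (b : ℚ) ^ 2 = (a : ℚ) ^ 2 := by linarith
    have h2 : (b : ℚ) = a := by
      rcases sq_eq_sq_iff_eq_or_eq_neg.1 h1 with h | h
      · exact h
      · linarith
    exact hne (by exact_mod_cast h2.symm)
  have hqv : (2 * (a : ℚ) * b / ((a : ℚ) ^ 2 + (b : ℚ) ^ 2)) ^ 2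
      + (((b : ℚ) ^ 2 - (a : ℚ) ^ 2) / ((a : ℚ) ^ 2 + (b : ℚ) ^ 2)) ^ 2 = 1 := by
    field_simp; ring
  have hq0 : 2 * (a : ℚ) * b / ((a : ℚ) ^ 2 + (b : ℚ) ^ 2) ≠ 0 := by positivity
  generalize 2 * (a : ℚ) * b / ((a : ℚ) ^ 2 + (b : ℚ) ^ 2) = q at *
  apply cub_T_irreducible
  · exact cub_no_root cub_fermat_sub q _ hq0 hv hqv
  · intro A B h1 h2
    obtain ⟨x, c, d, hx0, hc, hxc, hA, hd⟩ := cub_quad q A B hq0 hden h1 h2
    have hsq := gauss_main x c d hx0 hc hxc hd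
    have hA1 : A = -1 := by
      have hc0 : (c : ℚ) ≠ 0 := by
        obtain ⟨m, hm⟩ := hc
        have : c ≠ 0 := by omega
        exact_mod_cast this
      have hsq' : (x : ℚ) ^ 2 = (c : ℚ) ^ 2 := by exact_mod_cast congrArg (Int.cast : ℤ → ℚ) hsq
      rw [hA, div_pow, hsq', div_self (pow_ne_zero 2 hc0)]
    rw [hA1] at h1 h2
    have h3 : B * (B + 1) = 0 := by linear_combination h1
    rcases mul_eq_zero.1 h3 with h4 | h4
    · rw [h4] at h2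
      apply hq0
      have : q ^ 2 = 0 := by linarith
      exact pow_eq_zero_iff (by norm_num) |>.1 this
    · have h5 : B = -1 := by linarith
      rw [h5] at h2
      have h6 : q ^ 2 = 1 / 2 := by linarith
      have h7 : (2 * q) ^ 2 = 2 := by rw [mul_pow, h6]; norm_num
      have h8 : IsSquare ((2 : ℕ) : ℚ) := ⟨2 * q, by rw [← pow_two, h7]; norm_num⟩
      rw [Rat.isSquare_natCast_iff] at h8
      obtain ⟨r, hr⟩ := h8
      have h9 : r ≤ 1 := by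
        by_contra h10
        have : 2 ≤ r := by omega
        nlinarith
      interval_cases r <;> omega

end Pool.Helper653.Cub
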