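import Pool.Agent.Helper653.CubSplit

set_option linter.unnecessarySeqFocus false

namespace Pool.Helper653.Cub

lemma unit_mod4 {u s W : G} (hu : IsUnit u) (hs : s = 1 ∨ s = -1) (h : u = s + 4 * W) : u = s := by
  have h1 := congrArg Zsqrtd.re h
  have h2 := congrArg Zsqrtd.im h
  rcases unit_cases hu with rfl | rfl | rfl | rfl <;> rcases hs with rfl | rfl <;>
    simp at h1 h2 <;> first | rfl | (exfalso; omega)

lemma unit_mod4' {u s W : G} (hu : IsUnit u) (hs : s = 1 ∨ s = -1)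
    (h : u * (1 + 2 * i) = s + 4 * W) : False := by
  have h1 := congrArg Zsqrtd.re h
  have h2 := congrArg Zsqrtd.im h
  rcases unit_cases hu with rfl | rfl | rfl | rfl <;> rcases hs with rfl | rfl <;>
    simp at h1 h2 <;> omega

lemma i_ne : i ≠ 0 := by
  intro h
  have := congrArg Zsqrtd.im h
  simp at this

lemma not_p_dvd_i : ¬ p ∣ i := by
  rw [p_dvd_iff]; simp

lemma unit_i : IsUnit i := by
  refine ⟨⟨i, -i, ?_, ?_⟩, rfl⟩ <;> · have := i_sq; linear_combination -this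

lemma p_dvd_of_p_sq_dvd_mul {n : ℕ} {A B : G} (hA : ¬ p ∣ A) (h : p ^ n ∣ A * B) : p ^ n ∣ B :=
  prime_p.pow_dvd_of_dvd_mul_left n hA h

/-- first step of the descent `L1` -/
lemma L1_step1 {M e1 N : G} (hM : ¬ p ∣ M) (hc : IsCoprime M e1) (h0 : e1 ≠ 0) (h2 : p ^ 2 ∣ e1)
    (h : N ^ 2 = M ^ 4 + 4 * i * M ^ 2 * e1 ^ 2 - 8 * (1 + 2 * i) * e1 ^ 4) :
    ∃ M' A B κ : G, IsUnit κ ∧ κ * e1 = A * B ∧ ¬ p ∣ A ∧ IsCoprime A B ∧
      M' ^ 2 = A ^ 4 - 2 * i * A ^ 2 * B ^ 2 + (1 + 4 * i) * B ^ 4 := by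
  have hi := i_sq
  have hp2 := p_sq
  set S : G := M ^ 2 + 2 * i * e1 ^ 2 with hS
  have h3 : (S - N) * (S + N) = 4 * ((1 + 4 * i) * e1 ^ 4) := by
    have : S ^ 2 - N ^ 2 = 4 * ((1 + 4 * i) * e1 ^ 4) := by
      rw [h, hS]; linear_combination (4 * e1 ^ 4) * hi
    linear_combination this
  obtain ⟨⟨X, hX⟩, ⟨Y, hY⟩⟩ := halve (x := S - N) (y := S + N) ⟨_, h3⟩ ⟨-N, by ring⟩
  have hXY : X * Y = (1 + 4 * i) * e1 ^ 4 := by
    rw [hX, hY] at h3
    have h4 : (4 : G) * (X * Y) = 4 * ((1 + 4 * i) * e1 ^ 4) := by linear_combination h3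
    exact mul_left_cancel₀ (by
      intro h5
      have := congrArg Zsqrtd.re h5
      simp at this) h4
  have hXYS : X + Y = S := by
    apply mul_left_cancel₀ two_ne
    linear_combination -hX - hY
  have hcop : IsCoprime X Y := by
    refine coprime_halves (T := -2 * i * e1) prime17 hXY h0 (S := S) ?_ ?_ hc
    · intro r h1 h2
      rw [← hXYS]; exact dvd_add h1 h2
    · rw [hS]; ring
  obtain ⟨u, v, A, B, huv, hSum, heq, hAB⟩ := split_sum prime17 hcop hXY h0 hXYS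
  have hu : IsUnit u := IsUnit.of_mul_eq_one _ huv
  have hv : IsUnit v := IsUnit.of_mul_eq_one _ (by rw [mul_comm]; exact huv)
  have hMeq : M ^ 2 = u * A ^ 4 + v * (1 + 4 * i) * B ^ 4 - 2 * i * A ^ 2 * B ^ 2 := by
    rw [← hSum, hS, heq]; ring
  obtain ⟨t, ht⟩ := sq_odd hM
  obtain ⟨s, hs, hMs⟩ : ∃ s : G, (s = 1 ∨ s = -1) ∧ M ^ 2 = s + 4 * p * t := by
    rcases ht with ht | ht
    · exact ⟨1, Or.inl rfl, ht⟩
    · exact ⟨-1, Or.inr rfl, ht⟩
  by_cases hpA : p ∣ A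
  · exfalso
    have hpB : ¬ p ∣ B := fun hpB => prime_p.not_isUnit (hAB.isUnit_of_dvd' hpA hpB)
    have h4 : p ^ 2 ∣ A := by
      rw [heq, mul_comm] at h2
      exact p_dvd_of_p_sq_dvd_mul hpB h2
    obtain ⟨A', rfl⟩ := h4
    obtain ⟨b, hb⟩ := four_odd hpB
    -- M^2 = v (1+4i) + 8 W
    have h5 : M ^ 2 = v * (1 + 4 * i) + 8 * (2 * u * A' ^ 4 + v * (1 + 4 * i) * p * b + i * A' ^ 2 * B ^ 2) := by
      rw [hMeq, hb]
      have e1 : p ^ 4 = -4 := p_four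
      linear_combination (u * A' ^ 4 * (p ^ 4 - 4) - 2 * i * A' ^ 2 * B ^ 2) * e1
    set W := 2 * u * A' ^ 4 + v * (1 + 4 * i) * p * b + i * A' ^ 2 * B ^ 2
    have h6 : v = s := by
      apply unit_mod4 hv hs (W := p * t - i * v - 2 * W)
      linear_combination hMs - h5
    have h7 : 4 * p * t = 4 * i * s + 8 * W := by
      rw [h6] at h5
      linear_combination h5 - hMs
    have h8 := congrArg Zsqrtd.re h7
    have h9 := congrArg Zsqrtd.im h7
    rcases hs with rfl | rfl <;> simp at h8 h9 <;> omega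
  · have h4 : p ^ 2 ∣ B := by
      rw [heq] at h2
      exact p_dvd_of_p_sq_dvd_mul hpA h2
    obtain ⟨B', hB'⟩ := h4
    obtain ⟨a, ha⟩ := four_odd hpA
    have h6 : u = s := by
      apply unit_mod4 hu hs (W := p * t - u * 2 * p * a - 4 * v * (1 + 4 * i) * B' ^ 4 - 2 * i * A ^ 2 * B' ^ 2)
      have e1 : p ^ 4 = -4 := p_four
      rw [ha, hB'] at hMeq
      linear_combination hMs - hMeq - (v * (1 + 4 * i) * B' ^ 4 * (p ^ 4 - 4) - 2 * i * A ^ 2 * B' ^ 2) * e1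
    have h7 : v = s := by
      rw [h6] at huv
      rcases hs with rfl | rfl
      · simpa using huv
      · linear_combination -huv
    rcases hs with rfl | rfl
    · refine ⟨M, A, B, 1, isUnit_one, by rw [heq]; ring, hpA, hAB, ?_⟩
      rw [hMeq, h6, h7]; ring
    · refine ⟨i * M, A, i * B, i, unit_i, by rw [heq]; ring, hpA, ?_, ?_⟩
      · exact (isCoprime_mul_unit_left_right unit_i A B).2 hAB
      · rw [mul_pow, hMeq, h6, h7]
        have hi4 : i ^ 4 = 1 := by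
          have : i ^ 4 = (i ^ 2) ^ 2 := by ring
          rw [this, hi]; ring
        linear_combination (-A ^ 4 + (-1) * (1 + 4 * i) * B ^ 4 - 2 * i * A ^ 2 * B ^ 2 + 2 * i * A ^ 2 * B ^ 2) * hi - (1 + 4 * i) * B ^ 4 * hi4


lemma four_ne : (4 : G) ≠ 0 := by
  intro h5
  have := congrArg Zsqrtd.re h5
  simp at this

lemma halves8 {P M R : G} (hP : ¬ p ∣ P) (h : P ^ 2 - M ^ 2 = 8 * R) :
    ∃ X Y : G, ¬ p ∣ X ∧ X + 2 * Y = P ∧ X * Y = R := by
  have hi := i_sq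
  have hp2 := p_sq
  have h3 : (P - M) * (P + M) = 8 * R := by linear_combination h
  obtain ⟨⟨X, hX⟩, ⟨Y, hY⟩⟩ := halve (x := P - M) (y := P + M) ⟨2 * R, by rw [h3]; ring⟩ ⟨-M, by ring⟩
  have hXY : X * Y = 2 * R := by
    rw [hX, hY] at h3
    exact mul_left_cancel₀ four_ne (by linear_combination h3)
  have hS : X + Y = P := by
    apply mul_left_cancel₀ two_ne
    linear_combination -hX - hY
  have hdvd : p ^ 2 ∣ X * Y := by
    rw [hXY]; exact ⟨-i * R, by linear_combination (i * R) * hp2 + (2 * R) * hi⟩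
  have key : ∀ X Y : G, X * Y = 2 * R → X + Y = P → p ^ 2 ∣ X * Y → ¬ p ∣ X →
      ∃ X Y : G, ¬ p ∣ X ∧ X + 2 * Y = P ∧ X * Y = R := by
    intro X Y hXY hS hdvd hX
    obtain ⟨Y', rfl⟩ := p_dvd_of_p_sq_dvd_mul hX hdvd
    refine ⟨X, i * Y', hX, ?_, ?_⟩
    · rw [← hS]; linear_combination (-Y') * hp2
    · apply mul_left_cancel₀ two_ne
      linear_combination hXY - (X * Y') * hp2
  by_cases hpX : p ∣ X
  · have hpY : ¬ p ∣ Y := by
      intro h4
      exact hP (hS ▸ dvd_add hpX h4)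
    exact key Y X (by rw [mul_comm]; exact hXY) (by rw [add_comm]; exact hS) (by rw [mul_comm]; exact hdvd) hpY
  · exact key X Y hXY hS hdvd hpX

/-- second step of the descent `L1` -/
lemma L1_step2 {A B2 M' : G} (hA : ¬ p ∣ A) (hc : IsCoprime A B2) (h0 : B2 ≠ 0) (h2 : p ∣ B2)
    (h : M' ^ 2 = A ^ 4 - 2 * i * A ^ 2 * (p * B2) ^ 2 + (1 + 4 * i) * (p * B2) ^ 4) :
    ∃ N C D κ : G, IsUnit κ ∧ B2 = C * D ∧ ¬ p ∣ C ∧ IsCoprime C D ∧
      N ^ 2 = C ^ 4 + 2 * C ^ 2 * (κ * D) ^ 2 + 2 * (1 + 2 * i) * (κ * D) ^ 4 := by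
  have hi := i_sq
  have hp2 := p_sq
  have hp4 := p_four
  set P : G := A ^ 2 + 2 * B2 ^ 2 with hP
  have hPo : ¬ p ∣ P := by
    intro h3
    have h4 : p ∣ A ^ 2 := by
      have : A ^ 2 = P - 2 * B2 ^ 2 := by rw [hP]; ring
      rw [this]
      exact dvd_sub h3 (p_dvd_two.mul_right _)
    exact hA (prime_p.dvd_of_dvd_pow h4)
  have h3 : P ^ 2 - M' ^ 2 = 8 * ((1 + 2 * i) * B2 ^ 4) := by
    rw [h, hP]
    linear_combination (2 * i * A ^ 2 * B2 ^ 2) * hp2 - ((1 + 4 * i) * B2 ^ 4) * hp4 + (4 * A ^ 2 * B2 ^ 2) * hi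
  obtain ⟨X, Y, hXo, hXY, hR⟩ := halves8 hPo h3
  have hcop : IsCoprime X Y := by
    refine coprime_halves (M := A) (T := -2 * B2) prime5 hR h0 (S := P) ?_ ?_ hc
    · intro r h1 h2
      rw [← hXY]; exact dvd_add h1 (h2.mul_left 2)
    · rw [hP]; ring
  obtain ⟨t, ht⟩ := sq_odd hA
  obtain ⟨s, hs, hAs⟩ : ∃ s : G, (s = 1 ∨ s = -1) ∧ A ^ 2 = s + 4 * p * t := by
    rcases ht with ht | ht
    · exact ⟨1, Or.inl rfl, ht⟩
    · exact ⟨-1, Or.inr rfl, ht⟩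
  rcases split_prime prime5 hcop hR h0 with ⟨u, v, C, D, huv, hX, hY, heq, hCD⟩ | ⟨u, v, C, D, huv, hX, hY, heq, hCD⟩
  · have hu : IsUnit u := IsUnit.of_mul_eq_one _ huv
    have hCo : ¬ p ∣ C := by
      intro h4
      exact hXo (by rw [hX]; exact (h4.pow (by norm_num)).mul_left u)
    obtain ⟨D', rfl⟩ : p ∣ D := by
      rw [heq] at h2
      exact (prime_p.dvd_or_dvd h2).resolve_left hCo
    obtain ⟨c, hc4⟩ := four_odd hCo
    have hA2 : A ^ 2 = u * C ^ 4 + 2 * v * (1 + 2 * i) * (p * D') ^ 4 - 2 * C ^ 2 * (p * D') ^ 2 := by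
      have : P = u * C ^ 4 + 2 * (v * (1 + 2 * i) * (p * D') ^ 4) := by rw [← hXY, hX, hY]
      rw [hP, heq] at this
      linear_combination this
    have h6 : u = s := by
      apply unit_mod4 hu hs (W := p * t - u * 2 * p * c + 2 * v * (1 + 2 * i) * D' ^ 4 + i * C ^ 2 * D' ^ 2)
      linear_combination hAs - hA2 - u * hc4 - (2 * v * (1 + 2 * i) * D' ^ 4) * hp4 + (2 * C ^ 2 * D' ^ 2) * hp2
    have h7 : v = s := by
      rw [h6] at huv
      rcases hs with rfl | rfl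
      · simpa using huv
      · linear_combination -huv
    have hi4 : i ^ 4 = 1 := by
      have : i ^ 4 = (i ^ 2) ^ 2 := by ring
      rw [this, hi]; ring
    rcases hs with rfl | rfl
    · refine ⟨A, C, p * D', i, unit_i, heq, hCo, hCD, ?_⟩
      rw [hA2, h6, h7]
      linear_combination (-2 * C ^ 2 * (p * D') ^ 2) * hi - (2 * (1 + 2 * i) * (p * D') ^ 4) * hi4
    · refine ⟨i * A, C, p * D', 1, isUnit_one, heq, hCo, hCD, ?_⟩
      rw [mul_pow, hA2, h6, h7]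
      linear_combination (- C ^ 4 - 2 * (1 + 2 * i) * (p * D') ^ 4 - 2 * C ^ 2 * (p * D') ^ 2) * hi
  · exfalso
    have hu : IsUnit u := IsUnit.of_mul_eq_one _ huv
    have hCo : ¬ p ∣ C := by
      intro h4
      exact hXo (by rw [hX]; exact (h4.pow (by norm_num)).mul_left _)
    obtain ⟨D', rfl⟩ : p ∣ D := by
      rw [heq] at h2
      exact (prime_p.dvd_or_dvd h2).resolve_left hCo
    obtain ⟨c, hc4⟩ := four_odd hCo
    have hA2 : A ^ 2 = u * (1 + 2 * i) * C ^ 4 + 2 * v * (p * D') ^ 4 - 2 * C ^ 2 * (p * D') ^ 2 := by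
      have : P = u * (1 + 2 * i) * C ^ 4 + 2 * (v * (p * D') ^ 4) := by rw [← hXY, hX, hY]
      rw [hP, heq] at this
      linear_combination this
    apply unit_mod4' hu hs (W := p * t - u * (1 + 2 * i) * 2 * p * c + 2 * v * D' ^ 4 + i * C ^ 2 * D' ^ 2)
    linear_combination hAs - hA2 - u * (1 + 2 * i) * hc4 - (2 * v * D' ^ 4) * hp4 + (2 * C ^ 2 * D' ^ 2) * hp2


lemma sq_odd' {z : G} (h : ¬ p ∣ z) : ∃ s t : G, (s = 1 ∨ s = -1) ∧ z ^ 2 = s + 4 * p * t := by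
  obtain ⟨t, ht | ht⟩ := sq_odd h
  · exact ⟨1, t, Or.inl rfl, ht⟩
  · exact ⟨-1, t, Or.inr rfl, ht⟩

lemma L1_base {M e1 N : G} (hM : ¬ p ∣ M) (he : ¬ p ∣ e1)
    (h : N ^ 2 = M ^ 4 + 4 * i * M ^ 2 * e1 ^ 2 - 8 * (1 + 2 * i) * e1 ^ 4) : False := by
  have hNo : ¬ p ∣ N := by
    intro h4
    have h5 : p ∣ M ^ 4 := by
      have : M ^ 4 = N * N - 2 * (2 * i * M ^ 2 * e1 ^ 2 - 4 * (1 + 2 * i) * e1 ^ 4) := by
        linear_combination -h
      rw [this]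
      exact dvd_sub (h4.mul_right _) (p_dvd_two.mul_right _)
    exact hM (prime_p.dvd_of_dvd_pow h5)
  obtain ⟨s, t, hs, hNs⟩ := sq_odd' hNo
  obtain ⟨s', t', hs', hMs⟩ := sq_odd' (odd_mul hM he)
  obtain ⟨m, hm⟩ := four_odd hM
  set W := (1 + 2 * i) * e1 ^ 4 with hW
  have h1 : s + 4 * p * t = 1 + 8 * p * m + 4 * i * (s' + 4 * p * t') - 8 * W := by
    rw [← hNs, ← hMs, ← hm, h, hW]; ring
  have h8 := congrArg Zsqrtd.re h1
  have h9 := congrArg Zsqrtd.im h1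
  rcases hs with rfl | rfl <;> rcases hs' with rfl | rfl <;> simp at h8 h9 <;> omega

theorem L1 (k : ℕ) : ∀ (M e' N : G), ¬ p ∣ M → ¬ p ∣ e' → IsCoprime M (p ^ (2 * k + 1) * e') →
    N ^ 2 = M ^ 4 + 2 * M ^ 2 * (p ^ (2 * k + 1) * e') ^ 2 + 2 * (1 + 2 * i) * (p ^ (2 * k + 1) * e') ^ 4 →
    False := by
  have hp2 := p_sq
  have hp4 := p_four
  induction k with
  | zero =>
    intro M e' N hM he' hc h
    apply L1_base (M := M) (e1 := e') (N := N) hM he'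
    rw [h]
    linear_combination (2 * M ^ 2 * e' ^ 2) * hp2 + (2 * (1 + 2 * i) * e' ^ 4) * hp4
  | succ k ih =>
    intro M e' N hM he' hc h
    have he0 : e' ≠ 0 := fun h0 => he' (h0 ▸ dvd_zero p)
    set e1 : G := p ^ (2 * k + 2) * e' with he1
    have hee : p ^ (2 * (k + 1) + 1) * e' = p * e1 := by rw [he1]; ring
    rw [hee] at hc h
    have hc1 : IsCoprime M e1 := hc.of_isCoprime_of_dvd_right ⟨p, by ring⟩
    have h01 : e1 ≠ 0 := mul_ne_zero (pow_ne_zero _ p_ne_zero) he0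
    have h2 : p ^ 2 ∣ e1 := ⟨p ^ (2 * k) * e', by rw [he1]; ring⟩
    obtain ⟨M', A, B, κ, hκ, hκe, hA, hAB, h3⟩ := L1_step1 (N := N) hM hc1 h01 h2 (by
      rw [h]
      linear_combination (2 * M ^ 2 * e1 ^ 2) * hp2 + (2 * (1 + 2 * i) * e1 ^ 4) * hp4)
    have h4 : p ^ (2 * k + 2) ∣ A * B := by
      rw [← hκe, he1]; exact ⟨κ * e', by ring⟩
    obtain ⟨B', hB'⟩ := p_dvd_of_p_sq_dvd_mul hA h4
    have h5 : κ * e' = A * B' := by
      apply mul_left_cancel₀ (pow_ne_zero (2 * k + 2) p_ne_zero)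
      rw [he1, hB'] at hκe
      linear_combination hκe
    have hκo : ¬ p ∣ κ := fun h6 => prime_p.not_isUnit (isUnit_of_dvd_unit h6 hκ)
    have hB'o : ¬ p ∣ B' := by
      intro h6
      have : p ∣ κ * e' := by rw [h5]; exact h6.mul_left A
      exact odd_mul hκo he' this
    set B2 : G := p ^ (2 * k + 1) * B' with hB2
    have hBB2 : B = p * B2 := by rw [hB', hB2]; ring
    have hB'0 : B' ≠ 0 := fun h0 => hB'o (h0 ▸ dvd_zero p)
    obtain ⟨N', C, D, κ', hκ', hCD, hC, hcCD, h6⟩ := L1_step2 (A := A) (B2 := B2) (M' := M') hA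
      (hAB.of_isCoprime_of_dvd_right ⟨p, by rw [hBB2]; ring⟩)
      (mul_ne_zero (pow_ne_zero _ p_ne_zero) hB'0) ⟨p ^ (2 * k) * B', by rw [hB2]; ring⟩
      (by rw [h3, hBB2])
    have h7 : p ^ (2 * k + 1) ∣ C * D := by rw [← hCD, hB2]; exact ⟨B', rfl⟩
    obtain ⟨D', hD'⟩ := p_dvd_of_p_sq_dvd_mul hC h7
    have h8 : B' = C * D' := by
      apply mul_left_cancel₀ (pow_ne_zero (2 * k + 1) p_ne_zero)
      rw [hB2, hD'] at hCD
      linear_combination hCD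
    have hD'o : ¬ p ∣ D' := by
      intro h9
      exact hB'o (by rw [h8]; exact h9.mul_left C)
    have hκ'o : ¬ p ∣ κ' := fun h6 => prime_p.not_isUnit (isUnit_of_dvd_unit h6 hκ')
    have hrw : κ' * D = p ^ (2 * k + 1) * (κ' * D') := by rw [hD']; ring
    rw [hrw] at h6
    refine ih C (κ' * D') N' hC (odd_mul hκ'o hD'o) ?_ h6
    rw [← hrw]
    exact (isCoprime_mul_unit_left_right hκ' C D).2 hcCD

end Pool.Helper653.Cub
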