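import Pool.Agent.Helper653.CubBasic

set_option linter.unnecessarySeqFocus false

namespace Pool.Helper653.Cub

lemma split4 {X Y e : G} (hc : IsCoprime X Y) (h : X * Y = e ^ 4) (he : e ≠ 0) :
    ∃ u v A B : G, u * v = 1 ∧ X = u * A ^ 4 ∧ Y = v * B ^ 4 ∧ e = A * B ∧ IsCoprime A B := by
  obtain ⟨d, u, hu⟩ := exists_associated_pow_of_mul_eq_pow' hc h
  have hd : d ^ 4 ∣ e ^ 4 := by
    rw [← h, ← hu]; exact ⟨u * Y, by ring⟩
  have hd0 : d ≠ 0 := by
    rintro rfl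
    simp at hu
    rw [← hu] at h
    rw [zero_mul] at h
    exact he (pow_eq_zero_iff (by norm_num) |>.1 h.symm)
  rw [IsIntegrallyClosed.pow_dvd_pow_iff (by norm_num)] at hd
  obtain ⟨B, rfl⟩ := hd
  have h1 : d ^ 4 * (u * Y) = d ^ 4 * B ^ 4 := by
    rw [← mul_pow, ← h, ← hu]; ring
  have h2 : (u : G) * Y = B ^ 4 := mul_left_cancel₀ (pow_ne_zero 4 hd0) h1
  have huv : (u : G) * (↑u⁻¹ : G) = 1 := u.mul_inv
  refine ⟨u, (↑u⁻¹ : G), d, B, huv, by rw [← hu]; ring, ?_, rfl, ?_⟩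
  · rw [← h2]
    linear_combination (-Y) * huv
  · have hdX : d ∣ X := by
      rw [← hu]; exact ⟨d ^ 3 * u, by ring⟩
    have hBY : B ∣ Y := by
      have : Y = B * (B ^ 3 * (↑u⁻¹ : G)) := by
        linear_combination (-Y) * huv + (↑u⁻¹ : G) * h2
      exact ⟨_, this⟩
    exact (hc.of_isCoprime_of_dvd_left hdX).of_isCoprime_of_dvd_right hBY

lemma split_prime {q X Y e : G} (hq : Prime q) (hc : IsCoprime X Y) (h : X * Y = q * e ^ 4)
    (he : e ≠ 0) :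
    (∃ u v A B : G, u * v = 1 ∧ X = u * A ^ 4 ∧ Y = v * q * B ^ 4 ∧ e = A * B ∧ IsCoprime A B) ∨
    (∃ u v A B : G, u * v = 1 ∧ X = u * q * A ^ 4 ∧ Y = v * B ^ 4 ∧ e = A * B ∧ IsCoprime A B) := by
  have h1 : q ∣ X * Y := ⟨e ^ 4, h⟩
  rcases hq.dvd_or_dvd h1 with ⟨X', rfl⟩ | ⟨Y', rfl⟩
  · right
    have h2 : X' * Y = e ^ 4 := by
      apply mul_left_cancel₀ hq.ne_zero
      rw [← h]; ring
    have hc' : IsCoprime X' Y := hc.of_isCoprime_of_dvd_left ⟨q, by ring⟩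
    obtain ⟨u, v, A, B, huv, hX, hY, heq, hAB⟩ := split4 hc' h2 he
    exact ⟨u, v, A, B, huv, by rw [hX]; ring, hY, heq, hAB⟩
  · left
    have h2 : X * Y' = e ^ 4 := by
      apply mul_left_cancel₀ hq.ne_zero
      rw [← h]; ring
    have hc' : IsCoprime X Y' := hc.of_isCoprime_of_dvd_right ⟨q, by ring⟩
    obtain ⟨u, v, A, B, huv, hX, hY, heq, hAB⟩ := split4 hc' h2 he
    exact ⟨u, v, A, B, huv, hX, by rw [hY]; ring, heq, hAB⟩

/-- symmetric form of the splitting, for the sum -/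
lemma split_sum {q X Y e S : G} (hq : Prime q) (hc : IsCoprime X Y) (h : X * Y = q * e ^ 4)
    (he : e ≠ 0) (hS : X + Y = S) :
    ∃ u v A B : G, u * v = 1 ∧ S = u * A ^ 4 + v * q * B ^ 4 ∧ e = A * B ∧ IsCoprime A B := by
  rcases split_prime hq hc h he with ⟨u, v, A, B, huv, hX, hY, heq, hAB⟩ | ⟨u, v, A, B, huv, hX, hY, heq, hAB⟩
  · exact ⟨u, v, A, B, huv, by rw [← hS, hX, hY], heq, hAB⟩
  · exact ⟨v, u, B, A, by rw [mul_comm]; exact huv, by rw [← hS, hX, hY]; ring, by rw [heq]; ring, hAB.symm⟩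

lemma sq_dvd_prime_mul {r q e : G} (hr : Prime r) (hq : Prime q) (h : r ^ 2 ∣ q * e ^ 4) : r ∣ e := by
  have h1 : r ∣ q * e ^ 4 := (dvd_pow_self r (by norm_num)).trans h
  rcases hr.dvd_or_dvd h1 with hrq | hre
  · obtain ⟨c, hc⟩ := hrq
    have hcu : IsUnit c := by
      rcases hq.irreducible.isUnit_or_isUnit hc with h2 | h2
      · exact absurd h2 hr.not_isUnit
      · exact h2
    rw [hc] at h
    have h3 : r ∣ c * e ^ 4 := by
      obtain ⟨k, hk⟩ := h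
      refine ⟨k, ?_⟩
      apply mul_left_cancel₀ hr.ne_zero
      linear_combination hk
    rcases hr.dvd_or_dvd h3 with h4 | h4
    · exact absurd (isUnit_of_dvd_unit h4 hcu) hr.not_isUnit
    · exact hr.dvd_of_dvd_pow h4
  · exact hr.dvd_of_dvd_pow hre

/-- coprimality of the two halves -/
lemma coprime_halves {q X Y e M T S : G} (hq : Prime q) (h : X * Y = q * e ^ 4) (he : e ≠ 0)
    (hdvd : ∀ r : G, r ∣ X → r ∣ Y → r ∣ S) (hS : M ^ 2 = S + e * T)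
    (hM : IsCoprime M e) : IsCoprime X Y := by
  apply isCoprime_of_prime_dvd
  · rintro ⟨h1, h2⟩
    rw [h1, zero_mul] at h
    rcases mul_eq_zero.1 h.symm with h3 | h3
    · exact hq.ne_zero h3
    · exact he (pow_eq_zero_iff (by norm_num) |>.1 h3)
  · intro r hr h1 h2
    have h3 : r ^ 2 ∣ q * e ^ 4 := by
      rw [← h, pow_two]; exact mul_dvd_mul h1 h2
    have h4 : r ∣ e := sq_dvd_prime_mul hr hq h3
    have h5 : r ∣ M ^ 2 := by
      rw [hS]; exact dvd_add (hdvd r h1 h2) (h4.mul_right T)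
    have h6 : r ∣ M := hr.dvd_of_dvd_pow h5
    exact hr.not_isUnit (hM.isUnit_of_dvd' h6 h4)

end Pool.Helper653.Cub
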