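import Pool.Agent.Helper653.CubL1

set_option linter.unnecessarySeqFocus false

namespace Pool.Helper653.Cub

/-- the main quartic -/
def Main (N M e : G) : Prop := N ^ 2 = M ^ 4 - 2 * i * M ^ 2 * e ^ 2 - 2 * (1 + 2 * i) * e ^ 4

lemma i_four : i ^ 4 = 1 := by
  have : i ^ 4 = (i ^ 2) ^ 2 := by ring
  rw [this, i_sq]; ring

/-- first step of the descent for the main quartic; here `e = p * e1` -/
lemma st_step1 {M e1 N : G} (hM : ¬ p ∣ M) (hc : IsCoprime M e1) (h0 : e1 ≠ 0) (h2 : p ∣ e1)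
    (h : N ^ 2 = M ^ 4 + 4 * M ^ 2 * e1 ^ 2 + 8 * (1 + 2 * i) * e1 ^ 4) :
    ∃ A B κ : G, (κ = 1 ∨ κ = i) ∧ κ * e1 = A * B ∧ ¬ p ∣ A ∧ p ∣ B ∧ IsCoprime A B ∧
      (κ * M) ^ 2 = A ^ 4 - 2 * A ^ 2 * B ^ 2 - (1 + 4 * i) * B ^ 4 := by
  have hi := i_sq
  have hp2 := p_sq
  have hp4 := p_four
  set S : G := M ^ 2 + 2 * e1 ^ 2 with hS
  have h3 : (S - N) * (S + N) = 4 * (-(1 + 4 * i) * e1 ^ 4) := by
    have : S ^ 2 - N ^ 2 = 4 * (-(1 + 4 * i) * e1 ^ 4) := by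
      rw [h, hS]; ring
    linear_combination this
  obtain ⟨⟨X, hX⟩, ⟨Y, hY⟩⟩ := halve (x := S - N) (y := S + N) ⟨_, h3⟩ ⟨-N, by ring⟩
  have hXY : X * Y = -(1 + 4 * i) * e1 ^ 4 := by
    rw [hX, hY] at h3
    exact mul_left_cancel₀ four_ne (by linear_combination h3)
  have hXYS : X + Y = S := by
    apply mul_left_cancel₀ two_ne
    linear_combination -hX - hY
  have hcop : IsCoprime X Y := by
    refine coprime_halves (T := -2 * e1) prime17.neg hXY h0 (S := S) ?_ ?_ hc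
    · intro r h1 h2
      rw [← hXYS]; exact dvd_add h1 h2
    · rw [hS]; ring
  obtain ⟨u, v, A, B, huv, hSum, heq, hAB⟩ := split_sum prime17.neg hcop hXY h0 hXYS
  have hu : IsUnit u := IsUnit.of_mul_eq_one _ huv
  have hv : IsUnit v := IsUnit.of_mul_eq_one _ (by rw [mul_comm]; exact huv)
  have hMeq : M ^ 2 = u * A ^ 4 - v * (1 + 4 * i) * B ^ 4 - 2 * A ^ 2 * B ^ 2 := by
    have : M ^ 2 = S - 2 * e1 ^ 2 := by rw [hS]; ring
    rw [this, hSum, heq]; ring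
  obtain ⟨s, t, hs, hMs⟩ := sq_odd' hM
  have h2' : p ∣ A ∨ p ∣ B := prime_p.dvd_or_dvd (heq ▸ h2)
  by_cases hpA : p ∣ A
  · exfalso
    have hpB : ¬ p ∣ B := fun hpB => prime_p.not_isUnit (hAB.isUnit_of_dvd' hpA hpB)
    obtain ⟨A', rfl⟩ := hpA
    obtain ⟨b, hb⟩ := four_odd hpB
    -- M^2 = - v (1+4i) - 4 u A'^4 - 4 i (A' B)^2 + 8 W
    have h5 : M ^ 2 = - v * (1 + 4 * i) - 4 * u * A' ^ 4 - 4 * i * (A' * B) ^ 2
        - 8 * (v * (1 + 4 * i) * p * b) := by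
      rw [hMeq, hb]
      linear_combination (u * A' ^ 4) * hp4 - (2 * A' ^ 2 * B ^ 2) * hp2
    have h6 : -v = s := by
      apply unit_mod4 hv.neg hs (W := p * t + i * v + u * A' ^ 4 + i * (A' * B) ^ 2
        + 2 * (v * (1 + 4 * i) * p * b))
      linear_combination hMs - h5
    have h6' : v = -s := by rw [← h6]; ring
    have h7 : p * t = s * i - u * A' ^ 4 - i * (A' * B) ^ 2 - 2 * (v * (1 + 4 * i) * p * b) := by
      apply mul_left_cancel₀ four_ne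
      rw [h6'] at h5 ⊢
      linear_combination h5 - hMs
    -- modulo p
    by_cases hA' : p ∣ A'
    · apply not_p_dvd_i
      have h8 : p ∣ s * i := by
        have : s * i = p * t + u * A' ^ 4 + i * (A' * B) ^ 2 + 2 * (v * (1 + 4 * i) * p * b) := by
          rw [h7]; ring
        rw [this]
        have q1 : p ∣ p * t := dvd_mul_right _ _
        have q2 : p ∣ u * A' ^ 4 := (hA'.pow (by norm_num)).mul_left _
        have q3 : p ∣ i * (A' * B) ^ 2 := ((hA'.mul_right B).pow (by norm_num)).mul_left _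
        have q4 : p ∣ 2 * (v * (1 + 4 * i) * p * b) := p_dvd_two.mul_right _
        exact dvd_add (dvd_add (dvd_add q1 q2) q3) q4
      rcases hs with rfl | rfl
      · simpa using h8
      · simpa using h8
    · obtain ⟨a, ha⟩ := four_odd hA'
      obtain ⟨s', t', hs', hABs⟩ := sq_odd' (odd_mul hA' hpB)
      rw [ha, hABs] at h7
      set W := v * (1 + 4 * i) * p * b
      set W2 := u * p * a
      have h8 : p * t = s * i - u - 8 * W2 - i * (s' + 4 * p * t') - 2 * W := by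
        rw [h7]; ring
      have h9 := congrArg Zsqrtd.re h8
      have h10 := congrArg Zsqrtd.im h8
      have hu' := unit_cases hu
      rcases hs with rfl | rfl <;> rcases hs' with rfl | rfl <;>
        rcases hu' with hu' | hu' | hu' | hu' <;> rw [hu'] at h9 h10 <;> simp at h9 h10 <;> omega
  · obtain ⟨B', rfl⟩ := h2'.resolve_left hpA
    obtain ⟨a, ha⟩ := four_odd hpA
    have h6 : u = s := by
      apply unit_mod4 hu hs (W := p * t - u * 2 * p * a - v * (1 + 4 * i) * B' ^ 4 + i * A ^ 2 * B' ^ 2)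
      rw [ha] at hMeq
      linear_combination hMs - hMeq + (v * (1 + 4 * i) * B' ^ 4) * hp4 + (2 * A ^ 2 * B' ^ 2) * hp2
    have h7 : v = s := by
      rw [h6] at huv
      rcases hs with rfl | rfl
      · simpa using huv
      · linear_combination -huv
    rcases hs with rfl | rfl
    · refine ⟨A, p * B', 1, Or.inl rfl, by rw [heq]; ring, hpA, dvd_mul_right _ _, hAB, ?_⟩
      rw [one_mul, hMeq, h6, h7]; ring
    · refine ⟨A, i * (p * B'), i, Or.inr rfl, by rw [heq]; ring, hpA, ⟨i * B', by ring⟩, ?_, ?_⟩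
      · exact (isCoprime_mul_unit_left_right unit_i A (p * B')).2 hAB
      · rw [mul_pow, hMeq, h6, h7]
        have hi4 := i_four
        linear_combination (-A ^ 4 + (1 + 4 * i) * (p * B') ^ 4) * hi + (1 + 4 * i) * (p * B') ^ 4 * hi4


/-- second step of the descent for the main quartic -/
lemma st_step2 {A B2 M : G} (hA : ¬ p ∣ A) (hc : IsCoprime A B2) (h0 : B2 ≠ 0)
    (h : M ^ 2 = A ^ 4 - 2 * A ^ 2 * (p * B2) ^ 2 - (1 + 4 * i) * (p * B2) ^ 4) :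
    ∃ u v C D : G, u * v = 1 ∧ B2 = C * D ∧ ¬ p ∣ C ∧ IsCoprime C D ∧
      (u * C ^ 4 - 2 * v * (1 + 2 * i) * D ^ 4 = A ^ 2 - 2 * i * C ^ 2 * D ^ 2 ∨
       u * (1 + 2 * i) * C ^ 4 - 2 * v * D ^ 4 = A ^ 2 - 2 * i * C ^ 2 * D ^ 2) := by
  have hi := i_sq
  have hp2 := p_sq
  have hp4 := p_four
  set P : G := A ^ 2 - 2 * i * B2 ^ 2 with hP
  have hPo : ¬ p ∣ P := by
    intro h3
    have h4 : p ∣ A ^ 2 := by
      have : A ^ 2 = P + 2 * (i * B2 ^ 2) := by rw [hP]; ring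
      rw [this]
      exact dvd_add h3 (p_dvd_two.mul_right _)
    exact hA (prime_p.dvd_of_dvd_pow h4)
  have h3 : P ^ 2 - M ^ 2 = 8 * (-(1 + 2 * i) * B2 ^ 4) := by
    rw [h, hP]
    linear_combination (2 * A ^ 2 * B2 ^ 2) * hp2 + ((1 + 4 * i) * B2 ^ 4) * hp4 + (4 * B2 ^ 4) * hi
  obtain ⟨X, Y, hXo, hXY, hR⟩ := halves8 hPo h3
  have hcop : IsCoprime X Y := by
    refine coprime_halves (M := A) (T := 2 * i * B2) prime5.neg hR h0 (S := P) ?_ ?_ hc
    · intro r h1 h2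
      rw [← hXY]; exact dvd_add h1 (h2.mul_left 2)
    · rw [hP]; ring
  rcases split_prime prime5.neg hcop hR h0 with ⟨u, v, C, D, huv, hX, hY, heq, hCD⟩ | ⟨u, v, C, D, huv, hX, hY, heq, hCD⟩
  · refine ⟨u, v, C, D, huv, heq, ?_, hCD, Or.inl ?_⟩
    · intro h4
      exact hXo (by rw [hX]; exact (h4.pow (by norm_num)).mul_left u)
    · have : P = u * C ^ 4 + 2 * (v * -(1 + 2 * i) * D ^ 4) := by rw [← hXY, hX, hY]
      rw [hP, heq] at this
      linear_combination -this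
  · refine ⟨-u, -v, C, D, by linear_combination huv, heq, ?_, hCD, Or.inr ?_⟩
    · intro h4
      exact hXo (by rw [hX]; exact (h4.pow (by norm_num)).mul_left _)
    · have : P = u * -(1 + 2 * i) * C ^ 4 + 2 * (v * D ^ 4) := by rw [← hXY, hX, hY]
      rw [hP, heq] at this
      linear_combination -this

lemma ne_zero_of_odd {z : G} (h : ¬ p ∣ z) : z ≠ 0 := fun h0 => h (h0 ▸ dvd_zero p)

lemma odd_of_unit {κ : G} (h : κ = 1 ∨ κ = i) : ¬ p ∣ κ := by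
  rcases h with rfl | rfl
  · exact not_p_dvd_one
  · exact not_p_dvd_i

/-- combined steps: from a solution with `e = p ^ (n+2) e'` -/
lemma st_step {n : ℕ} {M e' N : G} (hM : ¬ p ∣ M) (he' : ¬ p ∣ e')
    (hc : IsCoprime M (p ^ (n + 2) * e')) (h : Main N M (p ^ (n + 2) * e')) :
    ∃ κ A u v C D' : G, (κ = 1 ∨ κ = i) ∧ ¬ p ∣ A ∧ u * v = 1 ∧ ¬ p ∣ C ∧ ¬ p ∣ D' ∧
      IsCoprime C (p ^ n * D') ∧
      κ * (p ^ (n + 2) * e') = 2 * i * A * C * (p ^ n * D') ∧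
      (κ * M) ^ 2 = A ^ 4 - 2 * A ^ 2 * (p * (C * (p ^ n * D'))) ^ 2
        - (1 + 4 * i) * (p * (C * (p ^ n * D'))) ^ 4 ∧
      (u * C ^ 4 - 2 * v * (1 + 2 * i) * (p ^ n * D') ^ 4
          = A ^ 2 - 2 * i * C ^ 2 * (p ^ n * D') ^ 2 ∨
       u * (1 + 2 * i) * C ^ 4 - 2 * v * (p ^ n * D') ^ 4
          = A ^ 2 - 2 * i * C ^ 2 * (p ^ n * D') ^ 2) := by
  have hi := i_sq
  have hp2 := p_sq
  have hp4 := p_four
  have he0 : e' ≠ 0 := ne_zero_of_odd he'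
  set e1 : G := p ^ (n + 1) * e' with he1
  have hee : p ^ (n + 2) * e' = p * e1 := by rw [he1]; ring
  rw [Main, hee] at h
  rw [hee] at hc
  have hc1 : IsCoprime M e1 := hc.of_isCoprime_of_dvd_right ⟨p, by ring⟩
  have h01 : e1 ≠ 0 := mul_ne_zero (pow_ne_zero _ p_ne_zero) he0
  have h2 : p ∣ e1 := ⟨p ^ n * e', by rw [he1]; ring⟩
  obtain ⟨A, B, κ, hκ, hκe, hA, hpB, hAB, h3⟩ := st_step1 (N := N) hM hc1 h01 h2 (by
    rw [h]
    linear_combination (-2 * i * M ^ 2 * e1 ^ 2) * hp2 - (2 * (1 + 2 * i) * e1 ^ 4) * hp4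
      - (4 * M ^ 2 * e1 ^ 2) * hi)
  have h4 : p ^ (n + 1) ∣ A * B := by
    rw [← hκe, he1]; exact ⟨κ * e', by ring⟩
  obtain ⟨B', hB'⟩ := p_dvd_of_p_sq_dvd_mul hA h4
  have h5 : κ * e' = A * B' := by
    apply mul_left_cancel₀ (pow_ne_zero (n + 1) p_ne_zero)
    rw [he1, hB'] at hκe
    linear_combination hκe
  have hκo : ¬ p ∣ κ := odd_of_unit hκ
  have hB'o : ¬ p ∣ B' := by
    intro h6
    have : p ∣ κ * e' := by rw [h5]; exact h6.mul_left A
    exact odd_mul hκo he' this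
  set B2 : G := p ^ n * B' with hB2
  have hBB2 : B = p * B2 := by rw [hB', hB2]; ring
  have hB'0 : B' ≠ 0 := ne_zero_of_odd hB'o
  obtain ⟨u, v, C, D, huv, hCD, hC, hcCD, h6⟩ := st_step2 (A := A) (B2 := B2) (M := κ * M) hA
    (hAB.of_isCoprime_of_dvd_right ⟨p, by rw [hBB2]; ring⟩)
    (mul_ne_zero (pow_ne_zero _ p_ne_zero) hB'0)
    (by rw [h3, hBB2])
  have h7 : p ^ n ∣ C * D := by rw [← hCD, hB2]; exact ⟨B', rfl⟩
  obtain ⟨D', rfl⟩ := p_dvd_of_p_sq_dvd_mul hC h7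
  have h8 : B' = C * D' := by
    apply mul_left_cancel₀ (pow_ne_zero n p_ne_zero)
    rw [hB2] at hCD
    linear_combination hCD
  have hD'o : ¬ p ∣ D' := by
    intro h9
    exact hB'o (by rw [h8]; exact h9.mul_left C)
  refine ⟨κ, A, u, v, C, D', hκ, hA, huv, hC, hD'o, hcCD, ?_, ?_, h6⟩
  · rw [hee]
    have : κ * (p * e1) = p * (A * B) := by rw [← hκe]; ring
    rw [this, hBB2, hCD]
    linear_combination (A * C * (p ^ n * D')) * hp2
  · rw [h3, hBB2, hCD]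

/-- Base exclusion, valuation 1. -/
lemma K1 {M e' N : G} (hM : ¬ p ∣ M) (he : ¬ p ∣ e') (h : Main N M (p * e')) : False := by
  have hi := i_sq
  have hp2 := p_sq
  have hp4 := p_four
  have h : N ^ 2 = M ^ 4 + 4 * (M * e') ^ 2 + 8 * ((1 + 2 * i) * e' ^ 4) := by
    rw [Main] at h
    rw [h]
    linear_combination (-2 * i * M ^ 2 * e' ^ 2) * hp2 - (2 * (1 + 2 * i) * e' ^ 4) * hp4
      - (4 * M ^ 2 * e' ^ 2) * hi
  have hNo : ¬ p ∣ N := by
    intro h4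
    have h5 : p ∣ M ^ 4 := by
      have : M ^ 4 = N * N - 2 * (2 * (M * e') ^ 2 + 4 * ((1 + 2 * i) * e' ^ 4)) := by
        linear_combination -h
      rw [this]
      exact dvd_sub (h4.mul_right _) (p_dvd_two.mul_right _)
    exact hM (prime_p.dvd_of_dvd_pow h5)
  obtain ⟨s, t, hs, hNs⟩ := sq_odd' hNo
  obtain ⟨s', t', hs', hMs⟩ := sq_odd' (odd_mul hM he)
  obtain ⟨m, hm⟩ := four_odd hM
  set W := (1 + 2 * i) * e' ^ 4 with hW
  have h1 : s + 4 * p * t = 1 + 8 * p * m + 4 * (s' + 4 * p * t') + 8 * W := by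
    rw [← hNs, ← hMs, ← hm, h]
  have h8 := congrArg Zsqrtd.re h1
  have h9 := congrArg Zsqrtd.im h1
  rcases hs with rfl | rfl <;> rcases hs' with rfl | rfl <;> simp at h8 h9 <;> omega

/-- valuation 3 excluded, coprime case -/
lemma K3 {M e' N : G} (hM : ¬ p ∣ M) (he : ¬ p ∣ e') (hc : IsCoprime M (p ^ 3 * e'))
    (h : Main N M (p ^ 3 * e')) : False := by
  have hi := i_sq
  have hp2 := p_sq
  have hp4 := p_four
  obtain ⟨κ, A, u, v, C, D', hκ, hA, huv, hC, hD, hcCD, h1, h2, h3⟩ := st_step (n := 1) hM he hc h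
  have hu : IsUnit u := IsUnit.of_mul_eq_one _ huv
  obtain ⟨s, t, hs, hAs⟩ := sq_odd' hA
  obtain ⟨s', t', hs', hCDs⟩ := sq_odd' (odd_mul hC hD)
  obtain ⟨c, hc4⟩ := four_odd hC
  rcases h3 with h3 | h3
  · have h4 : u * C ^ 4 + 8 * (v * (1 + 2 * i) * D' ^ 4) = A ^ 2 + 4 * (C * D') ^ 2 := by
      linear_combination h3 + (2 * v * (1 + 2 * i) * D' ^ 4) * hp4 - (2 * i * C ^ 2 * D' ^ 2) * hp2
        - (4 * C ^ 2 * D' ^ 2) * hi
    rw [hc4, hAs, hCDs] at h4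
    set W := v * (1 + 2 * i) * D' ^ 4
    have h5 : u = s := by
      apply unit_mod4 hu hs (W := p * t + s' + 4 * p * t' - 2 * W - 2 * u * p * c)
      linear_combination h4
    rw [h5] at h4
    have h8 := congrArg Zsqrtd.re h4
    have h9 := congrArg Zsqrtd.im h4
    rcases hs with rfl | rfl <;> rcases hs' with rfl | rfl <;> simp at h8 h9 <;> omega
  · have h4 : u * (1 + 2 * i) * C ^ 4 + 8 * (v * D' ^ 4) = A ^ 2 + 4 * (C * D') ^ 2 := by
      linear_combination h3 + (2 * v * D' ^ 4) * hp4 - (2 * i * C ^ 2 * D' ^ 2) * hp2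
        - (4 * C ^ 2 * D' ^ 2) * hi
    rw [hc4, hAs, hCDs] at h4
    set W := v * D' ^ 4
    apply unit_mod4' hu hs (W := p * t + s' + 4 * p * t' - 2 * W - 2 * u * (1 + 2 * i) * p * c)
    linear_combination h4

lemma gcd_split (a b : G) (ha : a ≠ 0) :
    ∃ g a' b' : G, g ≠ 0 ∧ a = g * a' ∧ b = g * b' ∧ IsCoprime a' b' := by
  have hg := EuclideanDomain.gcd_eq_gcd_ab a b
  obtain ⟨a', ha'⟩ := EuclideanDomain.gcd_dvd_left a b
  obtain ⟨b', hb'⟩ := EuclideanDomain.gcd_dvd_right a b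
  have hg0 : EuclideanDomain.gcd a b ≠ 0 := by
    intro h0
    rw [h0, zero_mul] at ha'
    exact ha ha'
  refine ⟨EuclideanDomain.gcd a b, a', b', hg0, ha', hb', ?_⟩
  refine ⟨EuclideanDomain.gcdA a b, EuclideanDomain.gcdB a b, ?_⟩
  apply mul_left_cancel₀ hg0
  have h1 : EuclideanDomain.gcd a b * (EuclideanDomain.gcdA a b * a' + EuclideanDomain.gcdB a b * b')
    = a * EuclideanDomain.gcdA a b + b * EuclideanDomain.gcdB a b := by
    linear_combination (-EuclideanDomain.gcdA a b) * ha' - EuclideanDomain.gcdB a b * hb'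
  rw [h1, ← hg, mul_one]

lemma main_scale {N g m e : G} (hg : g ≠ 0) (h : Main N (g * m) (g * e)) : ∃ n, Main n m e := by
  have h1 : N ^ 2 = (g ^ 2) ^ 2 * (m ^ 4 - 2 * i * m ^ 2 * e ^ 2 - 2 * (1 + 2 * i) * e ^ 4) := by
    rw [Main] at h
    rw [h]; ring
  have h2 : g ^ 2 ∣ N := by
    rw [← IsIntegrallyClosed.pow_dvd_pow_iff (n := 2) (by norm_num), h1]
    exact dvd_mul_right _ _
  obtain ⟨n, rfl⟩ := h2
  refine ⟨n, ?_⟩
  rw [Main]
  apply mul_left_cancel₀ (pow_ne_zero 2 (pow_ne_zero 2 hg))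
  rw [← h1]; ring

/-- valuation 3 excluded, general case -/
lemma K3gen {M e' N : G} (hM : ¬ p ∣ M) (he : ¬ p ∣ e') (h : Main N M (p ^ 3 * e')) : False := by
  obtain ⟨g, m, e'', hg, h1, h2, hc⟩ := gcd_split M (p ^ 3 * e') (ne_zero_of_odd hM)
  have hgo : ¬ p ∣ g := fun h3 => hM (by rw [h1]; exact h3.mul_right m)
  have hmo : ¬ p ∣ m := fun h3 => hM (by rw [h1]; exact h3.mul_left g)
  have h3 : p ^ 3 ∣ g * e'' := ⟨e', by rw [← h2]⟩
  obtain ⟨e0, rfl⟩ := p_dvd_of_p_sq_dvd_mul hgo h3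
  have h4 : e' = g * e0 := by
    apply mul_left_cancel₀ (pow_ne_zero 3 p_ne_zero)
    linear_combination h2
  have he0 : ¬ p ∣ e0 := fun h5 => he (by rw [h4]; exact h5.mul_left g)
  rw [h1, h2] at h
  obtain ⟨n, hn⟩ := main_scale hg h
  exact K3 hmo he0 hc hn


lemma half_p3 : 2 * p = p ^ 3 * (-i) := by
  have hi := i_sq
  have hp2 := p_sq
  linear_combination (i * p) * hp2 + (2 * p) * hi

lemma main_of_L3 {A C D : G} (h : A ^ 2 = (1 + 2 * i) * C ^ 4 - 2 * i * C ^ 2 * D ^ 2 - 2 * D ^ 4) :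
    Main (i * (C ^ 2 + D ^ 2) * A + 2 * C * D * ((1 + i) * C ^ 2 - (2 + i) * D ^ 2))
      (A + i * C * D) (C ^ 2 - D ^ 2) := by
  have hi := i_sq
  rw [Main]
  linear_combination ((-4 * i * A * C * D) + (-2 * i * C ^ 2 * D ^ 2) + 2 * i * D ^ 4 + (-1 * A ^ 2) + (-2 * C ^ 4) + 4 * C ^ 2 * D ^ 2 + D ^ 4) * h + ((-1 * i ^ 2 * C ^ 4 * D ^ 4) + (-4 * i * A * C ^ 3 * D ^ 3) + 2 * i * C ^ 6 * D ^ 2 + (-4 * i * C ^ 4 * D ^ 4) + 2 * i * C ^ 2 * D ^ 6 + A ^ 2 * C ^ 4 + (-4 * A ^ 2 * C ^ 2 * D ^ 2) + A ^ 2 * D ^ 4 + C ^ 4 * D ^ 4) * hi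

/-- The key auxiliary lemma. -/
lemma L3 {A C D t : G} (hC : ¬ p ∣ C) (hD : ¬ p ∣ D)
    (h : A ^ 2 = (1 + 2 * i) * C ^ 4 - 2 * i * C ^ 2 * D ^ 2 - 2 * D ^ 4)
    (hmod : (C * D) ^ 2 = 1 + 4 * p * t) : ∃ t', (C * D) ^ 2 = 1 + 8 * t' := by
  have hi := i_sq
  have hp2 := p_sq
  obtain ⟨s, t1, hs, hCs⟩ := sq_odd' hC
  obtain ⟨s', t2, hs', hDs⟩ := sq_odd' hD
  have hss : s = s' := by
    have h1 : s * s' + 4 * (p * t1 * s' + p * t2 * s + 4 * p * t1 * p * t2) = 1 + 4 * (p * t) := by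
      have : (C * D) ^ 2 = C ^ 2 * D ^ 2 := by ring
      rw [this, hCs, hDs] at hmod
      linear_combination hmod
    have h2 := congrArg Zsqrtd.re h1
    rcases hs with rfl | rfl <;> rcases hs' with rfl | rfl
    · rfl
    · exfalso; simp at h2; omega
    · exfalso; simp at h2; omega
    · rfl
  subst hss
  obtain ⟨d, hd⟩ := four_odd hD
  have hCD : C ^ 2 - D ^ 2 = 4 * p * (t1 - t2) := by rw [hCs, hDs]; ring
  set τ := t1 - t2 with hτ
  by_cases hpτ : p ∣ τ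
  · obtain ⟨τ', hτ'⟩ := hpτ
    refine ⟨p * d + i * τ' * D ^ 2, ?_⟩
    have : (C * D) ^ 2 = (C ^ 2 - D ^ 2) * D ^ 2 + D ^ 4 := by ring
    rw [this, hCD, hτ', hd]
    linear_combination (4 * τ' * D ^ 2) * hp2
  · exfalso
    set P := A + i * C * D with hP
    set P' := A + i * C * (-D) with hP'
    have hprod : P * P' = 4 * (p * τ * ((1 + 2 * i) * C ^ 2 + 2 * D ^ 2)) := by
      have : P * P' = (C ^ 2 - D ^ 2) * ((1 + 2 * i) * C ^ 2 + 2 * D ^ 2) := by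
        rw [hP, hP']
        linear_combination h - (C ^ 2 * D ^ 2) * hi
      rw [this, hCD]; ring
    obtain ⟨⟨P1, hP1⟩, ⟨P2, hP2⟩⟩ := halve (x := P) (y := P') ⟨_, hprod⟩ ⟨i * C * D, by rw [hP, hP']; ring⟩
    have hdiff : P1 - P2 = i * C * D := by
      apply mul_left_cancel₀ two_ne
      linear_combination hP' - hP - hP1 + hP2
    have hodd : ¬ p ∣ P1 - P2 := by
      rw [hdiff]; exact odd_mul (odd_mul not_p_dvd_i hC) hD
    have h4τ : C ^ 2 - D ^ 2 = 2 * (p ^ 3 * (-i * τ)) := by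
      rw [hCD]
      have := half_p3
      linear_combination (2 * τ) * this
    have hiτ : ¬ p ∣ -i * τ := by
      rw [neg_mul, dvd_neg]; exact odd_mul not_p_dvd_i hpτ
    by_cases hp1 : p ∣ P1
    · have hp2 : ¬ p ∣ P2 := fun hp2 => hodd (dvd_sub hp1 hp2)
      have hm := main_of_L3 (A := A) (C := C) (D := -D) (by rw [h]; ring)
      rw [← hP', hP2, neg_sq, h4τ] at hm
      obtain ⟨n, hn⟩ := main_scale two_ne hm
      exact K3gen hp2 hiτ hn
    · have hm := main_of_L3 h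
      rw [← hP, hP1, h4τ] at hm
      obtain ⟨n, hn⟩ := main_scale two_ne hm
      exact K3gen hp1 hiτ hn

/-- square roots modulo 8 -/
lemma sqrt_neg1 {z W : G} (h : z ^ 2 = -1 + 8 * W) : z.re % 4 = 0 ∧ z.im % 2 = 1 := by
  have h1 := congrArg Zsqrtd.re h
  have h2 := congrArg Zsqrtd.im h
  simp [pow_two] at h1 h2
  have key : ∀ x y : ZMod 8, x * x - y * y = -1 → 2 * (x * y) = 0 → 2 * x = 0 ∧ 4 * y = 4 := by decide
  have h3 := congrArg (Int.cast : ℤ → ZMod 8) h1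
  have h4 := congrArg (Int.cast : ℤ → ZMod 8) h2
  have h8 : (8 : ZMod 8) = 0 := by decide
  push_cast at h3 h4
  rw [h8] at h3 h4
  obtain ⟨h5, h6⟩ := key z.re z.im (by linear_combination h3) (by linear_combination h4)
  have h7 : ((2 * z.re : ℤ) : ZMod 8) = 0 := by push_cast; exact h5
  have h9 : ((4 * z.im - 4 : ℤ) : ZMod 8) = 0 := by push_cast; rw [h6]; ring
  rw [ZMod.intCast_zmod_eq_zero_iff_dvd] at h7 h9
  omega

lemma sqrt_one {z W : G} (h : z ^ 2 = 1 + 8 * W) : z.re % 2 = 1 ∧ z.im % 4 = 0 := by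
  have h1 := congrArg Zsqrtd.re h
  have h2 := congrArg Zsqrtd.im h
  simp [pow_two] at h1 h2
  have key : ∀ x y : ZMod 8, x * x - y * y = 1 → 2 * (x * y) = 0 → 2 * y = 0 ∧ 4 * x = 4 := by decide
  have h3 := congrArg (Int.cast : ℤ → ZMod 8) h1
  have h4 := congrArg (Int.cast : ℤ → ZMod 8) h2
  have h8 : (8 : ZMod 8) = 0 := by decide
  push_cast at h3 h4
  rw [h8] at h3 h4
  obtain ⟨h5, h6⟩ := key z.re z.im (by linear_combination h3) (by linear_combination h4)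
  have h7 : ((2 * z.im : ℤ) : ZMod 8) = 0 := by push_cast; exact h5
  have h9 : ((4 * z.re - 4 : ℤ) : ZMod 8) = 0 := by push_cast; rw [h6]; ring
  rw [ZMod.intCast_zmod_eq_zero_iff_dvd] at h7 h9
  omega

lemma sqrt_54 {z W : G} (h : z ^ 2 = 5 + 4 * i + 8 * W) : z.re % 2 = 1 ∧ z.im % 4 = 2 := by
  have h1 := congrArg Zsqrtd.re h
  have h2 := congrArg Zsqrtd.im h
  simp [pow_two] at h1 h2
  have key : ∀ x y : ZMod 8, x * x - y * y = 5 → 2 * (x * y) = 4 → 2 * y = 4 ∧ 4 * x = 4 := by decide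
  have h3 := congrArg (Int.cast : ℤ → ZMod 8) h1
  have h4 := congrArg (Int.cast : ℤ → ZMod 8) h2
  have h8 : (8 : ZMod 8) = 0 := by decide
  push_cast at h3 h4
  rw [h8] at h3 h4
  obtain ⟨h5, h6⟩ := key z.re z.im (by linear_combination h3) (by linear_combination h4)
  have h7 : ((2 * z.im - 4 : ℤ) : ZMod 8) = 0 := by push_cast; rw [h5]; ring
  have h9 : ((4 * z.re - 4 : ℤ) : ZMod 8) = 0 := by push_cast; rw [h6]; ring
  rw [ZMod.intCast_zmod_eq_zero_iff_dvd] at h7 h9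
  omega

end Pool.Helper653.Cub
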