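import Pool.Agent.Helper653.IceUp

namespace Pool.Agent.Helper653.IceTwo
open Finset Pool.Agent.Helper653.IceUp

section cyc
variable {A : Type} [Fintype A] [DecidableEq A]

/-- iterates of the all-one vector -/
noncomputable def X (T : Matrix A A ℝ) : ℕ → A → ℝ
  | 0 => fun _ => 1
  | k+1 => fun p => ∑ q, T p q * X T k q

noncomputable def sX (T : Matrix A A ℝ) (k : ℕ) : ℝ := ∑ p, (X T k p)^2

lemma X_pow (T : Matrix A A ℝ) (k : ℕ) (p : A) : X T k p = ∑ q, (T^k) p q := by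
  induction k generalizing p with
  | zero => simp [X, Matrix.one_apply]
  | succ k ih =>
    simp only [X, ih, pow_succ', Matrix.mul_apply, Finset.mul_sum]
    rw [Finset.sum_comm]

lemma pow_symm (T : Matrix A A ℝ) (hs : ∀ p q, T p q = T q p) (k : ℕ) (p q : A) :
    (T^k) p q = (T^k) q p := by
  have h : T.transpose = T := by ext i j; exact hs j i
  have : (T^k).transpose = T^k := by rw [Matrix.transpose_pow, h]
  calc (T^k) p q = (T^k).transpose q p := rfl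
    _ = (T^k) q p := by rw [this]

lemma X_adj (T : Matrix A A ℝ) (hs : ∀ p q, T p q = T q p) (k : ℕ) :
    sX T (k+1) = ∑ p, X T k p * X T (k+2) p := by
  unfold sX
  have h1 : ∀ p, (X T (k+1) p)^2 = ∑ q, T p q * X T k q * X T (k+1) p := by
    intro p
    rw [← Finset.sum_mul, sq]
    rfl
  simp only [h1]
  rw [Finset.sum_comm]
  refine Finset.sum_congr rfl (fun q _ => ?_)
  have h2 : X T (k+2) q = ∑ p, T q p * X T (k+1) p := rfl
  rw [h2, Finset.mul_sum]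
  refine Finset.sum_congr rfl (fun p _ => ?_)
  rw [hs p q]; ring

lemma sX_cs (T : Matrix A A ℝ) (hs : ∀ p q, T p q = T q p) (k : ℕ) :
    (sX T (k+1))^2 ≤ sX T k * sX T (k+2) := by
  rw [X_adj T hs k]
  exact Finset.sum_mul_sq_le_sq_mul_sq _ _ _

lemma sX_nonneg (T : Matrix A A ℝ) (k : ℕ) : 0 ≤ sX T k := Finset.sum_nonneg (fun _ _ => sq_nonneg _)

lemma sX_growth [Nonempty A] (T : Matrix A A ℝ) (hs : ∀ p q, T p q = T q p) (τ : ℝ) (hτ : 0 < τ)
    (hT : ∑ p, ∑ q, T p q = τ * Fintype.card A) (k : ℕ) :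
    0 < sX T k ∧ τ^2 * sX T k ≤ sX T (k+1) := by
  have hK : (0:ℝ) < Fintype.card A := by exact_mod_cast Fintype.card_pos
  induction k with
  | zero =>
    have h0 : sX T 0 = Fintype.card A := by simp [sX, X]
    refine ⟨by rw [h0]; exact hK, ?_⟩
    rw [h0]
    have h1 : (∑ p, X T 1 p)^2 ≤ Fintype.card A * sX T 1 := by
      have := sq_sum_le_card_mul_sum_sq (s := (univ : Finset A)) (f := fun p => X T 1 p)
      simpa [sX] using this
    have h2 : ∑ p, X T 1 p = τ * Fintype.card A := by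
      rw [← hT]
      refine Finset.sum_congr rfl (fun p _ => ?_)
      simp [X]
    rw [h2] at h1
    have : (Fintype.card A : ℝ) * (τ^2 * Fintype.card A) ≤ Fintype.card A * sX T 1 := by
      calc (Fintype.card A : ℝ) * (τ^2 * Fintype.card A) = (τ * Fintype.card A)^2 := by ring
        _ ≤ _ := h1
    exact le_of_mul_le_mul_left this hK
  | succ k ih =>
    obtain ⟨h1, h2⟩ := ih
    have h3 : 0 < sX T (k+1) := lt_of_lt_of_le (by positivity) h2
    refine ⟨h3, ?_⟩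
    have h4 := sX_cs T hs k
    have h5 : sX T k * (τ^2 * sX T (k+1)) ≤ sX T k * sX T (k+2) := by
      calc sX T k * (τ^2 * sX T (k+1)) = (τ^2 * sX T k) * sX T (k+1) := by ring
        _ ≤ sX T (k+1) * sX T (k+1) := mul_le_mul_of_nonneg_right h2 h3.le
        _ = (sX T (k+1))^2 := by ring
        _ ≤ _ := h4
    exact le_of_mul_le_mul_left h5 h1

lemma sX_lower [Nonempty A] (T : Matrix A A ℝ) (hs : ∀ p q, T p q = T q p) (τ : ℝ) (hτ : 0 < τ)
    (hT : ∑ p, ∑ q, T p q = τ * Fintype.card A) (k : ℕ) :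
    τ^(2*k) * Fintype.card A ≤ sX T k := by
  induction k with
  | zero => simp [sX, X]
  | succ k ih =>
    refine le_trans ?_ (sX_growth T hs τ hτ hT k).2
    calc τ^(2*(k+1)) * (Fintype.card A : ℝ) = τ^2 * (τ^(2*k) * Fintype.card A) := by ring
      _ ≤ τ^2 * sX T k := mul_le_mul_of_nonneg_left ih (sq_nonneg τ)

/-- for even length and symmetric `T`, `cyc T ≥ τ^n`, `τ` the average row sum -/
lemma cyc_lower [Nonempty A] (T : Matrix A A ℝ) (hs : ∀ p q, T p q = T q p) (τ : ℝ) (hτ : 0 < τ)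
    (hT : ∑ p, ∑ q, T p q = τ * Fintype.card A) (k : ℕ) :
    τ^(2*k+1+1) ≤ cyc (2*k+1+1) T := by
  have hK : (0:ℝ) < Fintype.card A := by exact_mod_cast Fintype.card_pos
  rw [cyc_eq]
  have h1 : ∑ p, ∑ q, (T^(2*k+1)) p q * T q p = ∑ p, ∑ q, ((T^(k+1)) p q)^2 := by
    refine Finset.sum_congr rfl (fun p _ => ?_)
    have e1 : ∑ q, (T^(2*k+1)) p q * T q p = (T^(2*k+1+1)) p p := by
      rw [pow_succ T (2*k+1), Matrix.mul_apply]
    have e2 : (T^(2*k+1+1)) p p = ∑ q, (T^(k+1)) p q * (T^(k+1)) q p := by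
      have e3 : 2*k+1+1 = (k+1)+(k+1) := by omega
      rw [e3, pow_add, Matrix.mul_apply]
    rw [e1, e2]
    refine Finset.sum_congr rfl (fun q _ => ?_)
    rw [pow_symm T hs (k+1) q p]; ring
  rw [h1]
  have h2 : sX T (k+1) ≤ Fintype.card A * ∑ p, ∑ q, ((T^(k+1)) p q)^2 := by
    unfold sX
    rw [Finset.mul_sum]
    refine Finset.sum_le_sum (fun p _ => ?_)
    rw [X_pow]
    exact sq_sum_le_card_mul_sum_sq
  have h3 := sX_lower T hs τ hτ hT (k+1)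
  have h4 : (Fintype.card A : ℝ) * τ^(2*k+1+1) ≤ Fintype.card A * ∑ p, ∑ q, ((T^(k+1)) p q)^2 := by
    refine le_trans (le_of_eq ?_) (h3.trans h2)
    have e4 : 2*(k+1) = 2*k+1+1 := by omega
    rw [mul_comm, e4]
  exact le_of_mul_le_mul_left h4 hK

lemma pow_nonneg' (T : Matrix A A ℝ) (hT : ∀ p q, 0 ≤ T p q) (k : ℕ) (p q : A) : 0 ≤ (T^k) p q := by
  induction k generalizing p q with
  | zero => simp only [pow_zero, Matrix.one_apply]; split_ifs <;> norm_num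
  | succ k ih =>
    rw [pow_succ, Matrix.mul_apply]
    exact Finset.sum_nonneg (fun r _ => mul_nonneg (ih p r) (hT r q))

/-- odd lengths -/
lemma cyc_odd (T : Matrix A A ℝ) (hs : ∀ p q, T p q = T q p) (hT : ∀ p q, 0 ≤ T p q)
    (hd : ∀ p, 1 ≤ T p p) (k : ℕ) : cyc (2*k+1+1) T ≤ cyc (2*k+1+1+1) T := by
  rw [cyc_eq, cyc_eq]
  refine Finset.sum_le_sum (fun p _ => ?_)
  have e1 : ∑ q, (T^(2*k+1)) p q * T q p = (T^(2*k+1+1)) p p := by
    rw [pow_succ T (2*k+1), Matrix.mul_apply]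
  have e1' : ∑ q, (T^(2*k+1+1)) p q * T q p = (T^(2*k+1+1+1)) p p := by
    rw [pow_succ T (2*k+1+1), Matrix.mul_apply]
  rw [e1, e1']
  have e2 : (T^(2*k+1+1)) p p = ∑ q, (T^(k+1)) p q * (T^(k+1)) q p := by
    have e3 : 2*k+1+1 = (k+1)+(k+1) := by omega
    rw [e3, pow_add, Matrix.mul_apply]
  have e4 : (T^(2*k+1+1+1)) p p = ∑ q, (T^(k+1)) p q * ∑ r, T q r * (T^(k+1)) r p := by
    have e3 : 2*k+1+1+1 = (k+1)+(1+(k+1)) := by omega
    have e5 : T^(1+(k+1)) = T * T^(k+1) := by rw [pow_add T 1 (k+1), pow_one]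
    rw [e3, pow_add T (k+1) (1+(k+1)), e5]
    rfl
  rw [e2, e4]
  refine Finset.sum_le_sum (fun q _ => mul_le_mul_of_nonneg_left ?_ (pow_nonneg' T hT _ _ _))
  calc (T^(k+1)) q p ≤ T q q * (T^(k+1)) q p := by
        have := pow_nonneg' T hT (k+1) q p
        nlinarith [hd q]
    _ ≤ ∑ r, T q r * (T^(k+1)) r p :=
        Finset.single_le_sum (f := fun r => T q r * (T^(k+1)) r p)
          (fun r _ => mul_nonneg (hT q r) (pow_nonneg' T hT _ _ _)) (Finset.mem_univ q)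

end cyc

section model
variable {S : Type} [Fintype S] [DecidableEq S]

lemma prod2_sum {b c : ℕ} (F : Fin b → Fin c → S → ℝ) :
    ∏ y, ∏ z, ∑ i, F y z i = ∑ p : Fin b → Fin c → S, ∏ y, ∏ z, F y z (p y z) := by
  simp only [Finset.prod_univ_sum, Fintype.piFinset_univ]

noncomputable def W1 (w : S → S → S → S → S → S → ℝ) (o2 o3 i2 i3 : S) : ℝ :=
  ∑ i1, ∑ o1, w o1 o2 o3 i1 i2 i3

noncomputable def W2 (w : S → S → S → S → S → S → ℝ) (o3 i3 : S) : ℝ :=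
  ∑ i2, ∑ o2, W1 w o2 o3 i2 i3

noncomputable def T1 (w : S → S → S → S → S → S → ℝ) (c : ℕ) [NeZero c] :
    Matrix (Fin c → S) (Fin c → S) ℝ :=
  fun p q => ∑ t3 : Fin c → S, ∏ z, W1 w (q z) (t3 z) (p z) (t3 (z-1))

noncomputable def T2 (w : S → S → S → S → S → S → ℝ) : Matrix S S ℝ := fun p q => W2 w q p

lemma sum_LT (w : S → S → S → S → S → S → ℝ) (b c : ℕ) [NeZero b] [NeZero c] :
    ∑ p, ∑ q, LT w b c p q = cyc b (T1 w c) := by
  have h1 : ∑ p, ∑ q, LT w b c p q = ∑ t2 : Fin b → Fin c → S, ∑ t3 : Fin b → Fin c → S,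
      ∏ y, ∏ z, W1 w (t2 y z) (t3 y z) (t2 (y-1) z) (t3 y (z-1)) := by
    unfold Pool.Agent.Helper653.IceUp.LT
    rw [Finset.sum_congr rfl (fun p _ => Finset.sum_comm)]
    rw [Finset.sum_comm]
    refine Finset.sum_congr rfl (fun t2 _ => ?_)
    rw [Finset.sum_congr rfl (fun p _ => Finset.sum_comm)]
    rw [Finset.sum_comm]
    refine Finset.sum_congr rfl (fun t3 _ => ?_)
    unfold W1
    rw [prod2_sum]
    refine Finset.sum_congr rfl (fun p _ => ?_)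
    rw [prod2_sum]
  rw [h1]
  unfold cyc
  refine Finset.sum_congr rfl (fun t2 _ => ?_)
  have h2 : ∏ t : Fin b, T1 w c (t2 t) (t2 (t+1)) = ∏ t : Fin b, T1 w c (t2 (t-1)) (t2 t) := by
    rw [← Equiv.prod_comp (Equiv.subRight (1 : Fin b))]
    refine Finset.prod_congr rfl (fun t _ => ?_)
    simp
  rw [h2]
  unfold T1
  rw [Finset.prod_univ_sum, Fintype.piFinset_univ]

lemma sum_T1 (w : S → S → S → S → S → S → ℝ) (c : ℕ) [NeZero c] :
    ∑ p, ∑ q, T1 w c p q = cyc c (T2 w) := by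
  have h1 : ∑ p, ∑ q, T1 w c p q = ∑ t3 : Fin c → S, ∏ z, W2 w (t3 z) (t3 (z-1)) := by
    unfold T1
    rw [Finset.sum_congr rfl (fun p _ => Finset.sum_comm)]
    rw [Finset.sum_comm]
    refine Finset.sum_congr rfl (fun t3 _ => ?_)
    unfold W2
    rw [Finset.prod_univ_sum, Fintype.piFinset_univ]
    refine Finset.sum_congr rfl (fun p _ => ?_)
    rw [Finset.prod_univ_sum, Fintype.piFinset_univ]
  rw [h1]
  unfold cyc
  refine Finset.sum_congr rfl (fun t3 _ => ?_)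
  have h2 : ∏ t : Fin c, T2 w (t3 t) (t3 (t+1)) = ∏ t : Fin c, T2 w (t3 (t-1)) (t3 t) := by
    rw [← Equiv.prod_comp (Equiv.subRight (1 : Fin c))]
    refine Finset.prod_congr rfl (fun t _ => ?_)
    simp
  rw [h2]
  rfl

lemma T1_symm (w : S → S → S → S → S → S → ℝ) (r : S ≃ S)
    (hw : ∀ o1 o2 o3 i1 i2 i3, w o1 o2 o3 i1 i2 i3 = w (r o1) i2 (r o3) (r i1) o2 (r i3))
    (c : ℕ) [NeZero c] (p q : Fin c → S) : T1 w c p q = T1 w c q p := by
  have hW : ∀ o2 o3 i2 i3, W1 w o2 o3 i2 i3 = W1 w i2 (r o3) o2 (r i3) := by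
    intro o2 o3 i2 i3
    unfold W1
    rw [← Equiv.sum_comp r (fun i1 => ∑ o1, w o1 i2 (r o3) i1 o2 (r i3))]
    refine Finset.sum_congr rfl (fun i1 _ => ?_)
    rw [← Equiv.sum_comp r (fun o1 => w o1 i2 (r o3) (r i1) o2 (r i3))]
    exact Finset.sum_congr rfl (fun o1 _ => hw _ _ _ _ _ _)
  unfold T1
  let e : (Fin c → S) ≃ (Fin c → S) := Equiv.piCongrRight (fun _ => r)
  rw [← Equiv.sum_comp e (fun t3 => ∏ z, W1 w (p z) (t3 z) (q z) (t3 (z-1)))]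
  refine Finset.sum_congr rfl (fun t3 _ => Finset.prod_congr rfl (fun z _ => ?_))
  rw [hW]
  rfl

lemma T2_symm (w : S → S → S → S → S → S → ℝ) (r : S ≃ S)
    (hw : ∀ o1 o2 o3 i1 i2 i3, w o1 o2 o3 i1 i2 i3 = w (r o1) (r o2) i3 (r i1) (r i2) o3)
    (p q : S) : T2 w p q = T2 w q p := by
  unfold T2 W2 W1
  rw [← Equiv.sum_comp r (fun i2 => ∑ o2, ∑ i1, ∑ o1, w o1 o2 p i1 i2 q)]
  refine Finset.sum_congr rfl (fun i2 _ => ?_)
  rw [← Equiv.sum_comp r (fun o2 => ∑ i1, ∑ o1, w o1 o2 p i1 (r i2) q)]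
  refine Finset.sum_congr rfl (fun o2 _ => ?_)
  rw [← Equiv.sum_comp r (fun i1 => ∑ o1, w o1 (r o2) p i1 (r i2) q)]
  refine Finset.sum_congr rfl (fun i1 _ => ?_)
  rw [← Equiv.sum_comp r (fun o1 => w o1 (r o2) p (r i1) (r i2) q)]
  exact Finset.sum_congr rfl (fun o1 _ => hw _ _ _ _ _ _)

/-- lower bound for even side -/
lemma Z_lower [Nonempty S] (w : S → S → S → S → S → S → ℝ) (r : S ≃ S)
    (hw1 : ∀ o1 o2 o3 i1 i2 i3, w o1 o2 o3 i1 i2 i3 = w i1 (r o2) (r o3) o1 (r i2) (r i3))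
    (hw2 : ∀ o1 o2 o3 i1 i2 i3, w o1 o2 o3 i1 i2 i3 = w (r o1) i2 (r o3) (r i1) o2 (r i3))
    (hw3 : ∀ o1 o2 o3 i1 i2 i3, w o1 o2 o3 i1 i2 i3 = w (r o1) (r o2) i3 (r i1) (r i2) o3)
    (W : ℝ) (hW : 0 < W) (hsum : ∑ p, ∑ q, T2 w p q = W) (k : ℕ) :
    (W / (Fintype.card S : ℝ)^3)^((2*k+1+1)^3) ≤ Z w (2*k+1+1) (2*k+1+1) (2*k+1+1) := by
  have hK : (0:ℝ) < Fintype.card S := by exact_mod_cast Fintype.card_pos
  set n := 2*k+1+1 with hn
  set K : ℝ := (Fintype.card S : ℝ) with hKdef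
  have h2 : (W/K)^n ≤ cyc n (T2 w) :=
    cyc_lower (T2 w) (T2_symm w r hw3) (W/K) (by positivity) (by rw [hsum]; field_simp; first | exact hKdef | (rw [hKdef]; congr)) k
  have hc1 : 0 < cyc n (T2 w) := lt_of_lt_of_le (by positivity) h2
  have card1 : (Fintype.card (Fin n → S) : ℝ) = K^n := by
    rw [Fintype.card_fun, Fintype.card_fin, hKdef]; push_cast; rfl
  have h1 : (cyc n (T2 w) / K^n)^n ≤ cyc n (T1 w n) := by
    refine cyc_lower (T1 w n) (T1_symm w r hw2 n) _ (by positivity) ?_ k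
    rw [sum_T1, card1]; field_simp
  have h1' : (W/K^2)^(n^2) ≤ cyc n (T1 w n) := by
    refine le_trans ?_ h1
    have : (W/K^2)^n ≤ cyc n (T2 w) / K^n := by
      rw [le_div_iff₀ (by positivity), ← mul_pow]
      refine le_trans (le_of_eq ?_) h2
      congr 1; field_simp
    calc (W/K^2)^(n^2) = ((W/K^2)^n)^n := by rw [← pow_mul]; congr 1; ring
      _ ≤ _ := pow_le_pow_left₀ (by positivity) this n
  have hc2 : 0 < cyc n (T1 w n) := lt_of_lt_of_le (by positivity) h1'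
  have card2 : (Fintype.card (Fin n → Fin n → S) : ℝ) = K^(n^2) := by
    rw [Fintype.card_fun, Fintype.card_fun, Fintype.card_fin, hKdef]
    push_cast
    rw [← pow_mul, sq]
  rw [Z_cyc]
  have h0 : (cyc n (T1 w n) / K^(n^2))^n ≤ cyc n (LT w n n) := by
    refine cyc_lower (LT w n n) (LT_symm w r hw1 n n) _ (by positivity) ?_ k
    rw [sum_LT, card2]; field_simp
  refine le_trans ?_ h0
  have : (W/K^3)^(n^2) ≤ cyc n (T1 w n) / K^(n^2) := by
    rw [le_div_iff₀ (by positivity), ← mul_pow]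
    refine le_trans (le_of_eq ?_) h1'
    congr 1; field_simp
  calc (W/K^3)^(n^3) = ((W/K^3)^(n^2))^n := by rw [← pow_mul]; congr 1
    _ ≤ _ := pow_le_pow_left₀ (by positivity) this n

end model

theorem euler_lower (k : ℕ) : ((5:ℝ)/2)^((2*k+1+1)^3) ≤ (eulerCount (2*k+1+1) : ℝ) := by
  rw [eulerCount_eq (2*k+1)]
  have h := Z_lower wER Equiv.boolNot ?_ ?_ ?_ 20 (by norm_num) ?_ k
  · refine le_trans (le_of_eq ?_) h
    congr 1
    rw [Fintype.card_bool]; norm_num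
  · intro o1 o2 o3 i1 i2 i3; unfold wER; congr 1; revert o1 o2 o3 i1 i2 i3; decide
  · intro o1 o2 o3 i1 i2 i3; unfold wER; congr 1; revert o1 o2 o3 i1 i2 i3; decide
  · intro o1 o2 o3 i1 i2 i3; unfold wER; congr 1; revert o1 o2 o3 i1 i2 i3; decide
  · have : ∑ p : Bool, ∑ q : Bool, ∑ i2 : Bool, ∑ o2 : Bool, ∑ i1 : Bool, ∑ o1 : Bool,
        wE o1 o2 q i1 i2 p = 20 := by decide +kernel
    unfold T2 W2 W1 wER
    exact_mod_cast this

theorem ice_lower (k : ℕ) : ((10:ℝ)/3)^((2*k+1+1)^3) ≤ (iceCount (2*k+1+1) : ℝ) := by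
  rw [iceCount_eq (2*k+1)]
  have h := Z_lower wIR (Equiv.optionCongr Equiv.boolNot) ?_ ?_ ?_ 90 (by norm_num) ?_ k
  · refine le_trans (le_of_eq ?_) h
    congr 1
    rw [Fintype.card_option, Fintype.card_bool]; norm_num
  · intro o1 o2 o3 i1 i2 i3; unfold wIR; congr 1; revert o1 o2 o3 i1 i2 i3; decide +kernel
  · intro o1 o2 o3 i1 i2 i3; unfold wIR; congr 1; revert o1 o2 o3 i1 i2 i3; decide +kernel
  · intro o1 o2 o3 i1 i2 i3; unfold wIR; congr 1; revert o1 o2 o3 i1 i2 i3; decide +kernel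
  · have : ∑ p : Option Bool, ∑ q : Option Bool, ∑ i2 : Option Bool, ∑ o2 : Option Bool,
        ∑ i1 : Option Bool, ∑ o1 : Option Bool, wI o1 o2 q i1 i2 p = 90 := by decide +kernel
    unfold T2 W2 W1 wIR
    exact_mod_cast this


lemma LT_diag (b c : ℕ) [NeZero b] [NeZero c] (q : Fin b → Fin c → Bool) :
    1 ≤ Pool.Agent.Helper653.IceUp.LT wER b c q q := by
  unfold Pool.Agent.Helper653.IceUp.LT
  have hnn : ∀ o1 o2 o3 i1 i2 i3, 0 ≤ wER o1 o2 o3 i1 i2 i3 := by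
    intro o1 o2 o3 i1 i2 i3; unfold wER; positivity
  have h1 : (1:ℝ) = ∏ y : Fin b, ∏ z : Fin c, wER (q y z) true true (q y z) true true := by
    symm
    refine Finset.prod_eq_one (fun y _ => Finset.prod_eq_one (fun z _ => ?_))
    cases q y z <;> simp [wER, wE, b2n]
  rw [h1]
  refine le_trans ?_ (Finset.single_le_sum (f := fun t2 : Fin b → Fin c → Bool =>
    ∑ t3 : Fin b → Fin c → Bool, ∏ y, ∏ z,
      wER (q y z) (t2 y z) (t3 y z) (q y z) (t2 (y-1) z) (t3 y (z-1)))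
    (fun t2 _ => Finset.sum_nonneg (fun t3 _ => Finset.prod_nonneg (fun y _ =>
      Finset.prod_nonneg (fun z _ => hnn _ _ _ _ _ _)))) (Finset.mem_univ (fun _ _ => true)))
  exact Finset.single_le_sum (f := fun t3 : Fin b → Fin c → Bool => ∏ y, ∏ z,
      wER (q y z) true (t3 y z) (q y z) true (t3 y (z-1)))
    (fun t3 _ => Finset.prod_nonneg (fun y _ =>
      Finset.prod_nonneg (fun z _ => hnn _ _ _ _ _ _))) (Finset.mem_univ (fun _ _ => true))

lemma Z_odd (k b c : ℕ) [NeZero b] [NeZero c] :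
    Z wER (2*k+1+1) b c ≤ Z wER (2*k+1+1+1) b c := by
  rw [Z_cyc, Z_cyc]
  refine cyc_odd _ (LT_symm wER Equiv.boolNot ?_ b c) (LT_nonneg wER ?_ b c) (LT_diag b c) k
  · intro o1 o2 o3 i1 i2 i3; unfold wER; congr 1; revert o1 o2 o3 i1 i2 i3; decide
  · intro o1 o2 o3 i1 i2 i3; unfold wER; positivity

theorem euler_odd (k : ℕ) : ((5:ℝ)/2)^((2*k+1+1)^3) ≤ (eulerCount (2*k+1+1+1) : ℝ) := by
  refine (euler_lower k).trans ?_
  rw [eulerCount_eq (2*k+1), eulerCount_eq (2*k+1+1)]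
  have hr : ∀ o1 o2 o3 i1 i2 i3, wER o1 o2 o3 i1 i2 i3 = wER o2 o3 o1 i2 i3 i1 := by
    intro o1 o2 o3 i1 i2 i3; unfold wER; congr 1; revert o1 o2 o3 i1 i2 i3; decide
  calc Z wER (2*k+1+1) (2*k+1+1) (2*k+1+1) ≤ Z wER (2*k+1+1+1) (2*k+1+1) (2*k+1+1) := Z_odd _ _ _
    _ = Z wER (2*k+1+1) (2*k+1+1) (2*k+1+1+1) := Z_rot _ hr _ _ _
    _ ≤ Z wER (2*k+1+1+1) (2*k+1+1) (2*k+1+1+1) := Z_odd _ _ _
    _ = Z wER (2*k+1+1) (2*k+1+1+1) (2*k+1+1+1) := Z_rot _ hr _ _ _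
    _ ≤ Z wER (2*k+1+1+1) (2*k+1+1+1) (2*k+1+1+1) := Z_odd _ _ _

/-- Two-sided bounds. -/
theorem result :
    (∀ n : ℕ, 3 ≤ n → Even n → ((10:ℝ)/3)^(n^3) ≤ iceCount n) ∧
    (∀ n : ℕ, 3 ≤ n → (iceCount n : ℝ)^4 ≤ 318^(n^3) * 327^(n^2)) ∧
    (∀ n : ℕ, 3 ≤ n → ((5:ℝ)/2)^((2*(n/2))^3) ≤ eulerCount n) ∧
    (∀ n : ℕ, 3 ≤ n → (eulerCount n : ℝ)^4 ≤ 61^(n^3) * 114^(n^2)) := by
  refine ⟨fun n hn he => ?_, Pool.Agent.Helper653.IceUp.result.1, fun n hn => ?_,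
    Pool.Agent.Helper653.IceUp.result.2.1⟩
  · obtain ⟨m, hm⟩ := he
    obtain ⟨k, rfl⟩ : ∃ k, n = 2*k+1+1 := ⟨m - 1, by omega⟩
    exact ice_lower k
  · rcases Nat.even_or_odd' n with ⟨m, hm | hm⟩
    · obtain ⟨k, rfl⟩ : ∃ k, n = 2*k+1+1 := ⟨m - 1, by omega⟩
      have e : 2*((2*k+1+1)/2) = 2*k+1+1 := by omega
      rw [e]
      exact euler_lower k
    · obtain ⟨k, rfl⟩ : ∃ k, n = 2*k+1+1+1 := ⟨m - 1, by omega⟩
      have e : 2*((2*k+1+1+1)/2) = 2*k+1+1 := by omega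
      rw [e]
      exact euler_odd k

end Pool.Agent.Helper653.IceTwo
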