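import Mathlib

namespace Pool.Agent.Helper653.IceUp
open Finset

/-! ### cyclic transfer matrix sums -/

section cyc
variable {A : Type} [Fintype A] [DecidableEq A]

lemma path_sum (T : Matrix A A ℝ) (m : ℕ) (g : A → A → ℝ) :
    ∑ σ : Fin (m+1) → A, (∏ t : Fin m, T (σ t.castSucc) (σ t.succ)) * g (σ 0) (σ (Fin.last m)) =
    ∑ p, ∑ q, (T^m) p q * g p q := by
  induction m generalizing g with
  | zero =>
    rw [← Equiv.sum_comp (Equiv.funUnique (Fin 1) A).symm]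
    simp [Matrix.one_apply]
  | succ m ih =>
    rw [← Equiv.sum_comp (Fin.consEquiv (fun _ : Fin (m+2) => A)), Fintype.sum_prod_type]
    have : ∀ p : A, ∑ τ : Fin (m+1) → A,
        (∏ t : Fin (m+1), T ((Fin.consEquiv (fun _ : Fin (m+2) => A)) (p, τ) t.castSucc)
          ((Fin.consEquiv (fun _ : Fin (m+2) => A)) (p, τ) t.succ)) *
          g ((Fin.consEquiv (fun _ : Fin (m+2) => A)) (p, τ) 0)
            ((Fin.consEquiv (fun _ : Fin (m+2) => A)) (p, τ) (Fin.last (m+1))) =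
        ∑ q, (T^(m+1)) p q * g p q := by
      intro p
      have h1 := ih (fun r q => T p r * g p q)
      have h2 : ∀ τ : Fin (m+1) → A,
        (∏ t : Fin (m+1), T ((Fin.consEquiv (fun _ : Fin (m+2) => A)) (p, τ) t.castSucc)
          ((Fin.consEquiv (fun _ : Fin (m+2) => A)) (p, τ) t.succ)) *
          g ((Fin.consEquiv (fun _ : Fin (m+2) => A)) (p, τ) 0)
            ((Fin.consEquiv (fun _ : Fin (m+2) => A)) (p, τ) (Fin.last (m+1))) =
        (∏ t : Fin m, T (τ t.castSucc) (τ t.succ)) * (T p (τ 0) * g p (τ (Fin.last m))) := by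
        intro τ
        rw [Fin.prod_univ_succ]
        have e0 : (Fin.consEquiv (fun _ : Fin (m+2) => A)) (p, τ) = (Fin.cons p τ : Fin (m+2) → A) := rfl
        rw [e0]
        have e1 : ∀ t : Fin m, (Fin.cons p τ : Fin (m+2) → A) (t.succ.castSucc) = τ t.castSucc := by
          intro t
          rw [← Fin.succ_castSucc, Fin.cons_succ]
        have e2 : (Fin.cons p τ : Fin (m+2) → A) (Fin.last (m+1)) = τ (Fin.last m) := by
          rw [← Fin.succ_last, Fin.cons_succ]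
        simp only [Fin.castSucc_zero, Fin.cons_zero, Fin.cons_succ, e1, e2]
        ring
      simp only [h2]
      rw [h1, Finset.sum_comm]
      refine Finset.sum_congr rfl (fun q _ => ?_)
      rw [pow_succ', Matrix.mul_apply, Finset.sum_mul]
      refine Finset.sum_congr rfl (fun r _ => ?_)
      ring
    exact Finset.sum_congr rfl (fun p _ => this p)

/-- cyclic sum -/
noncomputable def cyc (k : ℕ) [NeZero k] (T : Matrix A A ℝ) : ℝ :=
  ∑ σ : Fin k → A, ∏ t : Fin k, T (σ t) (σ (t+1))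

lemma cyc_eq (m : ℕ) (T : Matrix A A ℝ) : cyc (m+1) T = ∑ p, ∑ q, (T^m) p q * T q p := by
  rw [← path_sum T m (fun p q => T q p)]
  unfold cyc
  refine Finset.sum_congr rfl (fun σ _ => ?_)
  rw [Fin.prod_univ_castSucc]
  congr 1
  · refine Finset.prod_congr rfl (fun t _ => ?_)
    rw [Fin.coeSucc_eq_succ]
  · rw [Fin.last_add_one]

noncomputable def fro (T : Matrix A A ℝ) : ℝ := ∑ p, ∑ q, (T p q)^2

lemma fro_nonneg (T : Matrix A A ℝ) : 0 ≤ fro T :=
  Finset.sum_nonneg (fun _ _ => Finset.sum_nonneg (fun _ _ => sq_nonneg _))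

lemma fro_mul (S T : Matrix A A ℝ) : fro (S * T) ≤ fro S * fro T := by
  unfold fro
  have h : ∀ p q, ((S * T) p q)^2 ≤ (∑ r, (S p r)^2) * (∑ r, (T r q)^2) := by
    intro p q
    rw [Matrix.mul_apply]
    exact Finset.sum_mul_sq_le_sq_mul_sq _ _ _
  calc ∑ p, ∑ q, ((S * T) p q)^2 ≤ ∑ p, ∑ q, (∑ r, (S p r)^2) * (∑ r, (T r q)^2) :=
        Finset.sum_le_sum (fun p _ => Finset.sum_le_sum (fun q _ => h p q))
    _ = (∑ p, ∑ r, (S p r)^2) * ∑ q, ∑ r, (T r q)^2 := by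
        rw [Finset.sum_mul_sum]
    _ = _ := by
        congr 1
        rw [Finset.sum_comm]

lemma fro_pow (T : Matrix A A ℝ) (m : ℕ) : fro (T^(m+1)) ≤ fro T ^ (m+1) := by
  induction m with
  | zero => simp
  | succ m ih =>
    rw [pow_succ]
    refine (fro_mul _ _).trans ?_
    rw [pow_succ (fro T)]
    exact mul_le_mul_of_nonneg_right ih (fro_nonneg T)

/-- `cyc k T ^ 2 ≤ (fro T)^k` for `k ≥ 2`. -/
lemma cyc_le (m : ℕ) (T : Matrix A A ℝ) : cyc (m+2) T ^ 2 ≤ fro T ^ (m+2) := by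
  rw [cyc_eq]
  have h1 : (∑ p, ∑ q, (T^(m+1)) p q * T q p)^2 ≤ fro (T^(m+1)) * fro T := by
    have := Finset.sum_mul_sq_le_sq_mul_sq (univ : Finset (A × A))
      (fun x => (T^(m+1)) x.1 x.2) (fun x => T x.2 x.1)
    simp only [Fintype.sum_prod_type] at this
    refine this.trans (le_of_eq ?_)
    unfold fro
    congr 1
    rw [Finset.sum_comm]
  refine h1.trans ?_
  rw [pow_succ (fro T) (m+1)]
  exact mul_le_mul_of_nonneg_right (fro_pow T m) (fro_nonneg T)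

lemma cyc_two (T : Matrix A A ℝ) (hs : ∀ p q, T p q = T q p) : cyc 2 T = fro T := by
  rw [cyc_eq 1, pow_one]
  unfold fro
  refine Finset.sum_congr rfl (fun p _ => Finset.sum_congr rfl (fun q _ => ?_))
  rw [hs q p]; ring

/-- Collatz–Wielandt type bound. -/
lemma cyc_row (m : ℕ) (T : Matrix A A ℝ) (hT : ∀ p q, 0 ≤ T p q) (v : A → ℝ) (μ : ℝ)
    (hμ : 0 ≤ μ) (hv1 : ∀ p, 1 ≤ v p) (hv : ∀ p, ∑ q, T p q * v q ≤ μ * v p) :
    cyc (m+1) T ≤ μ^(m+1) * ∑ p, v p := by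
  have hpow : ∀ k, ∀ p, ∑ q, (T^k) p q * v q ≤ μ^k * v p := by
    intro k
    induction k with
    | zero => intro p; simp [Matrix.one_apply]
    | succ k ih =>
      intro p
      have : ∑ q, (T^(k+1)) p q * v q = ∑ r, T p r * ∑ q, (T^k) r q * v q := by
        simp only [pow_succ', Matrix.mul_apply, Finset.sum_mul, Finset.mul_sum]
        rw [Finset.sum_comm]
        refine Finset.sum_congr rfl (fun r _ => Finset.sum_congr rfl (fun q _ => ?_))
        ring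
      rw [this]
      calc ∑ r, T p r * ∑ q, (T^k) r q * v q ≤ ∑ r, T p r * (μ^k * v r) :=
            Finset.sum_le_sum (fun r _ => mul_le_mul_of_nonneg_left (ih r) (hT p r))
        _ = μ^k * ∑ r, T p r * v r := by
            rw [Finset.mul_sum]
            refine Finset.sum_congr rfl (fun r _ => ?_)
            ring
        _ ≤ μ^k * (μ * v p) := mul_le_mul_of_nonneg_left (hv p) (pow_nonneg hμ k)
        _ = μ^(k+1) * v p := by ring
  have hnn : ∀ k p q, 0 ≤ (T^k) p q := by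
    intro k
    induction k with
    | zero => intro p q; simp only [pow_zero, Matrix.one_apply]; split_ifs <;> norm_num
    | succ k ih =>
      intro p q
      rw [pow_succ, Matrix.mul_apply]
      exact Finset.sum_nonneg (fun r _ => mul_nonneg (ih p r) (hT r q))
  rw [cyc_eq]
  have h1 : ∑ p, ∑ q, (T^m) p q * T q p = ∑ p, (T^(m+1)) p p := by
    refine Finset.sum_congr rfl (fun p _ => ?_)
    rw [pow_succ, Matrix.mul_apply]
  rw [h1, Finset.mul_sum]
  refine Finset.sum_le_sum (fun p _ => ?_)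
  refine le_trans ?_ (hpow (m+1) p)
  calc (T^(m+1)) p p ≤ (T^(m+1)) p p * v p := by
        have := hnn (m+1) p p
        nlinarith [hv1 p]
    _ ≤ ∑ q, (T^(m+1)) p q * v q :=
        Finset.single_le_sum (f := fun q => (T^(m+1)) p q * v q)
          (fun q _ => mul_nonneg (hnn _ _ _) (by linarith [hv1 q])) (Finset.mem_univ p)

end cyc


/-! ### vertex models on the three-dimensional torus -/

section model
variable {S : Type} [Fintype S] [DecidableEq S]

/-- partition function of a vertex model on the `a × b × c` torus; `w o1 o2 o3 i1 i2 i3` is the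
weight of a vertex whose edges towards `+e_k` carry `o_k` and towards `-e_k` carry `i_k`. -/
noncomputable def Z (w : S → S → S → S → S → S → ℝ) (a b c : ℕ) [NeZero a] [NeZero b] [NeZero c] : ℝ :=
  ∑ s1 : Fin a → Fin b → Fin c → S, ∑ s2 : Fin a → Fin b → Fin c → S,
    ∑ s3 : Fin a → Fin b → Fin c → S, ∏ x, ∏ y, ∏ z,
      w (s1 x y z) (s2 x y z) (s3 x y z) (s1 (x-1) y z) (s2 x (y-1) z) (s3 x y (z-1))

/-- layer-to-layer transfer matrix -/
noncomputable def LT (w : S → S → S → S → S → S → ℝ) (b c : ℕ) [NeZero b] [NeZero c] :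
    Matrix (Fin b → Fin c → S) (Fin b → Fin c → S) ℝ := fun p q =>
  ∑ t2 : Fin b → Fin c → S, ∑ t3 : Fin b → Fin c → S, ∏ y, ∏ z,
    w (q y z) (t2 y z) (t3 y z) (p y z) (t2 (y-1) z) (t3 y (z-1))

lemma Z_cyc (w : S → S → S → S → S → S → ℝ) (a b c : ℕ) [NeZero a] [NeZero b] [NeZero c] :
    Z w a b c = cyc a (LT w b c) := by
  unfold Z cyc
  refine Finset.sum_congr rfl (fun s1 _ => ?_)
  have h1 : ∏ t : Fin a, LT w b c (s1 t) (s1 (t+1)) = ∏ t : Fin a, LT w b c (s1 (t-1)) (s1 t) := by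
    rw [← Equiv.prod_comp (Equiv.subRight (1 : Fin a))]
    refine Finset.prod_congr rfl (fun t _ => ?_)
    simp
  rw [h1]
  unfold LT
  rw [Finset.prod_univ_sum, Fintype.piFinset_univ]
  refine Finset.sum_congr rfl (fun s2 _ => ?_)
  rw [Finset.prod_univ_sum, Fintype.piFinset_univ]

lemma LT_symm (w : S → S → S → S → S → S → ℝ) (r : S ≃ S)
    (hw : ∀ o1 o2 o3 i1 i2 i3, w o1 o2 o3 i1 i2 i3 = w i1 (r o2) (r o3) o1 (r i2) (r i3))
    (b c : ℕ) [NeZero b] [NeZero c] (p q : Fin b → Fin c → S) : LT w b c p q = LT w b c q p := by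
  unfold LT
  let e : (Fin b → Fin c → S) ≃ (Fin b → Fin c → S) :=
    Equiv.piCongrRight (fun _ => Equiv.piCongrRight (fun _ => r))
  have he : ∀ t y z, e t y z = r (t y z) := fun _ _ _ => rfl
  rw [← Equiv.sum_comp e (fun t2 => ∑ t3 : Fin b → Fin c → S, ∏ y, ∏ z,
    w (p y z) (t2 y z) (t3 y z) (q y z) (t2 (y-1) z) (t3 y (z-1)))]
  refine Finset.sum_congr rfl (fun t2 _ => ?_)
  rw [← Equiv.sum_comp e (fun t3 => ∏ y, ∏ z,
    w (p y z) (e t2 y z) (t3 y z) (q y z) (e t2 (y-1) z) (t3 y (z-1)))]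
  refine Finset.sum_congr rfl (fun t3 _ => ?_)
  refine Finset.prod_congr rfl (fun y _ => Finset.prod_congr rfl (fun z _ => ?_))
  rw [hw]
  simp only [he]

/-- rotation of coordinates -/
def rotE (S : Type) (a b c : ℕ) : (Fin a → Fin b → Fin c → S) ≃ (Fin b → Fin c → Fin a → S) where
  toFun f := fun y z x => f x y z
  invFun g := fun x y z => g y z x
  left_inv _ := rfl
  right_inv _ := rfl

lemma Z_rot (w : S → S → S → S → S → S → ℝ)
    (hw : ∀ o1 o2 o3 i1 i2 i3, w o1 o2 o3 i1 i2 i3 = w o2 o3 o1 i2 i3 i1)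
    (a b c : ℕ) [NeZero a] [NeZero b] [NeZero c] : Z w a b c = Z w b c a := by
  unfold Z
  rw [← Equiv.sum_comp (rotE S a b c) (fun u1 => ∑ u2 : Fin b → Fin c → Fin a → S,
    ∑ u3 : Fin b → Fin c → Fin a → S, ∏ y, ∏ z, ∏ x,
      w (u1 y z x) (u2 y z x) (u3 y z x) (u1 (y-1) z x) (u2 y (z-1) x) (u3 y z (x-1)))]
  rw [Finset.sum_comm]
  refine Finset.sum_congr rfl (fun s2 _ => ?_)
  rw [← Equiv.sum_comp (rotE S a b c) (fun u2 => 
    ∑ u3 : Fin b → Fin c → Fin a → S, ∏ y, ∏ z, ∏ x,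
      w ((rotE S a b c) s2 y z x) (u2 y z x) (u3 y z x) ((rotE S a b c) s2 (y-1) z x) (u2 y (z-1) x) (u3 y z (x-1)))]
  rw [Finset.sum_comm]
  refine Finset.sum_congr rfl (fun s3 _ => ?_)
  rw [← Equiv.sum_comp (rotE S a b c) (fun u3 => ∏ y, ∏ z, ∏ x,
      w ((rotE S a b c) s2 y z x) ((rotE S a b c) s3 y z x) (u3 y z x) ((rotE S a b c) s2 (y-1) z x)
        ((rotE S a b c) s3 y (z-1) x) (u3 y z (x-1)))]
  refine Finset.sum_congr rfl (fun s1 _ => ?_)
  rw [Finset.prod_comm]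
  refine Finset.prod_congr rfl (fun y _ => ?_)
  rw [Finset.prod_comm]
  refine Finset.prod_congr rfl (fun z _ => Finset.prod_congr rfl (fun x _ => ?_))
  rw [hw]
  rfl

lemma LT_nonneg (w : S → S → S → S → S → S → ℝ) (h0 : ∀ o1 o2 o3 i1 i2 i3, 0 ≤ w o1 o2 o3 i1 i2 i3)
    (b c : ℕ) [NeZero b] [NeZero c] (p q : Fin b → Fin c → S) : 0 ≤ LT w b c p q :=
  Finset.sum_nonneg (fun _ _ => Finset.sum_nonneg (fun _ _ => Finset.prod_nonneg (fun _ _ =>
    Finset.prod_nonneg (fun _ _ => h0 _ _ _ _ _ _))))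

lemma Z_nonneg (w : S → S → S → S → S → S → ℝ) (h0 : ∀ o1 o2 o3 i1 i2 i3, 0 ≤ w o1 o2 o3 i1 i2 i3)
    (a b c : ℕ) [NeZero a] [NeZero b] [NeZero c] : 0 ≤ Z w a b c :=
  Finset.sum_nonneg (fun _ _ => Finset.sum_nonneg (fun _ _ => Finset.sum_nonneg (fun _ _ =>
    Finset.prod_nonneg (fun _ _ => Finset.prod_nonneg (fun _ _ => Finset.prod_nonneg (fun _ _ =>
    h0 _ _ _ _ _ _))))))

lemma Z_step (w : S → S → S → S → S → S → ℝ) (r : S ≃ S)
    (hw : ∀ o1 o2 o3 i1 i2 i3, w o1 o2 o3 i1 i2 i3 = w i1 (r o2) (r o3) o1 (r i2) (r i3))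
    (m b c : ℕ) [NeZero b] [NeZero c] : Z w (m+2) b c ^ 2 ≤ Z w 2 b c ^ (m+2) := by
  rw [Z_cyc, Z_cyc, cyc_two _ (LT_symm w r hw b c)]
  exact cyc_le m _

/-- main inequality -/
lemma Z_main (w : S → S → S → S → S → S → ℝ) (r : S ≃ S)
    (hw : ∀ o1 o2 o3 i1 i2 i3, w o1 o2 o3 i1 i2 i3 = w i1 (r o2) (r o3) o1 (r i2) (r i3))
    (hw2 : ∀ o1 o2 o3 i1 i2 i3, w o1 o2 o3 i1 i2 i3 = w o2 o3 o1 i2 i3 i1)
    (h0 : ∀ o1 o2 o3 i1 i2 i3, 0 ≤ w o1 o2 o3 i1 i2 i3)
    (v : (Fin 2 → Fin 2 → S) → ℝ) (μ : ℝ) (hμ : 0 ≤ μ) (hv1 : ∀ p, 1 ≤ v p)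
    (hv : ∀ p, ∑ q, LT w 2 2 p q * v q ≤ μ * v p) (m : ℕ) :
    Z w (m+2) (m+2) (m+2) ^ 4 ≤ μ^((m+2)^3) * (∑ p, v p)^((m+2)^2) := by
  set n := m + 2 with hn
  set C := ∑ p, v p with hC
  have hC0 : 0 ≤ C := Finset.sum_nonneg (fun p _ => by linarith [hv1 p])
  have z1 : Z w n n n ^ 2 ≤ Z w 2 n n ^ n := Z_step w r hw m n n
  have z2 : Z w 2 n n ^ 2 ≤ Z w 2 n 2 ^ n := by
    rw [Z_rot w hw2 2 n n]
    exact Z_step w r hw m n 2
  have z3 : Z w 2 n 2 ≤ μ^n * C := by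
    rw [Z_rot w hw2 2 n 2, Z_cyc]
    exact cyc_row (m+1) _ (LT_nonneg w h0 2 2) v μ hμ hv1 hv
  have ha := Z_nonneg w h0 n n n
  have hb := Z_nonneg w h0 2 n n
  have hc := Z_nonneg w h0 2 n 2
  set a := Z w n n n
  set b := Z w 2 n n
  set c := Z w 2 n 2
  have hD : 0 ≤ μ^n * C := mul_nonneg (pow_nonneg hμ n) hC0
  have hsq : (a^4)^2 ≤ ((μ^n * C)^(n^2))^2 := by
    calc (a^4)^2 = (a^2)^4 := by ring
      _ ≤ (b^n)^4 := pow_le_pow_left₀ (sq_nonneg a) z1 4
      _ = (b^2)^(2*n) := by rw [← pow_mul, ← pow_mul]; congr 1; ring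
      _ ≤ (c^n)^(2*n) := pow_le_pow_left₀ (sq_nonneg b) z2 _
      _ = c^(2*n^2) := by rw [← pow_mul]; congr 1; ring
      _ ≤ (μ^n * C)^(2*n^2) := pow_le_pow_left₀ hc z3 _
      _ = ((μ^n * C)^(n^2))^2 := by rw [← pow_mul]; congr 1; ring
  have h4 : a^4 ≤ (μ^n * C)^(n^2) :=
    (pow_le_pow_iff_left₀ (by positivity) (pow_nonneg hD _) (by norm_num)).mp hsq
  refine h4.trans (le_of_eq ?_)
  rw [mul_pow, ← pow_mul]
  congr 2
  ring

end model


lemma prod_ind {a b c : ℕ} (P : Fin a → Fin b → Fin c → Prop) [∀ x y z, Decidable (P x y z)] :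
    (if ∀ x y z, P x y z then (1:ℝ) else 0) = ∏ x, ∏ y, ∏ z, if P x y z then (1:ℝ) else 0 := by
  by_cases h : ∀ x y z, P x y z
  · simp [h]
  · rw [if_neg h]
    push Not at h
    obtain ⟨x, y, z, hxyz⟩ := h
    exact (Finset.prod_eq_zero (mem_univ x) (Finset.prod_eq_zero (mem_univ y)
      (Finset.prod_eq_zero (mem_univ z) (if_neg hxyz)))).symm

/-! ### Eulerian orientations -/

/-- `1` for `true`, `0` for `false` -/
def b2n (b : Bool) : ℕ := match b with | true => 1 | false => 0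

/-- An orientation of the `n × n × n` torus: `s k x y z = true` when the edge from `(x,y,z)` in
direction `+e_k` points away from `(x,y,z)`. Number of arrows leaving the vertex `(x,y,z)`. -/
def outdeg {n : ℕ} (s1 s2 s3 : ZMod n → ZMod n → ZMod n → Bool) (x y z : ZMod n) : ℕ :=
  b2n (s1 x y z) + b2n (s2 x y z) + b2n (s3 x y z) +
    b2n (!(s1 (x-1) y z)) + b2n (!(s2 x (y-1) z)) + b2n (!(s3 x y (z-1)))

/-- number of Eulerian orientations of the `n × n × n` torus -/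
noncomputable def eulerCount (n : ℕ) : ℕ :=
  Nat.card {s : (ZMod n → ZMod n → ZMod n → Bool) × (ZMod n → ZMod n → ZMod n → Bool) ×
    (ZMod n → ZMod n → ZMod n → Bool) // ∀ x y z, outdeg s.1 s.2.1 s.2.2 x y z = 3}

def wE (o1 o2 o3 i1 i2 i3 : Bool) : ℕ :=
  if b2n o1 + b2n o2 + b2n o3 + b2n (!i1) + b2n (!i2) + b2n (!i3) = 3 then 1 else 0

noncomputable def wER (o1 o2 o3 i1 i2 i3 : Bool) : ℝ := (wE o1 o2 o3 i1 i2 i3 : ℝ)

lemma eulerCount_eq (m : ℕ) : (eulerCount (m+1) : ℝ) = Z wER (m+1) (m+1) (m+1) := by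
  unfold eulerCount
  change ((Nat.card {s : (Fin (m+1) → Fin (m+1) → Fin (m+1) → Bool) ×
    (Fin (m+1) → Fin (m+1) → Fin (m+1) → Bool) ×
    (Fin (m+1) → Fin (m+1) → Fin (m+1) → Bool) //
      ∀ x y z, @outdeg (m+1) s.1 s.2.1 s.2.2 x y z = 3} : ℕ) : ℝ) = _
  classical
  rw [Nat.card_eq_fintype_card, Fintype.card_subtype, Finset.card_filter]
  push_cast
  rw [Fintype.sum_prod_type]
  unfold Z
  refine Finset.sum_congr rfl (fun s1 _ => ?_)
  rw [Fintype.sum_prod_type]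
  refine Finset.sum_congr rfl (fun s2 _ => Finset.sum_congr rfl (fun s3 _ => ?_))
  have h := prod_ind (a := m+1) (b := m+1) (c := m+1) (fun x y z => @outdeg (m+1) s1 s2 s3 x y z = 3)
  refine Eq.trans ?_ (h.trans ?_)
  · congr 1
  · refine Finset.prod_congr rfl (fun x _ => Finset.prod_congr rfl (fun y _ =>
      Finset.prod_congr rfl (fun z _ => ?_)))
    unfold wER wE outdeg
    push_cast
    rfl


/-! ### the `2 × 2` transfer matrix -/

section two
variable {S : Type} [Fintype S] [DecidableEq S]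

lemma sum_fin2 {α : Type} [Fintype α] {M : Type} [AddCommMonoid M] (f : (Fin 2 → α) → M) :
    ∑ t, f t = ∑ a, ∑ b, f ![a, b] := by
  rw [← Equiv.sum_comp (finTwoArrowEquiv α).symm, Fintype.sum_prod_type]
  rfl

noncomputable def Rr (w : S → S → S → S → S → S → ℝ) (a q b c : Fin 2 → S) : ℝ :=
  ∑ r : Fin 2 → S, ∏ z, w (q z) (b z) (r z) (a z) (c z) (r (z-1))

lemma LT22 (w : S → S → S → S → S → S → ℝ) (p q : Fin 2 → Fin 2 → S) :
    LT w 2 2 p q = ∑ t : Fin 2 → Fin 2 → S, ∏ y, Rr w (p y) (q y) (t y) (t (y-1)) := by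
  unfold LT Rr
  refine Finset.sum_congr rfl (fun t _ => ?_)
  rw [Finset.prod_univ_sum, Fintype.piFinset_univ]

lemma row22 (w : S → S → S → S → S → S → ℝ) (p : Fin 2 → Fin 2 → S) :
    ∑ q, LT w 2 2 p q =
      ∑ t : Fin 2 → Fin 2 → S, ∏ y, ∑ q : Fin 2 → S, Rr w (p y) q (t y) (t (y-1)) := by
  simp only [LT22]
  rw [Finset.sum_comm]
  refine Finset.sum_congr rfl (fun t _ => ?_)
  rw [Finset.prod_univ_sum, Fintype.piFinset_univ]

end two

def sB (f : Bool → ℕ) : ℕ := f true + f false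
def RE (a0 a1 q0 q1 b0 b1 c0 c1 : Bool) : ℕ :=
  sB fun s0 => sB fun s1 => wE q0 b0 s0 a0 c0 s1 * wE q1 b1 s1 a1 c1 s0
def TE (p00 p01 p10 p11 q00 q01 q10 q11 : Bool) : ℕ :=
  sB fun b00 => sB fun b01 => sB fun b10 => sB fun b11 =>
    RE p00 p01 q00 q01 b00 b01 b10 b11 * RE p10 p11 q10 q11 b10 b11 b00 b01
def vE (p00 p01 p10 p11 : Bool) : ℕ :=
  bif (p00 == p11) && (p01 == p10) && !(p00 == p01) then 8 else 7

theorem certE : ∀ p00 p01 p10 p11 : Bool, (sB fun q00 => sB fun q01 => sB fun q10 => sB fun q11 =>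
    TE p00 p01 p10 p11 q00 q01 q10 q11 * vE q00 q01 q10 q11) ≤ 61 * vE p00 p01 p10 p11 := by
  decide +kernel

theorem certE2 : (sB fun q00 => sB fun q01 => sB fun q10 => sB fun q11 => vE q00 q01 q10 q11) = 114 := by
  decide +kernel

lemma Rr_E (a q b c : Fin 2 → Bool) :
    Rr wER a q b c = (RE (a 0) (a 1) (q 0) (q 1) (b 0) (b 1) (c 0) (c 1) : ℝ) := by
  unfold Rr RE sB wER
  rw [sum_fin2]
  simp only [Fintype.sum_bool, Fin.prod_univ_two, Matrix.cons_val_zero, Matrix.cons_val_one]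
  push_cast
  have e1 : (0 : Fin 2) - 1 = 1 := rfl
  have e2 : (1 : Fin 2) - 1 = 0 := rfl
  simp only [e1, e2, Matrix.cons_val_zero, Matrix.cons_val_one]

lemma LT_E (p q : Fin 2 → Fin 2 → Bool) :
    LT wER 2 2 p q = (TE (p 0 0) (p 0 1) (p 1 0) (p 1 1) (q 0 0) (q 0 1) (q 1 0) (q 1 1) : ℝ) := by
  rw [LT22, sum_fin2]
  simp only [sum_fin2, Fin.prod_univ_two, Rr_E]
  have e1 : (0 : Fin 2) - 1 = 1 := rfl
  have e2 : (1 : Fin 2) - 1 = 0 := rfl
  simp only [e1, e2, Matrix.cons_val_zero, Matrix.cons_val_one, Fintype.sum_bool]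
  unfold TE sB
  push_cast
  rfl

theorem euler_bound (m : ℕ) :
    (eulerCount (m+2) : ℝ)^4 ≤ 61^((m+2)^3) * 114^((m+2)^2) := by
  have hmain := Z_main wER (Equiv.boolNot) ?_ ?_ ?_
    (fun p => (vE (p 0 0) (p 0 1) (p 1 0) (p 1 1) : ℝ)) 61 (by norm_num) ?_ ?_ m
  · rw [eulerCount_eq (m+1)]
    refine hmain.trans (le_of_eq ?_)
    have : ∑ p : Fin 2 → Fin 2 → Bool, (vE (p 0 0) (p 0 1) (p 1 0) (p 1 1) : ℝ) = 114 := by
      rw [sum_fin2]
      simp only [sum_fin2, Matrix.cons_val_zero, Matrix.cons_val_one, Fintype.sum_bool]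
      have := certE2
      unfold sB at this
      exact_mod_cast this
    rw [this]
  · intro o1 o2 o3 i1 i2 i3
    unfold wER
    congr 1
    revert o1 o2 o3 i1 i2 i3
    decide
  · intro o1 o2 o3 i1 i2 i3
    unfold wER
    congr 1
    revert o1 o2 o3 i1 i2 i3
    decide
  · intro o1 o2 o3 i1 i2 i3
    unfold wER
    positivity
  · intro p
    have : ∀ a b c d, 1 ≤ vE a b c d := by decide
    exact_mod_cast this _ _ _ _
  · intro p
    simp only [LT_E]
    rw [sum_fin2]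
    simp only [sum_fin2, Matrix.cons_val_zero, Matrix.cons_val_one, Fintype.sum_bool]
    have := certE (p 0 0) (p 0 1) (p 1 0) (p 1 1)
    unfold sB at this
    exact_mod_cast this


/-! ### ice-rule configurations -/

/-- `1` if the edge is oriented in the positive direction -/
def pos (o : Option Bool) : ℕ := match o with | some true => 1 | _ => 0

/-- `1` if the edge is oriented in the negative direction -/
def neg (o : Option Bool) : ℕ := match o with | some false => 1 | _ => 0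

/-- An assignment on the `n × n × n` torus: `s k x y z` is `some true` (`some false`) when the edge
from `(x,y,z)` in direction `+e_k` points away from (towards) `(x,y,z)` and `none` when it is
unoriented. Number of arrows leaving the vertex `(x,y,z)`. -/
def outI {n : ℕ} (s1 s2 s3 : ZMod n → ZMod n → ZMod n → Option Bool) (x y z : ZMod n) : ℕ :=
  pos (s1 x y z) + pos (s2 x y z) + pos (s3 x y z) +
    neg (s1 (x-1) y z) + neg (s2 x (y-1) z) + neg (s3 x y (z-1))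

/-- Number of arrows entering the vertex `(x,y,z)`. -/
def inI {n : ℕ} (s1 s2 s3 : ZMod n → ZMod n → ZMod n → Option Bool) (x y z : ZMod n) : ℕ :=
  neg (s1 x y z) + neg (s2 x y z) + neg (s3 x y z) +
    pos (s1 (x-1) y z) + pos (s2 x (y-1) z) + pos (s3 x y (z-1))

/-- number of ice-rule configurations of the `n × n × n` torus: 2 arrows out, 2 arrows in (hence 2
unoriented edges) at every vertex -/
noncomputable def iceCount (n : ℕ) : ℕ :=
  Nat.card {s : (ZMod n → ZMod n → ZMod n → Option Bool) ×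
    (ZMod n → ZMod n → ZMod n → Option Bool) ×
    (ZMod n → ZMod n → ZMod n → Option Bool) //
      ∀ x y z, outI s.1 s.2.1 s.2.2 x y z = 2 ∧ inI s.1 s.2.1 s.2.2 x y z = 2}

def wI (o1 o2 o3 i1 i2 i3 : Option Bool) : ℕ :=
  if pos o1 + pos o2 + pos o3 + neg i1 + neg i2 + neg i3 = 2 ∧
    neg o1 + neg o2 + neg o3 + pos i1 + pos i2 + pos i3 = 2 then 1 else 0

noncomputable def wIR (o1 o2 o3 i1 i2 i3 : Option Bool) : ℝ := (wI o1 o2 o3 i1 i2 i3 : ℝ)

lemma iceCount_eq (m : ℕ) : (iceCount (m+1) : ℝ) = Z wIR (m+1) (m+1) (m+1) := by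
  let P : (Fin (m+1) → Fin (m+1) → Fin (m+1) → Option Bool) →
    (Fin (m+1) → Fin (m+1) → Fin (m+1) → Option Bool) →
    (Fin (m+1) → Fin (m+1) → Fin (m+1) → Option Bool) → Fin (m+1) → Fin (m+1) → Fin (m+1) → Prop :=
    fun s1 s2 s3 x y z => pos (s1 x y z) + pos (s2 x y z) + pos (s3 x y z) +
      neg (s1 (x-1) y z) + neg (s2 x (y-1) z) + neg (s3 x y (z-1)) = 2 ∧
      neg (s1 x y z) + neg (s2 x y z) + neg (s3 x y z) +
      pos (s1 (x-1) y z) + pos (s2 x (y-1) z) + pos (s3 x y (z-1)) = 2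
  have h0 : iceCount (m+1) = Nat.card {s : (Fin (m+1) → Fin (m+1) → Fin (m+1) → Option Bool) ×
    (Fin (m+1) → Fin (m+1) → Fin (m+1) → Option Bool) ×
    (Fin (m+1) → Fin (m+1) → Fin (m+1) → Option Bool) // ∀ x y z, P s.1 s.2.1 s.2.2 x y z} := rfl
  rw [h0]
  classical
  rw [Nat.card_eq_fintype_card, Fintype.card_subtype, Finset.card_filter]
  push_cast
  rw [Fintype.sum_prod_type]
  unfold Z
  refine Finset.sum_congr rfl (fun s1 _ => ?_)
  rw [Fintype.sum_prod_type]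
  refine Finset.sum_congr rfl (fun s2 _ => Finset.sum_congr rfl (fun s3 _ => ?_))
  refine Eq.trans ?_ ((prod_ind (a := m+1) (b := m+1) (c := m+1) (P s1 s2 s3)).trans ?_)
  · congr 1
  · refine Finset.prod_congr rfl (fun x _ => Finset.prod_congr rfl (fun y _ =>
      Finset.prod_congr rfl (fun z _ => ?_)))
    simp only [wIR, wI, P]
    push_cast
    rfl

def sO (f : Option Bool → ℕ) : ℕ := f none + (f (some true) + f (some false))
def RI (a0 a1 q0 q1 b0 b1 c0 c1 : Option Bool) : ℕ :=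
  sO fun s0 => sO fun s1 => wI q0 b0 s0 a0 c0 s1 * wI q1 b1 s1 a1 c1 s0
def TI (p00 p01 p10 p11 q00 q01 q10 q11 : Option Bool) : ℕ :=
  sO fun b00 => sO fun b01 => sO fun b10 => sO fun b11 =>
    RI p00 p01 q00 q01 b00 b01 b10 b11 * RI p10 p11 q10 q11 b10 b11 b00 b01
def vI (p00 p01 p10 p11 : Option Bool) : ℕ :=
  bif (p00 == p11) && (p01 == p10) && (p00 == p01.map not) then 5 else 4

theorem certI : ∀ p00 p01 p10 p11 : Option Bool, (sO fun q00 => sO fun q01 => sO fun q10 => sO fun q11 =>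
    TI p00 p01 p10 p11 q00 q01 q10 q11 * vI q00 q01 q10 q11) ≤ 318 * vI p00 p01 p10 p11 := by
  decide +kernel

theorem certI2 : (sO fun q00 => sO fun q01 => sO fun q10 => sO fun q11 => vI q00 q01 q10 q11) = 327 := by
  decide +kernel

lemma Rr_I (a q b c : Fin 2 → Option Bool) :
    Rr wIR a q b c = (RI (a 0) (a 1) (q 0) (q 1) (b 0) (b 1) (c 0) (c 1) : ℝ) := by
  have e1 : (0 : Fin 2) - 1 = 1 := rfl
  have e2 : (1 : Fin 2) - 1 = 0 := rfl
  unfold Rr RI sO wIR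
  rw [sum_fin2]
  simp only [Fintype.sum_option, Fintype.sum_bool, Fin.prod_univ_two, Matrix.cons_val_zero,
    Matrix.cons_val_one, e1, e2]
  push_cast
  rfl

lemma LT_I (p q : Fin 2 → Fin 2 → Option Bool) :
    LT wIR 2 2 p q = (TI (p 0 0) (p 0 1) (p 1 0) (p 1 1) (q 0 0) (q 0 1) (q 1 0) (q 1 1) : ℝ) := by
  rw [LT22, sum_fin2]
  simp only [sum_fin2, Fin.prod_univ_two, Rr_I]
  have e1 : (0 : Fin 2) - 1 = 1 := rfl
  have e2 : (1 : Fin 2) - 1 = 0 := rfl
  simp only [e1, e2, Matrix.cons_val_zero, Matrix.cons_val_one, Fintype.sum_option, Fintype.sum_bool]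
  unfold TI sO
  push_cast
  rfl

theorem ice_bound (m : ℕ) :
    (iceCount (m+2) : ℝ)^4 ≤ 318^((m+2)^3) * 327^((m+2)^2) := by
  have hmain := Z_main wIR (Equiv.optionCongr Equiv.boolNot) ?_ ?_ ?_
    (fun p => (vI (p 0 0) (p 0 1) (p 1 0) (p 1 1) : ℝ)) 318 (by norm_num) ?_ ?_ m
  · rw [iceCount_eq (m+1)]
    refine hmain.trans (le_of_eq ?_)
    have : ∑ p : Fin 2 → Fin 2 → Option Bool, (vI (p 0 0) (p 0 1) (p 1 0) (p 1 1) : ℝ) = 327 := by
      rw [sum_fin2]
      simp only [sum_fin2, Matrix.cons_val_zero, Matrix.cons_val_one, Fintype.sum_option,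
        Fintype.sum_bool]
      have := certI2
      unfold sO at this
      exact_mod_cast this
    rw [this]
  · intro o1 o2 o3 i1 i2 i3
    unfold wIR
    congr 1
    revert o1 o2 o3 i1 i2 i3
    decide +kernel
  · intro o1 o2 o3 i1 i2 i3
    unfold wIR
    congr 1
    revert o1 o2 o3 i1 i2 i3
    decide +kernel
  · intro o1 o2 o3 i1 i2 i3
    unfold wIR
    positivity
  · intro p
    have : ∀ a b c d, 1 ≤ vI a b c d := by decide +kernel
    exact_mod_cast this _ _ _ _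
  · intro p
    simp only [LT_I]
    rw [sum_fin2]
    simp only [sum_fin2, Matrix.cons_val_zero, Matrix.cons_val_one, Fintype.sum_option,
      Fintype.sum_bool]
    have := certI (p 0 0) (p 0 1) (p 1 0) (p 1 1)
    unfold sO at this
    exact_mod_cast this

lemma root_bound (b : ℕ → ℝ) (hb : ∀ n, 0 ≤ b n) (μ C : ℝ) (hμ : 0 < μ) (hC : 0 < C)
    (h : ∀ n : ℕ, 2 ≤ n → (b n)^4 ≤ μ^(n^3) * C^(n^2)) (ε : ℝ) (hε : 0 < ε) :
    ∃ n0 : ℕ, ∀ n : ℕ, n0 ≤ n → (b n)^(1/((n:ℝ)^3)) ≤ μ^((1:ℝ)/4) + ε := by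
  have hlim : Filter.Tendsto (fun n : ℕ => μ^((1:ℝ)/4) * C^(1/(4*(n:ℝ)))) Filter.atTop
      (nhds (μ^((1:ℝ)/4) * C^(0:ℝ))) := by
    refine Filter.Tendsto.const_mul _ ?_
    have h0 : Filter.Tendsto (fun n : ℕ => 1/(4*(n:ℝ))) Filter.atTop (nhds 0) := by
      have h1 : Filter.Tendsto (fun n : ℕ => (1/4:ℝ) * (1/(n:ℝ))) Filter.atTop (nhds ((1/4) * 0)) :=
        Filter.Tendsto.const_mul _ tendsto_one_div_atTop_nhds_zero_nat
      simp only [mul_zero] at h1
      refine h1.congr (fun n => ?_)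
      by_cases hn : (n:ℝ) = 0
      · rw [hn]; simp
      · field_simp
    exact (Real.continuousAt_const_rpow hC.ne').tendsto.comp h0
  rw [Real.rpow_zero, mul_one] at hlim
  have hev := hlim.eventually (gt_mem_nhds (show μ^((1:ℝ)/4) < μ^((1:ℝ)/4) + ε by linarith))
  obtain ⟨n1, hn1⟩ := Filter.eventually_atTop.mp hev
  refine ⟨max n1 2, fun n hn => ?_⟩
  have hn2 : 2 ≤ n := le_trans (le_max_right _ _) hn
  have hn3 := hn1 n (le_trans (le_max_left _ _) hn)
  refine le_trans ?_ hn3.le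
  have hnpos : (0:ℝ) < n := by exact_mod_cast (by omega : 0 < n)
  have e1 : (b n)^(1/((n:ℝ)^3)) = ((b n)^4)^(1/(4*(n:ℝ)^3)) := by
    rw [← Real.rpow_natCast (b n) 4, ← Real.rpow_mul (hb n)]
    congr 1
    push_cast
    field_simp
  rw [e1]
  have e2 : (μ^(n^3) * C^(n^2))^(1/(4*(n:ℝ)^3)) = μ^((1:ℝ)/4) * C^(1/(4*(n:ℝ))) := by
    rw [Real.mul_rpow (by positivity) (by positivity), ← Real.rpow_natCast μ, ← Real.rpow_natCast C,
      ← Real.rpow_mul hμ.le, ← Real.rpow_mul hC.le]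
    congr 2
    · push_cast; field_simp
    · push_cast; field_simp
  rw [← e2]
  exact Real.rpow_le_rpow (by have := hb n; positivity) (h n hn2) (by positivity)

/-- Upper bounds for the numbers of ice-rule configurations and Eulerian orientations of the
`n × n × n` torus. -/
theorem result :
    (∀ n : ℕ, 3 ≤ n → (iceCount n : ℝ)^4 ≤ 318^(n^3) * 327^(n^2)) ∧
    (∀ n : ℕ, 3 ≤ n → (eulerCount n : ℝ)^4 ≤ 61^(n^3) * 114^(n^2)) ∧
    (∀ ε : ℝ, 0 < ε → ∃ n0 : ℕ, ∀ n : ℕ, n0 ≤ n →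
      (iceCount n : ℝ)^(1/((n:ℝ)^3)) ≤ 318^((1:ℝ)/4) + ε ∧
      (eulerCount n : ℝ)^(1/((n:ℝ)^3)) ≤ 61^((1:ℝ)/4) + ε) := by
  have hE : ∀ n : ℕ, 2 ≤ n → (eulerCount n : ℝ)^4 ≤ 61^(n^3) * 114^(n^2) := by
    intro n hn
    obtain ⟨m, rfl⟩ : ∃ m, n = m + 2 := ⟨n - 2, by omega⟩
    exact euler_bound m
  have hI : ∀ n : ℕ, 2 ≤ n → (iceCount n : ℝ)^4 ≤ 318^(n^3) * 327^(n^2) := by
    intro n hn
    obtain ⟨m, rfl⟩ : ∃ m, n = m + 2 := ⟨n - 2, by omega⟩
    exact ice_bound m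
  refine ⟨fun n hn => hI n (by omega), fun n hn => hE n (by omega), fun ε hε => ?_⟩
  obtain ⟨n1, h1⟩ := root_bound (fun n => (iceCount n : ℝ)) (fun n => by positivity) 318 327
    (by norm_num) (by norm_num) hI ε hε
  obtain ⟨n2, h2⟩ := root_bound (fun n => (eulerCount n : ℝ)) (fun n => by positivity) 61 114
    (by norm_num) (by norm_num) hE ε hε
  exact ⟨max n1 n2, fun n hn => ⟨h1 n (le_trans (le_max_left _ _) hn),
    h2 n (le_trans (le_max_right _ _) hn)⟩⟩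

end Pool.Agent.Helper653.IceUp
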